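import Pool.Agent.H33.Benzel.MainRec

/-! The sum over the position of the sink, and the benzels `B(n, 2n-4)`. -/

open Finset

namespace Pool.Agent.H33.Benzel

/-- the sinks with given offsets inside the triangle -/
noncomputable def sinkFam (N : ℤ) (o : ℤ × ℤ × ℤ × ℤ) : Finset Tr :=
  ((Tri N).filter (fun s => (s.1 + o.1, s.2 + o.2.1) ∈ Tri N ∧
    (s.1 + o.2.2.1, s.2 + o.2.2.2) ∈ Tri N)).image
    (fun s => (s, (s.1 + o.1, s.2 + o.2.1), (s.1 + o.2.2.1, s.2 + o.2.2.2)))

/-- the offsets of the five kinds of sinks -/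
def sinkOffs : Finset (ℤ × ℤ × ℤ × ℤ) :=
  {(-2, 1, -1, 0), (-1, 0, -1, -1), (-1, 1, 0, -1), (-1, 0, 0, -1), (-1, 1, -1, 0)}

lemma mem_sinkFam {N : ℤ} {o : ℤ × ℤ × ℤ × ℤ} {t : Tr} :
    t ∈ sinkFam N o ↔ t.1 ∈ Tri N ∧ t.2.1 ∈ Tri N ∧ t.2.2 ∈ Tri N ∧
      offs t o.1 o.2.1 o.2.2.1 o.2.2.2 := by
  unfold sinkFam offs
  rw [mem_image]
  constructor
  · rintro ⟨s, hs, rfl⟩
    rw [mem_filter] at hs
    exact ⟨hs.1, hs.2.1, hs.2.2, rfl, rfl, rfl, rfl⟩
  · rintro ⟨h1, h2, h3, h4, h5, h6, h7⟩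
    have e1 : t.2.1 = (t.1.1 + o.1, t.1.2 + o.2.1) := Prod.ext h4 h5
    have e2 : t.2.2 = (t.1.1 + o.2.2.1, t.1.2 + o.2.2.2) := Prod.ext h6 h7
    refine ⟨t.1, ?_, ?_⟩
    · rw [mem_filter, ← e1, ← e2]
      exact ⟨h1, h2, h3⟩
    · rw [← e1, ← e2]

lemma sink_adm_iff {t : Tr} : ((AdmS t ∨ AdmB t) ∧ Sink t) ↔
    ∃ o ∈ sinkOffs, offs t o.1 o.2.1 o.2.2.1 o.2.2.2 := by
  constructor
  · rintro ⟨h, hs⟩
    unfold AdmS AdmB at h
    rcases h with (h | h | h | h | h | h) | (h | h | h | h | h | h | h | h | h)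
    · exfalso; unfold offs at h; unfold Sink at hs; omega
    · exfalso; unfold offs at h; unfold Sink at hs; omega
    · exfalso; unfold offs at h; unfold Sink at hs; omega
    · exfalso; unfold offs at h; unfold Sink at hs; omega
    · exact ⟨(-1, 0, 0, -1), by decide, h⟩
    · exact ⟨(-1, 1, -1, 0), by decide, h⟩
    · exact ⟨(-2, 1, -1, 0), by decide, h⟩
    · exact ⟨(-1, 0, -1, -1), by decide, h⟩
    · exfalso; unfold offs at h; unfold Sink at hs; omega
    · exfalso; unfold offs at h; unfold Sink at hs; omega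
    · exact ⟨(-1, 1, 0, -1), by decide, h⟩
    · exfalso; unfold offs at h; unfold Sink at hs; omega
    · exfalso; unfold offs at h; unfold Sink at hs; omega
    · exfalso; unfold offs at h; unfold Sink at hs; omega
    · exfalso; unfold offs at h; unfold Sink at hs; omega
  · rintro ⟨o, ho, h⟩
    unfold sinkOffs at ho
    simp only [mem_insert, mem_singleton] at ho
    rcases ho with rfl | rfl | rfl | rfl | rfl
    · exact ⟨Or.inr (admB0 h), by unfold offs at h; dsimp only at h; unfold Sink; omega⟩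
    · exact ⟨Or.inr (admB1 h), by unfold offs at h; dsimp only at h; unfold Sink; omega⟩
    · exact ⟨Or.inr (admB4 h), by unfold offs at h; dsimp only at h; unfold Sink; omega⟩
    · exact ⟨Or.inl (admS4 h), by unfold offs at h; dsimp only at h; unfold Sink; omega⟩
    · exact ⟨Or.inl (admS5 h), by unfold offs at h; dsimp only at h; unfold Sink; omega⟩

/-- For the sinks, the weight is `w` exactly for the displaced right stones. -/
lemma wtT_sink (w : ℕ) {t : Tr} {o : ℤ × ℤ × ℤ × ℤ} (ho : o ∈ sinkOffs)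
    (h : offs t o.1 o.2.1 o.2.2.1 o.2.2.2) :
    wtT w t = if o = (-1, 0, 0, -1) ∨ o = (-1, 1, -1, 0) then w else 1 := by
  classical
  have hiff : AdmS t ↔ (o = (-1, 0, 0, -1) ∨ o = (-1, 1, -1, 0)) := by
    unfold sinkOffs at ho
    simp only [mem_insert, mem_singleton] at ho
    rcases ho with rfl | rfl | rfl | rfl | rfl
    · refine iff_of_false ?_ (by decide)
      unfold AdmS
      unfold offs at h ⊢
      dsimp only at h
      rintro (h' | h' | h' | h' | h' | h') <;> omega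
    · refine iff_of_false ?_ (by decide)
      unfold AdmS
      unfold offs at h ⊢
      dsimp only at h
      rintro (h' | h' | h' | h' | h' | h') <;> omega
    · refine iff_of_false ?_ (by decide)
      unfold AdmS
      unfold offs at h ⊢
      dsimp only at h
      rintro (h' | h' | h' | h' | h' | h') <;> omega
    · exact iff_of_true (admS4 h) (by decide)
    · exact iff_of_true (admS5 h) (by decide)
  unfold wtT
  simp only [hiff]

lemma sinkFam_disj {N : ℤ} {o o' : ℤ × ℤ × ℤ × ℤ} (h : o ≠ o') :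
    Disjoint (sinkFam N o) (sinkFam N o') := by
  rw [disjoint_left]
  intro t h1 h2
  rw [mem_sinkFam] at h1 h2
  apply h
  have h3 := h1.2.2.2
  have h4 := h2.2.2.2
  unfold offs at h3 h4
  obtain ⟨o1, o2, o3, o4⟩ := o
  obtain ⟨p1, p2, p3, p4⟩ := o'
  simp only [Prod.mk.injEq] at h3 h4 ⊢
  omega

lemma inv_top {N : ℤ} (hN : 1 ≤ N) {t : Tr} {o : ℤ × ℤ × ℤ × ℤ} (ho : o ∈ sinkOffs)
    (h : t ∈ sinkFam N o) : Inv N (Tri N) t.1 t.2.1 t.2.2 := by
  rw [mem_sinkFam] at h
  constructor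
  · exact hN
  · exact subset_rfl
  · rw [mem_Tri]; simp only; omega
  · rw [mem_Tri]; simp only; omega
  · rw [mem_Tri]; simp only; omega
  · exact h.1
  · exact h.2.1
  · exact h.2.2.1
  · exact (sink_adm_iff.mpr ⟨o, ho, h.2.2.2⟩).2
  · intro o ho _ _
    exact ho
  · intro o ho _ _
    exact ho
  · intro o ho _ _
    exact ho

lemma erase_two {M : Finset St} {a b g : St} : (M \ {a, b}).erase g = M \ {a, b, g} := by
  ext s
  simp only [mem_erase, mem_sdiff, mem_insert, mem_singleton]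
  tauto

theorem top_expand {N : ℤ} (hN : 1 ≤ N) (w : ℕ) :
    weightedCount (RegS N (Tri N)) w = ∑ o ∈ sinkOffs, ∑ t ∈ sinkFam N o,
      wtT w t * weightedCount (RegT N (Tri N) t.1 t.2.1 t.2.2) w := by
  classical
  have ha : ((N, 0) : St) ∈ Tri N := by rw [mem_Tri]; simp only; omega
  have hb : ((0, N) : St) ∈ Tri N := by rw [mem_Tri]; simp only; omega
  have hc : ((0, 0) : St) ∈ Tri N := by rw [mem_Tri]; simp only; omega
  have hmem : ∀ t, t ∈ sinkOffs.biUnion (sinkFam N) ↔ t.1 ∈ Tri N ∧ t.2.1 ∈ Tri N ∧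
      t.2.2 ∈ Tri N ∧ (AdmS t ∨ AdmB t) ∧ Sink t := by
    intro t
    rw [mem_biUnion, sink_adm_iff]
    constructor
    · rintro ⟨o, ho, h⟩
      rw [mem_sinkFam] at h
      exact ⟨h.1, h.2.1, h.2.2.1, o, ho, h.2.2.2⟩
    · rintro ⟨h1, h2, h3, o, ho, h4⟩
      exact ⟨o, ho, mem_sinkFam.mpr ⟨h1, h2, h3, h4⟩⟩
  have key := step_general (N := N) (A := Tri N \ {(0, N), (0, 0)})
    (B := Tri N \ {(N, 0), (0, 0)}) (C := Tri N \ {(N, 0), (0, N)}) w
    (sinkOffs.biUnion (sinkFam N)) ?_ ?_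
  · have h0 : RegS N (Tri N) = Reg N (Tri N \ {(0, N), (0, 0)}) (Tri N \ {(N, 0), (0, 0)})
      (Tri N \ {(N, 0), (0, N)}) := rfl
    rw [h0, key, sum_biUnion (fun o _ o' _ h => sinkFam_disj h)]
    apply sum_congr rfl
    intro o _
    apply sum_congr rfl
    intro t _
    rw [erase_two, erase_two, erase_two]
    rfl
  · intro t ht
    rw [hmem] at ht
    obtain ⟨h1, h2, h3, h4, h5⟩ := ht
    rw [mem_Tri] at h1 h2 h3
    refine ⟨h4, ?_, ?_, ?_⟩
    · rw [mem_sdiff, mem_Tri, mem_insert, mem_singleton]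
      refine ⟨h1, ?_⟩
      unfold Sink at h5
      rw [Prod.ext_iff, Prod.ext_iff]
      simp only
      omega
    · rw [mem_sdiff, mem_Tri, mem_insert, mem_singleton]
      refine ⟨h2, ?_⟩
      unfold Sink at h5
      rw [Prod.ext_iff, Prod.ext_iff]
      simp only
      omega
    · rw [mem_sdiff, mem_Tri, mem_insert, mem_singleton]
      refine ⟨h3, ?_⟩
      unfold Sink at h5
      rw [Prod.ext_iff, Prod.ext_iff]
      simp only
      omega
  · intro τ hτ
    have hcfg := config_top hN (subset_refl (Tri N)) ha hb hc hτ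
    obtain ⟨K, hK, hKs⟩ := hcfg.exists_sink
    refine ⟨K, ⟨?_, (mem_trs hτ).mp hK⟩, ?_⟩
    · rw [hmem]
      exact ⟨(hcfg.inA K hK).1, (hcfg.inB K hK).1, (hcfg.inC K hK).1,
        adm_of_mem hτ ((mem_trs hτ).mp hK), hKs⟩
    · intro t ht ht'
      rw [hmem] at ht
      exact hcfg.sink_unique ((mem_trs hτ).mpr ht') hK ht.2.2.2.2 hKs

/-- the product of the three path numbers for the sink `t` -/
def bbb (x : ℕ) (N : ℤ) (t : Tr) : ℕ :=
  Bz x t.2.2.1 t.2.2.2 * (Bz x t.1.2 (N - t.1.1 - t.1.2) *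
    Bz x (N - t.2.1.1 - t.2.1.2) t.2.1.1)

theorem top_formula {N : ℤ} (hN : 1 ≤ N) (w : ℕ) :
    w ^ (3 * N - 1).toNat * weightedCount (RegS N (Tri N)) w =
      w ^ (Tri N).card * ∑ o ∈ sinkOffs, ∑ t ∈ sinkFam N o, bbb (w ^ 2) N t := by
  rw [top_expand hN, mul_sum, mul_sum]
  apply sum_congr rfl
  intro o ho
  rw [mul_sum, mul_sum]
  apply sum_congr rfl
  intro t ht
  have hInv := inv_top hN ho ht
  have hmain := main_rec w (Tri N).card (Tri N) t.1 t.2.1 t.2.2 rfl hInv
  have hof := (mem_sinkFam.mp ht).2.2.2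
  rw [wtT_sink w ho hof]
  unfold bbb
  rw [← hmain]
  have hTα := mem_Tri.mp hInv.mem_α
  have hTβ := mem_Tri.mp hInv.mem_β
  have hTγ := mem_Tri.mp hInv.mem_γ
  unfold offs at hof
  split_ifs with hc
  · have he : ee N t.1 t.2.1 t.2.2 = (3 * N - 1).toNat + 1 := by
      unfold ee
      rcases hc with rfl | rfl <;> simp only at hof <;> omega
    rw [he, pow_succ]
    ring
  · have he : ee N t.1 t.2.1 t.2.2 = (3 * N - 1).toNat := by
      unfold sinkOffs at ho
      simp only [mem_insert, mem_singleton] at ho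
      unfold ee
      rcases ho with rfl | rfl | rfl | rfl | rfl
      · simp only at hof; omega
      · simp only at hof; omega
      · simp only at hof; omega
      · exact absurd (Or.inl rfl) hc
      · exact absurd (Or.inr rfl) hc
    rw [he, one_mul]

/-- `B(n, 2n-4)` is a triangle of stones with two cells missing at each corner. -/
theorem benzel_eq {n : ℤ} (hn : 3 ≤ n) : benzel n (2 * n - 4) = RegS (n - 2) (Tri (n - 2)) := by
  ext ⟨i, j, k⟩
  rw [mem_benzel]
  constructor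
  · rintro ⟨h0, ⟨h1, h2⟩, ⟨h3, h4⟩, h5, h6⟩
    unfold RegS
    obtain ⟨q, hq⟩ : ∃ q, k + (n - 2) - j = 3 * q ∨ k + (n - 2) - j = 3 * q - 1 ∨
        k + (n - 2) - j = 3 * q + 1 := ⟨(k + (n - 2) - j + 1) / 3, by omega⟩
    rcases hq with hq | hq | hq
    · have he : ((i, j, k) : Cell) = cA (n - 2) (j + q, q) := by
        simp only [cA, Prod.mk.injEq]
        omega
      rw [he, mem_Reg_A, mem_sdiff, mem_Tri]
      simp only [mem_insert, mem_singleton, Prod.mk.injEq]
      omega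
    · have he : ((i, j, k) : Cell) = cB (n - 2) (j - 1 + q, q) := by
        simp only [cB, Prod.mk.injEq]
        omega
      rw [he, mem_Reg_B, mem_sdiff, mem_Tri]
      simp only [mem_insert, mem_singleton, Prod.mk.injEq]
      omega
    · have he : ((i, j, k) : Cell) = cC (n - 2) (j + q, q) := by
        simp only [cC, Prod.mk.injEq]
        omega
      rw [he, mem_Reg_C, mem_sdiff, mem_Tri]
      simp only [mem_insert, mem_singleton, Prod.mk.injEq]
      omega
  · intro h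
    unfold RegS Reg at h
    simp only [mem_union, mem_image, mem_sdiff, mem_Tri, mem_insert, mem_singleton] at h
    rcases h with (⟨⟨p, q⟩, hs, he⟩ | ⟨⟨p, q⟩, hs, he⟩) | ⟨⟨p, q⟩, hs, he⟩
    · simp only [cA, Prod.mk.injEq] at he hs
      omega
    · simp only [cB, Prod.mk.injEq] at he hs
      omega
    · simp only [cC, Prod.mk.injEq] at he hs
      omega

end Pool.Agent.H33.Benzel
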