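import Pool.Agent.H33.Benzel.BPer
import Pool.Agent.H33.Benzel.Top

/-! Triple sums of path numbers and the final periodicity statement. -/

open Finset

namespace Pool.Agent.H33.Benzel

/-- `∑_{u+v+t=m} b1 u v * b2 v t * b3 t u` -/
def T3 (b1 b2 b3 : ℕ → ℕ → ℤ) (m : ℕ) : ℤ :=
  ∑ s ∈ range (m + 1), ∑ u ∈ range (s + 1), b1 u (s - u) * (b2 (s - u) (m - s) * b3 (m - s) u)

/-- a term supported on `v = 0` -/
def dl (D : ℕ → ℤ) (u v : ℕ) : ℤ := if v = 0 then D u else 0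

lemma T3_congr {k : ℕ} {b1 b2 b3 c1 c2 c3 : ℕ → ℕ → ℤ}
    (h1 : ∀ u v, (2 ^ k : ℤ) ∣ b1 u v - c1 u v) (h2 : ∀ u v, (2 ^ k : ℤ) ∣ b2 u v - c2 u v)
    (h3 : ∀ u v, (2 ^ k : ℤ) ∣ b3 u v - c3 u v) (m : ℕ) :
    (2 ^ k : ℤ) ∣ T3 b1 b2 b3 m - T3 c1 c2 c3 m := by
  unfold T3
  rw [← sum_sub_distrib]
  apply dvd_sum
  intro s _
  rw [← sum_sub_distrib]
  apply dvd_sum
  intro u _
  have key : ∀ x1 x2 x3 y1 y2 y3 : ℤ, (2 ^ k : ℤ) ∣ x1 - y1 → (2 ^ k : ℤ) ∣ x2 - y2 →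
      (2 ^ k : ℤ) ∣ x3 - y3 → (2 ^ k : ℤ) ∣ x1 * (x2 * x3) - y1 * (y2 * y3) := by
    intro x1 x2 x3 y1 y2 y3 g1 g2 g3
    have e : x1 * (x2 * x3) - y1 * (y2 * y3) =
        (x1 - y1) * (x2 * x3) + y1 * ((x2 - y2) * x3) + y1 * (y2 * (x3 - y3)) := by ring
    rw [e]
    exact dvd_add (dvd_add (dvd_mul_of_dvd_left g1 _)
      (dvd_mul_of_dvd_right (dvd_mul_of_dvd_left g2 _) _))
      (dvd_mul_of_dvd_right (dvd_mul_of_dvd_right g3 _) _)
  exact key _ _ _ _ _ _ (h1 _ _) (h2 _ _) (h3 _ _)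

lemma T3_add1 (a a' b c : ℕ → ℕ → ℤ) (m : ℕ) :
    T3 (fun u v => a u v + a' u v) b c m = T3 a b c m + T3 a' b c m := by
  unfold T3
  simp only [add_mul, sum_add_distrib]

lemma T3_add2 (a b b' c : ℕ → ℕ → ℤ) (m : ℕ) :
    T3 a (fun u v => b u v + b' u v) c m = T3 a b c m + T3 a b' c m := by
  unfold T3
  simp only [add_mul, mul_add, sum_add_distrib]

lemma T3_add3 (a b c c' : ℕ → ℕ → ℤ) (m : ℕ) :
    T3 a b (fun u v => c u v + c' u v) m = T3 a b c m + T3 a b c' m := by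
  unfold T3
  simp only [mul_add, sum_add_distrib]

lemma T3_dl1 (D : ℕ → ℤ) (b c : ℕ → ℕ → ℤ) (m : ℕ) :
    T3 (dl D) b c m = ∑ s ∈ range (m + 1), D s * (b 0 (m - s) * c (m - s) s) := by
  unfold T3 dl
  apply sum_congr rfl
  intro s _
  rw [sum_eq_single s]
  · simp
  · intro u hu hne
    rw [mem_range] at hu
    rw [if_neg (by omega), zero_mul]
  · intro h
    exact absurd (mem_range.mpr (Nat.lt_succ_self s)) h

lemma T3_dl2 (D : ℕ → ℤ) (a c : ℕ → ℕ → ℤ) (m : ℕ) :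
    T3 a (dl D) c m = ∑ u ∈ range (m + 1), a u (m - u) * (D (m - u) * c 0 u) := by
  unfold T3 dl
  rw [sum_eq_single m]
  · simp
  · intro s hs hne
    rw [mem_range] at hs
    apply sum_eq_zero
    intro u _
    rw [if_neg (by omega), zero_mul, mul_zero]
  · intro h
    exact absurd (mem_range.mpr (Nat.lt_succ_self m)) h

lemma T3_dl3 (D : ℕ → ℤ) (a b : ℕ → ℕ → ℤ) (m : ℕ) :
    T3 a b (dl D) m = ∑ s ∈ range (m + 1), a 0 s * (b s (m - s) * D (m - s)) := by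
  unfold T3 dl
  apply sum_congr rfl
  intro s _
  rw [sum_eq_single 0]
  · simp
  · intro u _ hne
    rw [if_neg hne, mul_zero, mul_zero]
  · intro h
    exact absurd (mem_range.mpr (Nat.succ_pos s)) h

lemma T3_dl12 (D D' : ℕ → ℤ) (c : ℕ → ℕ → ℤ) (m : ℕ) :
    T3 (dl D) (dl D') c m = D m * (D' 0 * c 0 m) := by
  rw [T3_dl1, sum_eq_single m]
  · simp [dl]
  · intro s hs hne
    rw [mem_range] at hs
    unfold dl
    rw [if_neg (by omega), zero_mul, mul_zero]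
  · intro h
    exact absurd (mem_range.mpr (Nat.lt_succ_self m)) h

lemma T3_dl13 (D D' : ℕ → ℤ) (b : ℕ → ℕ → ℤ) (m : ℕ) :
    T3 (dl D) b (dl D') m = D 0 * (b 0 m * D' m) := by
  rw [T3_dl1, sum_eq_single 0]
  · simp [dl]
  · intro s hs hne
    unfold dl
    rw [if_neg hne, mul_zero, mul_zero]
  · intro h
    exact absurd (mem_range.mpr (Nat.succ_pos m)) h

lemma T3_dl23 (D D' : ℕ → ℤ) (a : ℕ → ℕ → ℤ) (m : ℕ) :
    T3 a (dl D) (dl D') m = a 0 m * (D m * D' 0) := by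
  rw [T3_dl2, sum_eq_single 0]
  · simp [dl]
  · intro s hs hne
    unfold dl
    rw [if_neg hne, mul_zero, mul_zero]
  · intro h
    exact absurd (mem_range.mpr (Nat.succ_pos m)) h

lemma T3_dl123 (D D' D'' : ℕ → ℤ) (m : ℕ) : T3 (dl D) (dl D') (dl D'') (m + 1) = 0 := by
  rw [T3_dl12]
  simp [dl]

lemma per_T3 {k : ℕ} {p1 p2 p3 : ℕ → ℕ → ℤ}
    (u1 : Per k (fun u v => p1 u v)) (v1 : Per k (fun v u => p1 u v))
    (u2 : Per k (fun u v => p2 u v)) (v2 : Per k (fun v u => p2 u v))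
    (u3 : Per k (fun u v => p3 u v)) (v3 : Per k (fun v u => p3 u v)) :
    Per k (fun m (_ : Unit) => T3 p1 p2 p3 m) := by
  unfold T3
  -- the inner sum as a function of `(s, t)`
  have hin1 : Per k (fun s (p : ℕ × Unit) =>
      ∑ u ∈ range (s + 1), p1 u (s - u) * (p2 (s - u) p.1 * p3 p.1 u)) := by
    apply Per.simplex (F := fun u v (p : ℕ × Unit) => p1 u v * (p2 v p.1 * p3 p.1 u))
    · exact (u1.comp (fun _ => 0) (fun q : ℕ × (ℕ × Unit) => q.1)).mul
        ((Per.const (fun q : ℕ × (ℕ × Unit) => p2 q.1 q.2.1)).mul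
          (v3.comp (fun _ => 0) (fun q : ℕ × (ℕ × Unit) => q.2.1)))
    · exact (v1.comp (fun _ => 0) (fun q : ℕ × (ℕ × Unit) => q.1)).mul
        ((u2.comp (fun _ => 0) (fun q : ℕ × (ℕ × Unit) => q.2.1)).mul
          (Per.const (fun q : ℕ × (ℕ × Unit) => p3 q.2.1 q.1)))
  have hin2 : Per k (fun t (p : ℕ × Unit) =>
      ∑ u ∈ range (p.1 + 1), p1 u (p.1 - u) * (p2 (p.1 - u) t * p3 t u)) := by
    have h : Per k (fun t (q : ℕ × ℕ) => p1 q.1 q.2 * (p2 q.2 t * p3 t q.1)) :=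
      (Per.const (fun q : ℕ × ℕ => p1 q.1 q.2)).mul
        ((v2.comp (fun _ => 0) (fun q : ℕ × ℕ => q.2)).mul
          (u3.comp (fun _ => 0) (fun q : ℕ × ℕ => q.1)))
    obtain ⟨j, hj⟩ := h
    refine ⟨j, fun t p => ?_⟩
    simp only
    rw [← sum_sub_distrib]
    apply dvd_sum
    intro u _
    exact hj t (u, p.1 - u)
  exact Per.simplex (F := fun s t (_ : Unit) =>
    ∑ u ∈ range (s + 1), p1 u (s - u) * (p2 (s - u) t * p3 t u)) hin1 hin2

/-- The full triple sum with the correction terms is periodic from `m = 1` on. -/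
lemma per_T3_full {k : ℕ} {p1 p2 p3 : ℕ → ℕ → ℤ} {D1 D2 D3 : ℕ → ℤ}
    (u1 : Per k (fun u v => p1 u v)) (v1 : Per k (fun v u => p1 u v))
    (u2 : Per k (fun u v => p2 u v)) (v2 : Per k (fun v u => p2 u v))
    (u3 : Per k (fun u v => p3 u v)) (v3 : Per k (fun v u => p3 u v))
    (d1 : Per k (fun n (_ : Unit) => D1 n)) (d2 : Per k (fun n (_ : Unit) => D2 n))
    (d3 : Per k (fun n (_ : Unit) => D3 n)) :
    Per k (fun m (_ : Unit) => T3 (fun u v => p1 u v + dl D1 u v)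
      (fun u v => p2 u v + dl D2 u v) (fun u v => p3 u v + dl D3 u v) (m + 1)) := by
  have h0 := per_T3 u1 v1 u2 v2 u3 v3
  -- one correction term
  have h1 : Per k (fun m (_ : Unit) => T3 (dl D1) p2 p3 m) := by
    simp only [T3_dl1]
    apply Per.simplex (F := fun s t (_ : Unit) => D1 s * (p2 0 t * p3 t s))
    · exact (d1.comp (fun _ => 0) (fun _ : ℕ × Unit => ())).mul
        ((Per.const (fun q : ℕ × Unit => p2 0 q.1)).mul
          (v3.comp (fun _ => 0) (fun q : ℕ × Unit => q.1)))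
    · exact (Per.const (fun q : ℕ × Unit => D1 q.1)).mul
        ((v2.comp (fun _ => 0) (fun _ : ℕ × Unit => 0)).mul
          (u3.comp (fun _ => 0) (fun q : ℕ × Unit => q.1)))
  have h2 : Per k (fun m (_ : Unit) => T3 p1 (dl D2) p3 m) := by
    simp only [T3_dl2]
    apply Per.simplex (F := fun u v (_ : Unit) => p1 u v * (D2 v * p3 0 u))
    · exact (u1.comp (fun _ => 0) (fun q : ℕ × Unit => q.1)).mul
        ((Per.const (fun q : ℕ × Unit => D2 q.1)).mul
          (v3.comp (fun _ => 0) (fun _ : ℕ × Unit => 0)))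
    · exact (v1.comp (fun _ => 0) (fun q : ℕ × Unit => q.1)).mul
        ((d2.comp (fun _ => 0) (fun _ : ℕ × Unit => ())).mul
          (Per.const (fun q : ℕ × Unit => p3 0 q.1)))
  have h3 : Per k (fun m (_ : Unit) => T3 p1 p2 (dl D3) m) := by
    simp only [T3_dl3]
    apply Per.simplex (F := fun s t (_ : Unit) => p1 0 s * (p2 s t * D3 t))
    · exact (v1.comp (fun _ => 0) (fun _ : ℕ × Unit => 0)).mul
        ((u2.comp (fun _ => 0) (fun q : ℕ × Unit => q.1)).mul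
          (Per.const (fun q : ℕ × Unit => D3 q.1)))
    · exact (Per.const (fun q : ℕ × Unit => p1 0 q.1)).mul
        ((v2.comp (fun _ => 0) (fun q : ℕ × Unit => q.1)).mul
          (d3.comp (fun _ => 0) (fun _ : ℕ × Unit => ())))
  -- two correction terms
  have h4 : Per k (fun m (_ : Unit) => T3 (dl D1) (dl D2) p3 m) := by
    simp only [T3_dl12]
    exact d1.mul ((Per.const (fun _ : Unit => D2 0)).mul
      (v3.comp (fun _ => 0) (fun _ : Unit => 0)))
  have h5 : Per k (fun m (_ : Unit) => T3 (dl D1) p2 (dl D3) m) := by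
    simp only [T3_dl13]
    exact (Per.const (fun _ : Unit => D1 0)).mul
      ((v2.comp (fun _ => 0) (fun _ : Unit => 0)).mul d3)
  have h6 : Per k (fun m (_ : Unit) => T3 p1 (dl D2) (dl D3) m) := by
    simp only [T3_dl23]
    exact (v1.comp (fun _ => 0) (fun _ : Unit => 0)).mul
      (d2.mul (Per.const (fun _ : Unit => D3 0)))
  have hall := ((((((h0.add h1).add h2).add h3).add h4).add h5).add h6).comp
    (fun _ : Unit => 1) (fun _ : Unit => ())
  have e : (fun m (_ : Unit) => T3 (fun u v => p1 u v + dl D1 u v)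
      (fun u v => p2 u v + dl D2 u v) (fun u v => p3 u v + dl D3 u v) (m + 1)) =
      (fun m (_ : Unit) => T3 p1 p2 p3 (m + 1) + T3 (dl D1) p2 p3 (m + 1) +
        T3 p1 (dl D2) p3 (m + 1) + T3 p1 p2 (dl D3) (m + 1) + T3 (dl D1) (dl D2) p3 (m + 1) +
        T3 (dl D1) p2 (dl D3) (m + 1) + T3 p1 (dl D2) (dl D3) (m + 1)) := by
    funext m _
    rw [T3_add1, T3_add2, T3_add2, T3_add3, T3_add3, T3_add3, T3_add3, T3_dl123]
    ring
  rw [e]
  exact hall

/-- The triple sums of the path numbers are periodic from `m = 1` on. -/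
theorem per_G {x : ℕ} (hx : (2 : ℤ) ∣ 1 + x) (k a1 a2 a3 : ℕ) :
    Per k (fun m (_ : Unit) => T3 (fun u v => (Bn x v (u + a1) : ℤ))
      (fun u v => (Bn x v (u + a2) : ℤ)) (fun u v => (Bn x v (u + a3) : ℤ)) (m + 1)) := by
  have hD : ∀ a : ℕ, Per k (fun n (_ : Unit) => (-(x : ℤ)) ^ (n + a + 1)) := by
    intro a
    have hz : (2 : ℤ) ∣ -(x : ℤ) - 1 := by
      have : -(x : ℤ) - 1 = -(1 + (x : ℤ)) := by ring
      rw [this]
      exact dvd_neg.mpr hx
    have := (per_pow hz Unit k).comp (fun _ : Unit => a + 1) (fun _ => ())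
    simpa only [add_assoc] using this
  have hpu : ∀ a : ℕ, Per k (fun u (v : ℕ) => PP (1 + x) k (u + a) v) := fun a =>
    (per_PP_u (1 + x) k).comp (fun _ => a) (fun v => v)
  have hpv : ∀ a : ℕ, Per k (fun v (u : ℕ) => PP (1 + x) k (u + a) v) := fun a =>
    (per_PP_v (1 + x) k).comp (fun _ => 0) (fun u => u + a)
  have h := per_T3_full (hpu a1) (hpv a1) (hpu a2) (hpv a2) (hpu a3) (hpv a3) (hD a1) (hD a2)
    (hD a3)
  have hc : ∀ a u v : ℕ, (2 ^ k : ℤ) ∣ (Bn x v (u + a) : ℤ) -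
      (PP (1 + x) k (u + a) v + dl (fun n => (-(x : ℤ)) ^ (n + a + 1)) u v) := by
    intro a u v
    have := Bn_congr hx k v (u + a)
    simpa only [DD, dl] using this
  have hcong := T3_congr (hc a1) (hc a2) (hc a3)
  obtain ⟨j, hj⟩ := h
  refine ⟨j, fun n y => ?_⟩
  have g1 := hj n y
  have g2 := hcong (n + 2 ^ j + 1)
  have g3 := hcong (n + 1)
  have := dvd_sub (dvd_add g2 g1) g3
  simp only at this ⊢
  have e : ∀ a b c d : ℤ, (a - b) + (b - d) - (c - d) = a - c := by intros; ring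
  rw [e] at this
  exact this

end Pool.Agent.H33.Benzel
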