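import Pool.Agent.H33.Benzel.StepA
import Pool.Agent.H33.Benzel.StepB

/-! Evaluation of the weighted counts in terms of the numbers `Bn`. -/

open Finset

namespace Pool.Agent.H33.Benzel

/-- `Bn x q m`: weighted number of lattice paths from height `0` to height `m`, never below `0`,
with `q` steps which are down steps or (weight `x`) level steps. -/
def Bn (x : ℕ) : ℕ → ℕ → ℕ
  | 0, _ => 1
  | q + 1, 0 => Bn x q 1 + x * Bn x q 0
  | q + 1, m + 1 => Bn x (q + 1) m + Bn x q (m + 2) + x * Bn x q (m + 1)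

/-- the same numbers with integer arguments (height first) -/
def Bz (x : ℕ) (p q : ℤ) : ℕ := if 0 ≤ p ∧ 0 ≤ q then Bn x q.toNat p.toNat else 0

lemma Bz_neg {x : ℕ} {p q : ℤ} (h : p < 0 ∨ q < 0) : Bz x p q = 0 := by
  unfold Bz
  rw [if_neg]
  omega

lemma Bz_nat {x : ℕ} (m q : ℕ) : Bz x m q = Bn x q m := by
  unfold Bz
  rw [if_pos (by omega)]
  simp

lemma Bz_rec (x : ℕ) {p q : ℤ} (hp : 0 ≤ p) (hq : 0 ≤ q) (h : ¬ (p = 0 ∧ q = 0)) :
    Bz x p q = Bz x (p - 1) q + Bz x (p + 1) (q - 1) + x * Bz x p (q - 1) := by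
  obtain ⟨m, rfl⟩ := Int.eq_ofNat_of_zero_le hp
  obtain ⟨n, rfl⟩ := Int.eq_ofNat_of_zero_le hq
  rcases n with _ | n
  · rcases m with _ | m
    · exact absurd ⟨rfl, rfl⟩ h
    · rw [Bz_neg (q := ((0 : ℕ) : ℤ) - 1) (by right; omega),
        Bz_neg (q := ((0 : ℕ) : ℤ) - 1) (by right; omega)]
      have : ((m + 1 : ℕ) : ℤ) - 1 = (m : ℤ) := by push_cast; ring
      rw [this, Bz_nat, Bz_nat]
      simp [Bn]
  · have h1 : ((n + 1 : ℕ) : ℤ) - 1 = (n : ℤ) := by push_cast; ring
    rw [h1]
    rcases m with _ | m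
    · rw [Bz_neg (p := ((0 : ℕ) : ℤ) - 1) (by left; omega)]
      have h2 : ((0 : ℕ) : ℤ) + 1 = ((1 : ℕ) : ℤ) := by norm_num
      rw [h2, Bz_nat, Bz_nat, Bz_nat, Bn]
      ring
    · have h2 : ((m + 1 : ℕ) : ℤ) - 1 = (m : ℤ) := by push_cast; ring
      have h3 : ((m + 1 : ℕ) : ℤ) + 1 = ((m + 2 : ℕ) : ℤ) := by push_cast; ring
      rw [h2, h3, Bz_nat, Bz_nat, Bz_nat, Bz_nat, Bn]

section Full

variable {N : ℤ}

lemma all_intact {M0 : Finset St} {τ : Finset (Finset Cell)} (hτ : IsTiling (Reg N M0 M0 M0) τ)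
    {t : Tr} (ht : tri N t ∈ τ) : t.2.1 = t.1 ∧ t.2.2 = t.1 := by
  classical
  set T := trs N M0 M0 M0 τ with hT
  have hmem : ∀ t, t ∈ T ↔ tri N t ∈ τ := fun t => mem_trs hτ
  have hmono : ∀ t ∈ T, t.2.1.1 ≤ t.1.1 ∧ t.2.2.2 ≤ t.2.1.2 ∧
      t.2.2.1 + t.2.2.2 ≤ t.1.1 + t.1.2 := fun t ht => adm_mono (adm_of_mem hτ ((hmem t).mp ht))
  have sA : ∀ f : St → ℤ, ∑ t ∈ T, f t.1 = ∑ s ∈ M0, f s := by
    intro f
    apply sum_bij (fun t _ => t.1)
    · intro t ht
      exact (mem_of_tri_mem hτ ((hmem t).mp ht)).1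
    · intro t ht t' ht' h
      exact eq_of_A hτ ((hmem t).mp ht) ((hmem t').mp ht') h
    · intro s hs
      obtain ⟨t, ht, hts⟩ := exists_of_mem_A hτ hs
      exact ⟨t, (hmem t).mpr ht, hts⟩
    · intro t _
      rfl
  have sB : ∀ f : St → ℤ, ∑ t ∈ T, f t.2.1 = ∑ s ∈ M0, f s := by
    intro f
    apply sum_bij (fun t _ => t.2.1)
    · intro t ht
      exact (mem_of_tri_mem hτ ((hmem t).mp ht)).2.1
    · intro t ht t' ht' h
      exact eq_of_B hτ ((hmem t).mp ht) ((hmem t').mp ht') h
    · intro s hs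
      obtain ⟨t, ht, hts⟩ := exists_of_mem_B hτ hs
      exact ⟨t, (hmem t).mpr ht, hts⟩
    · intro t _
      rfl
  have sC : ∀ f : St → ℤ, ∑ t ∈ T, f t.2.2 = ∑ s ∈ M0, f s := by
    intro f
    apply sum_bij (fun t _ => t.2.2)
    · intro t ht
      exact (mem_of_tri_mem hτ ((hmem t).mp ht)).2.2
    · intro t ht t' ht' h
      exact eq_of_C hτ ((hmem t).mp ht) ((hmem t').mp ht') h
    · intro s hs
      obtain ⟨t, ht, hts⟩ := exists_of_mem_C hτ hs
      exact ⟨t, (hmem t).mpr ht, hts⟩
    · intro t _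
      rfl
  have e1 := (sum_eq_sum_iff_of_le (fun t ht => (hmono t ht).1)).mp
    ((sB (fun s => s.1)).trans (sA (fun s => s.1)).symm)
  have e2 := (sum_eq_sum_iff_of_le (fun t ht => (hmono t ht).2.1)).mp
    ((sC (fun s => s.2)).trans (sB (fun s => s.2)).symm)
  have e3 := (sum_eq_sum_iff_of_le (fun t ht => (hmono t ht).2.2)).mp
    ((sC (fun s => s.1 + s.2)).trans (sA (fun s => s.1 + s.2)).symm)
  have htT := (hmem t).mpr ht
  have e1 := e1 t htT
  have e2 := e2 t htT
  have e3 := e3 t htT
  have hsh := adm_shape (adm_of_mem hτ ht)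
  unfold Sink at hsh
  simp only [Prod.ext_iff, ne_eq] at hsh ⊢
  omega

/-- A region which is a union of background stones has exactly one tiling. -/
theorem weightedCount_full (w : ℕ) : ∀ (n : ℕ) (M0 : Finset St), M0.card = n →
    weightedCount (Reg N M0 M0 M0) w = w ^ n := by
  classical
  intro n
  induction n with
  | zero =>
    intro M0 hM
    rw [card_eq_zero] at hM
    subst hM
    have : Reg N ∅ ∅ ∅ = ∅ := by simp [Reg]
    rw [this, weightedCount_empty, pow_zero]
  | succ n ih =>
    intro M0 hM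
    obtain ⟨s, hs⟩ : M0.Nonempty := by rw [← card_pos]; omega
    rw [step_general w {(s, s, s)}]
    · rw [sum_singleton, ih (M0.erase s) (by rw [card_erase_of_mem hs]; omega)]
      unfold wtT
      rw [if_pos, pow_succ, mul_comm]
      unfold AdmS offs
      dsimp only
      omega
    · intro t ht
      rw [mem_singleton] at ht
      subst ht
      refine ⟨Or.inl ?_, hs, hs, hs⟩
      unfold AdmS offs
      dsimp only
      omega
    · intro τ hτ
      obtain ⟨t, ht, hts⟩ := exists_of_mem_A hτ hs
      have := all_intact hτ ht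
      refine ⟨t, ⟨?_, ht⟩, ?_⟩
      · rw [mem_singleton]
        rw [hts] at this
        exact Prod.ext hts (Prod.ext this.1 this.2)
      · intro t' ht' ht''
        rw [mem_singleton] at ht'
        apply eq_of_A hτ ht'' ht
        rw [hts, ht']

end Full

/-- the exponent in the main formula -/
def ee (N : ℤ) (α β γ : St) : ℕ :=
  3 + (γ.1 + 2 * γ.2).toNat + (α.2 + 2 * (N - α.1 - α.2)).toNat +
    ((N - β.1 - β.2) + 2 * β.1).toNat

lemma comb {w e m X1 X2 X3 b1 b2 b3 c : ℕ} (h1 : w ^ e * X1 = w ^ m * (b1 * c))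
    (h2 : w ^ e * X2 = w ^ m * (b2 * c)) (h3 : w ^ e * (w * X3) = w ^ m * (w ^ 2 * b3 * c)) :
    w ^ e * (X1 + X2 + w * X3) = w ^ m * ((b1 + b2 + w ^ 2 * b3) * c) := by
  rw [mul_add, mul_add, h1, h2, h3]
  ring

lemma pow_aux1 {w e1 e m1 m X b c : ℕ} (h : w ^ e1 * X = w ^ m1 * (b * c)) (he : e = e1 + 1)
    (hm : m = m1 + 1) : w ^ e * X = w ^ m * (b * c) := by
  subst he hm
  rw [pow_succ, pow_succ]
  calc w ^ e1 * w * X = w * (w ^ e1 * X) := by ring
    _ = w * (w ^ m1 * (b * c)) := by rw [h]
    _ = w ^ m1 * w * (b * c) := by ring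

lemma pow_aux2 {w e1 e m1 m X b c : ℕ} (h : w ^ e1 * X = w ^ m1 * (b * c)) (he : e = e1 + 2)
    (hm : m = m1 + 1) : w ^ e * (w * X) = w ^ m * (w ^ 2 * b * c) := by
  subst he hm
  rw [pow_succ w m1, pow_add w e1 2]
  calc w ^ e1 * w ^ 2 * (w * X) = w ^ 3 * (w ^ e1 * X) := by ring
    _ = w ^ 3 * (w ^ m1 * (b * c)) := by rw [h]
    _ = w ^ m1 * w * (w ^ 2 * b * c) := by ring

theorem main_rec {N : ℤ} (w : ℕ) : ∀ (n : ℕ) (M : Finset St) (α β γ : St), M.card = n →
    Inv N M α β γ →
    w ^ ee N α β γ * weightedCount (RegT N M α β γ) w =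
      w ^ n * (Bz (w ^ 2) γ.1 γ.2 * (Bz (w ^ 2) α.2 (N - α.1 - α.2) *
        Bz (w ^ 2) (N - β.1 - β.2) β.1)) := by
  classical
  intro n
  induction n with
  | zero =>
    intro M α β γ hM h
    have := h.mem_a
    rw [card_eq_zero] at hM
    rw [hM] at this
    exact absurd this (notMem_empty _)
  | succ n ih =>
    intro M α β γ hM h
    have hf := h.facts
    have hN := h.pos
    have hTα := mem_Tri.mp (h.sub h.mem_α)
    have hTβ := mem_Tri.mp (h.sub h.mem_β)
    have hTγ := mem_Tri.mp (h.sub h.mem_γ)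
    by_cases hγ : γ ≠ (0, 0)
    · -- a c-step
      have hcard : (M.erase γ).card = n := by rw [card_erase_of_mem h.mem_γ]; omega
      have hγ' : ¬ (γ.1 = 0 ∧ γ.2 = 0) := fun hh => hγ (Prod.ext hh.1 hh.2)
      rw [stepC h hγ, Bz_rec (w ^ 2) hTγ.1 hTγ.2.1 hγ']
      apply comb
      · split_ifs with hg
        · have := ih _ α β (γ.1 - 1, γ.2) hcard (h.nextC hγ hg (Or.inl rfl))
          rw [mem_Tri] at hg
          exact pow_aux1 this (by unfold ee; simp only at hg ⊢; omega) rfl
        · rw [mem_Tri] at hg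
          rw [Bz_neg (by simp only at hg; omega)]
          simp
      · split_ifs with hg
        · have := ih _ α β (γ.1 + 1, γ.2 - 1) hcard (h.nextC hγ hg (Or.inr (Or.inl rfl)))
          rw [mem_Tri] at hg
          exact pow_aux1 this (by unfold ee; simp only at hg ⊢; omega) rfl
        · rw [mem_Tri] at hg
          rw [Bz_neg (by simp only at hg; omega)]
          simp
      · split_ifs with hg
        · have := ih _ α β (γ.1, γ.2 - 1) hcard (h.nextC hγ hg (Or.inr (Or.inr rfl)))
          rw [mem_Tri] at hg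
          exact pow_aux2 this (by unfold ee; simp only at hg ⊢; omega) rfl
        · rw [mem_Tri] at hg
          rw [Bz_neg (by simp only at hg; omega)]
          simp
    push Not at hγ
    by_cases hα : α ≠ (N, 0)
    · -- an a-step
      have hcard : (M.erase α).card = n := by rw [card_erase_of_mem h.mem_α]; omega
      have hα' : ¬ (α.2 = 0 ∧ N - α.1 - α.2 = 0) := fun hh =>
        hα (Prod.ext (by simp only; omega) (by simp only; omega))
      rw [stepA h hα, Bz_rec (w ^ 2) hTα.2.1 (by omega) hα']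
      have hre : ∀ a b b1 c d : ℕ, a * ((b1 + c + w ^ 2 * d) * b) =
        (b1 + c + w ^ 2 * d) * (a * b) := by intros; ring
      rw [hre]
      apply comb
      · split_ifs with hg
        · have := ih _ (α.1 + 1, α.2 - 1) β γ hcard (h.nextA hα hg (Or.inl rfl))
          rw [mem_Tri] at hg
          have hr : N - (α.1 + 1) - (α.2 - 1) = N - α.1 - α.2 := by ring
          simp only [hr] at this
          rw [mul_left_comm (Bz (w ^ 2) γ.1 γ.2)] at this
          exact pow_aux1 this (by unfold ee; simp only at hg ⊢; omega) rfl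
        · rw [mem_Tri] at hg
          rw [Bz_neg (by simp only at hg; omega)]
          simp
      · split_ifs with hg
        · have := ih _ (α.1, α.2 + 1) β γ hcard (h.nextA hα hg (Or.inr (Or.inl rfl)))
          rw [mem_Tri] at hg
          have hr : N - α.1 - (α.2 + 1) = N - α.1 - α.2 - 1 := by ring
          simp only [hr] at this
          rw [mul_left_comm (Bz (w ^ 2) γ.1 γ.2)] at this
          exact pow_aux1 this (by unfold ee; simp only at hg ⊢; omega) rfl
        · rw [mem_Tri] at hg
          rw [Bz_neg (by simp only at hg; omega)]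
          simp
      · split_ifs with hg
        · have := ih _ (α.1 + 1, α.2) β γ hcard (h.nextA hα hg (Or.inr (Or.inr rfl)))
          rw [mem_Tri] at hg
          have hr : N - (α.1 + 1) - α.2 = N - α.1 - α.2 - 1 := by ring
          simp only [hr] at this
          rw [mul_left_comm (Bz (w ^ 2) γ.1 γ.2)] at this
          exact pow_aux2 this (by unfold ee; simp only at hg ⊢; omega) rfl
        · rw [mem_Tri] at hg
          rw [Bz_neg (by simp only at hg; omega)]
          simp
    push Not at hα
    by_cases hβ : β ≠ (0, N)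
    · -- a b-step
      have hcard : (M.erase β).card = n := by rw [card_erase_of_mem h.mem_β]; omega
      have hβ' : ¬ (N - β.1 - β.2 = 0 ∧ β.1 = 0) := fun hh =>
        hβ (Prod.ext (by simp only; omega) (by simp only; omega))
      rw [stepB h hβ, Bz_rec (w ^ 2) (by omega) hTβ.1 hβ']
      have hre : ∀ a b b1 c d : ℕ, a * (b * (b1 + c + w ^ 2 * d)) =
        (b1 + c + w ^ 2 * d) * (a * b) := by intros; ring
      rw [hre]
      have hre2 : ∀ a b c : ℕ, a * (b * c) = c * (a * b) := by intros; ring
      apply comb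
      · split_ifs with hg
        · have := ih _ α (β.1, β.2 + 1) γ hcard (h.nextB hβ hg (Or.inl rfl))
          rw [mem_Tri] at hg
          have hr : N - β.1 - (β.2 + 1) = N - β.1 - β.2 - 1 := by ring
          simp only [hr] at this
          rw [hre2 (Bz (w ^ 2) γ.1 γ.2)] at this
          exact pow_aux1 this (by unfold ee; simp only at hg ⊢; omega) rfl
        · rw [mem_Tri] at hg
          rw [Bz_neg (by simp only at hg; omega)]
          simp
      · split_ifs with hg
        · have := ih _ α (β.1 - 1, β.2) γ hcard (h.nextB hβ hg (Or.inr (Or.inl rfl)))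
          rw [mem_Tri] at hg
          have hr : N - (β.1 - 1) - β.2 = N - β.1 - β.2 + 1 := by ring
          simp only [hr] at this
          rw [hre2 (Bz (w ^ 2) γ.1 γ.2)] at this
          exact pow_aux1 this (by unfold ee; simp only at hg ⊢; omega) rfl
        · rw [mem_Tri] at hg
          rw [Bz_neg (by simp only at hg; omega)]
          simp
      · split_ifs with hg
        · have := ih _ α (β.1 - 1, β.2 + 1) γ hcard (h.nextB hβ hg (Or.inr (Or.inr rfl)))
          rw [mem_Tri] at hg
          have hr : N - (β.1 - 1) - (β.2 + 1) = N - β.1 - β.2 := by ring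
          simp only [hr] at this
          rw [hre2 (Bz (w ^ 2) γ.1 γ.2)] at this
          exact pow_aux2 this (by unfold ee; simp only at hg ⊢; omega) rfl
        · rw [mem_Tri] at hg
          rw [Bz_neg (by simp only at hg; omega)]
          simp
    push Not at hβ
    -- all three lines have length zero
    subst hα hβ hγ
    have hR : RegT N M (N, 0) (0, N) (0, 0) = Reg N (M \ {(N, 0), (0, N), (0, 0)})
        (M \ {(N, 0), (0, N), (0, 0)}) (M \ {(N, 0), (0, N), (0, 0)}) := by
      unfold RegT
      congr 1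
      · ext s; simp only [mem_sdiff, mem_insert, mem_singleton]; tauto
      · ext s; simp only [mem_sdiff, mem_insert, mem_singleton]; tauto
    have hcard : (M \ {(N, 0), (0, N), (0, 0)}).card = n + 1 - 3 := by
      rw [card_sdiff_of_subset, hM]
      · congr 1
        rw [card_insert_of_notMem, card_insert_of_notMem, card_singleton]
        · simp only [mem_singleton, Prod.mk.injEq]; omega
        · simp only [mem_insert, mem_singleton, Prod.mk.injEq]; omega
      · intro s hs
        simp only [mem_insert, mem_singleton] at hs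
        rcases hs with rfl | rfl | rfl
        · exact h.mem_a
        · exact h.mem_b
        · exact h.mem_c
    have hge : 3 ≤ n + 1 := by
      have h3 : ({(N, 0), (0, N), (0, 0)} : Finset St).card ≤ M.card := by
        apply card_le_card
        intro s hs
        simp only [mem_insert, mem_singleton] at hs
        rcases hs with rfl | rfl | rfl
        · exact h.mem_a
        · exact h.mem_b
        · exact h.mem_c
      rw [card_insert_of_notMem, card_insert_of_notMem, card_singleton, hM] at h3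
      · exact h3
      · simp only [mem_singleton, Prod.mk.injEq]; omega
      · simp only [mem_insert, mem_singleton, Prod.mk.injEq]; omega
    rw [hR, weightedCount_full w (n + 1 - 3) _ hcard]
    have he : ee N (N, 0) (0, N) (0, 0) = 3 := by
      unfold ee
      simp
    rw [he, ← pow_add]
    have hb : Bz (w ^ 2) 0 0 = 1 := by
      have := Bz_nat (x := w ^ 2) 0 0
      simpa [Bn] using this
    simp only [sub_self, sub_zero, hb, mul_one]
    congr 1
    omega

end Pool.Agent.H33.Benzel
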