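import Pool.Agent.H33.Benzel.Periodic
import Pool.Agent.H33.Benzel.MainRec

/-! The path numbers modulo powers of two. -/

open Finset

namespace Pool.Agent.H33.Benzel

/-- `cc v i = C(v-1, i)`, with the value `(-1)^i` for `v = 0`. -/
def cc (v : ℕ) : ℕ → ℤ
  | 0 => 1
  | i + 1 => (v.choose (i + 1) : ℤ) - cc v i

lemma cc_succ (v i : ℕ) : cc (v + 1) i = (v.choose i : ℤ) := by
  induction i with
  | zero => simp [cc]
  | succ i ih =>
    rw [cc, ih, Nat.choose_succ_succ]
    push_cast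
    ring

def NN (u v i : ℕ) : ℤ :=
  cc v i * ((u + v + 1).choose (i + 1) : ℤ) - (v.choose (i + 1) : ℤ) * ((u + v).choose i : ℤ)

lemma NN_rec (u v i : ℕ) : NN (u + 1) (v + 1) (i + 1) =
    NN u (v + 1) (i + 1) + NN (u + 2) v (i + 1) - NN (u + 1) v (i + 1) + NN (u + 1) v i := by
  unfold NN
  have e1 : u + 1 + (v + 1) + 1 = (u + v + 1) + 1 + 1 := by ring
  have e2 : u + 1 + (v + 1) = (u + v + 1) + 1 := by ring
  have e3 : u + (v + 1) + 1 = (u + v + 1) + 1 := by ring
  have e4 : u + (v + 1) = u + v + 1 := by ring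
  have e5 : u + 2 + v + 1 = (u + v + 1) + 1 + 1 := by ring
  have e6 : u + 2 + v = (u + v + 1) + 1 := by ring
  have e7 : u + 1 + v + 1 = (u + v + 1) + 1 := by ring
  have e8 : u + 1 + v = u + v + 1 := by ring
  rw [e1, e2, e3, e4, e5, e6, e7, e8, cc_succ]
  have c1 : cc v (i + 1) = (v.choose (i + 1) : ℤ) - cc v i := rfl
  rw [c1]
  simp only [Nat.choose_succ_succ (u + v + 1 + 1), Nat.choose_succ_succ (u + v + 1),
    Nat.choose_succ_succ v]
  push_cast
  ring

lemma NN_rec_zero (u v : ℕ) : NN (u + 1) (v + 1) 0 =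
    NN u (v + 1) 0 + NN (u + 2) v 0 - NN (u + 1) v 0 := by
  unfold NN
  simp only [cc, Nat.choose_one_right, Nat.choose_zero_right, zero_add]
  push_cast
  ring

lemma NN_rec0 (v i : ℕ) : NN 0 (v + 1) (i + 1) =
    NN 1 v (i + 1) - NN 0 v (i + 1) + NN 0 v i := by
  unfold NN
  have e1 : 0 + (v + 1) + 1 = v + 1 + 1 := by ring
  have e2 : 0 + (v + 1) = v + 1 := by ring
  have e3 : 1 + v + 1 = v + 1 + 1 := by ring
  have e4 : 1 + v = v + 1 := by ring
  have e5 : 0 + v + 1 = v + 1 := by ring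
  have e6 : 0 + v = v := by ring
  rw [e1, e2, e3, e4, e5, e6, cc_succ]
  have c1 : cc v (i + 1) = (v.choose (i + 1) : ℤ) - cc v i := rfl
  rw [c1]
  simp only [Nat.choose_succ_succ (v + 1), Nat.choose_succ_succ v]
  push_cast
  ring

lemma NN_rec0_zero (v : ℕ) : NN 0 (v + 1) 0 = NN 1 v 0 - NN 0 v 0 := by
  unfold NN
  simp only [cc, Nat.choose_one_right, Nat.choose_zero_right, zero_add]
  push_cast
  ring

/-- the truncated sum -/
def PP (y : ℤ) (k u v : ℕ) : ℤ := ∑ i ∈ range k, NN u v i * y ^ (i + 1)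

lemma PP_rec (y : ℤ) (k u v : ℕ) : PP y (k + 1) (u + 1) (v + 1) =
    PP y (k + 1) u (v + 1) + PP y (k + 1) (u + 2) v + (y - 1) * PP y (k + 1) (u + 1) v -
      NN (u + 1) v k * y ^ (k + 2) := by
  induction k with
  | zero =>
    unfold PP
    simp only [zero_add, range_one, sum_singleton, NN_rec_zero]
    ring
  | succ k ih =>
    unfold PP at ih ⊢
    rw [sum_range_succ, ih, sum_range_succ _ (k + 1), sum_range_succ _ (k + 1),
      sum_range_succ _ (k + 1), NN_rec]
    ring

lemma PP_rec0 (y : ℤ) (k v : ℕ) : PP y (k + 1) 0 (v + 1) =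
    PP y (k + 1) 1 v + (y - 1) * PP y (k + 1) 0 v - NN 0 v k * y ^ (k + 2) := by
  induction k with
  | zero =>
    unfold PP
    simp only [zero_add, range_one, sum_singleton, NN_rec0_zero]
    ring
  | succ k ih =>
    unfold PP at ih ⊢
    rw [sum_range_succ, ih, sum_range_succ _ (k + 1), sum_range_succ _ (k + 1), NN_rec0]
    ring

lemma PP_base_rec (y : ℤ) (k u : ℕ) : PP y (k + 1) (u + 1) 0 =
    PP y (k + 1) u 0 + y * (1 - PP y k u 0) := by
  induction k with
  | zero =>
    unfold PP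
    simp only [zero_add, range_one, sum_singleton, range_zero, sum_empty]
    unfold NN
    simp [cc]
    ring
  | succ k ih =>
    unfold PP at ih ⊢
    rw [sum_range_succ, ih, sum_range_succ _ (k + 1), sum_range_succ _ k]
    unfold NN
    have c1 : cc 0 (k + 1) = - cc 0 k := by simp [cc]
    have e1 : u + 1 + 0 + 1 = (u + 0 + 1) + 1 := by ring
    rw [c1, e1, Nat.choose_succ_succ (u + 0 + 1)]
    simp only [Nat.choose_zero_succ]
    push_cast
    ring

lemma PP_base {y : ℤ} (hy : (2 : ℤ) ∣ y) : ∀ (k u : ℕ),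
    (2 ^ k : ℤ) ∣ 1 - (PP y k u 0 + (1 - y) ^ (u + 1)) := by
  intro k
  induction k with
  | zero => intro u; simp
  | succ k ihk =>
    intro u
    induction u with
    | zero =>
      have h : PP y (k + 1) 0 0 = y := by
        unfold PP
        rw [sum_range_succ']
        have : ∀ i ∈ range k, NN 0 0 (i + 1) * y ^ (i + 1 + 1) = 0 := by
          intro i _
          unfold NN
          have : (0 + 0 + 1).choose (i + 1 + 1) = 0 := Nat.choose_eq_zero_of_lt (by omega)
          rw [this]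
          simp
        rw [sum_eq_zero this]
        unfold NN
        simp [cc]
      rw [h]
      simp
    | succ u ihu =>
      have h1 : (2 ^ (k + 1) : ℤ) ∣ y * (1 - (PP y k u 0 + (1 - y) ^ (u + 1))) := by
        rw [pow_succ, mul_comm ((2 : ℤ) ^ k) 2]
        exact mul_dvd_mul hy (ihk u)
      have h2 := dvd_sub ihu h1
      have e : 1 - (PP y (k + 1) (u + 1) 0 + (1 - y) ^ (u + 1 + 1)) =
          1 - (PP y (k + 1) u 0 + (1 - y) ^ (u + 1)) -
            y * (1 - (PP y k u 0 + (1 - y) ^ (u + 1))) := by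
        rw [PP_base_rec, pow_succ (1 - y) (u + 1)]
        ring
      rw [e]
      exact h2

/-- the correction term at `v = 0` -/
def DD (x : ℕ) (u v : ℕ) : ℤ := if v = 0 then (-(x : ℤ)) ^ (u + 1) else 0

lemma Bn_congr {x : ℕ} (hx : (2 : ℤ) ∣ 1 + x) (k : ℕ) : ∀ (v u : ℕ),
    (2 ^ k : ℤ) ∣ (Bn x v u : ℤ) - (PP (1 + x) k u v + DD x u v) := by
  rcases k with _ | k
  · intro v u; simp
  intro v
  induction v with
  | zero =>
    intro u
    have := PP_base hx (k + 1) u
    unfold DD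
    simp only [Bn, if_pos]
    have e : (1 - (1 + (x : ℤ))) = -(x : ℤ) := by ring
    rw [e] at this
    simpa using this
  | succ v ihv =>
    have hyk : ∀ z : ℤ, (2 ^ (k + 1) : ℤ) ∣ z * (1 + (x : ℤ)) ^ (k + 2) := by
      intro z
      apply dvd_mul_of_dvd_right
      exact (pow_dvd_pow_of_dvd hx (k + 1)).trans (pow_dvd_pow _ (by omega))
    have hD : ∀ u, DD x (u + 1) v + x * DD x u v = 0 := by
      intro u
      unfold DD
      split_ifs
      · ring
      · simp
    have hD' : ∀ u, DD x u (v + 1) = 0 := by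
      intro u
      unfold DD
      simp
    intro u
    induction u with
    | zero =>
      have h1 := ihv 1
      have h2 := dvd_mul_of_dvd_right (ihv 0) (x : ℤ)
      have h3 := dvd_add (dvd_add h1 h2) (hyk (NN 0 v k))
      have e : ((Bn x (v + 1) 0 : ℕ) : ℤ) - (PP (1 + x) (k + 1) 0 (v + 1) + DD x 0 (v + 1)) =
          (Bn x v 1 : ℤ) - (PP (1 + x) (k + 1) 1 v + DD x 1 v) +
          (x : ℤ) * ((Bn x v 0 : ℤ) - (PP (1 + x) (k + 1) 0 v + DD x 0 v)) +
          NN 0 v k * (1 + (x : ℤ)) ^ (k + 2) := by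
        rw [PP_rec0, hD', Bn]
        have := hD 0
        simp only [zero_add] at this
        push_cast
        linear_combination this
      rw [e]
      exact h3
    | succ u ihu =>
      have h1 := ihv (u + 2)
      have h2 := dvd_mul_of_dvd_right (ihv (u + 1)) (x : ℤ)
      have h3 := dvd_add (dvd_add ihu (dvd_add h1 h2)) (hyk (NN (u + 1) v k))
      have e : ((Bn x (v + 1) (u + 1) : ℕ) : ℤ) -
          (PP (1 + x) (k + 1) (u + 1) (v + 1) + DD x (u + 1) (v + 1)) =
          (Bn x (v + 1) u : ℤ) - (PP (1 + x) (k + 1) u (v + 1) + DD x u (v + 1)) +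
          ((Bn x v (u + 2) : ℤ) - (PP (1 + x) (k + 1) (u + 2) v + DD x (u + 2) v) +
          (x : ℤ) * ((Bn x v (u + 1) : ℤ) - (PP (1 + x) (k + 1) (u + 1) v + DD x (u + 1) v))) +
          NN (u + 1) v k * (1 + (x : ℤ)) ^ (k + 2) := by
        rw [PP_rec, hD', hD', Bn]
        have := hD (u + 1)
        push_cast
        linear_combination this
      rw [e]
      exact h3

/-! ### Periodicity of the pieces -/

lemma choose_sum (n i : ℕ) : (n.choose (i + 1) : ℤ) = ∑ s ∈ range n, (s.choose i : ℤ) := by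
  induction n with
  | zero => simp
  | succ n ih =>
    rw [sum_range_succ, ← ih, Nat.choose_succ_succ]
    push_cast
    ring

lemma per_choose (X : Type*) (k i : ℕ) : Per k (fun n (_ : X) => (n.choose i : ℤ)) := by
  induction i with
  | zero =>
    have : Per k (fun (_ : ℕ) (_ : X) => (1 : ℤ)) := Per.const (fun _ => 1)
    simpa using this
  | succ i ih =>
    have := ih.partialSum
    simpa only [choose_sum] using this

lemma per_cc (X : Type*) (k i : ℕ) : Per k (fun n (_ : X) => cc n i) := by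
  induction i with
  | zero =>
    have : Per k (fun (_ : ℕ) (_ : X) => (1 : ℤ)) := Per.const (fun _ => 1)
    simpa only [cc] using this
  | succ i ih =>
    have := (per_choose X k (i + 1)).sub ih
    simpa only [cc] using this

lemma per_NN_u (k i : ℕ) : Per k (fun u (v : ℕ) => NN u v i) := by
  have h1 : Per k (fun (_ : ℕ) (v : ℕ) => cc v i) := Per.const _
  have h2 : Per k (fun u (v : ℕ) => ((u + (v + 1)).choose (i + 1) : ℤ)) :=
    (per_choose Unit k (i + 1)).comp (fun v => v + 1) (fun _ => ())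
  have h3 : Per k (fun (_ : ℕ) (v : ℕ) => (v.choose (i + 1) : ℤ)) := Per.const _
  have h4 : Per k (fun u (v : ℕ) => ((u + v).choose i : ℤ)) :=
    (per_choose Unit k i).comp (fun v => v) (fun _ => ())
  exact (h1.mul h2).sub (h3.mul h4)

lemma per_NN_v (k i : ℕ) : Per k (fun v (u : ℕ) => NN u v i) := by
  have h1 : Per k (fun v (_ : ℕ) => cc v i) := per_cc ℕ k i
  have h2 : Per k (fun v (u : ℕ) => ((v + (u + 1)).choose (i + 1) : ℤ)) :=
    (per_choose Unit k (i + 1)).comp (fun u => u + 1) (fun _ => ())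
  have h3 : Per k (fun v (_ : ℕ) => (v.choose (i + 1) : ℤ)) := per_choose ℕ k (i + 1)
  have h4 : Per k (fun v (u : ℕ) => ((v + u).choose i : ℤ)) :=
    (per_choose Unit k i).comp (fun v => v) (fun _ => ())
  have h5 := (h1.mul h2).sub (h3.mul h4)
  have e : (fun (v u : ℕ) => NN u v i) = (fun (v u : ℕ) =>
      cc v i * ((v + (u + 1)).choose (i + 1) : ℤ) -
        (v.choose (i + 1) : ℤ) * ((v + u).choose i : ℤ)) := by
    funext v u
    unfold NN
    have e1 : u + v + 1 = v + (u + 1) := by ring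
    rw [e1, add_comm u v]
  rw [e]
  exact h5

lemma per_PP_u (y : ℤ) (k : ℕ) : Per k (fun u (v : ℕ) => PP y k u v) := by
  unfold PP
  exact Per.sum (range k) (fun i _ => (per_NN_u k i).mul (Per.const _))

lemma per_PP_v (y : ℤ) (k : ℕ) : Per k (fun v (u : ℕ) => PP y k u v) := by
  unfold PP
  exact Per.sum (range k) (fun i _ => (per_NN_v k i).mul (Per.const _))

lemma pow_two_pow {z : ℤ} (hz : (2 : ℤ) ∣ z - 1) (k : ℕ) : (2 ^ k : ℤ) ∣ z ^ 2 ^ k - 1 := by
  induction k with
  | zero => simp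
  | succ k ih =>
    have h1 : z ^ 2 ^ (k + 1) - 1 = (z ^ 2 ^ k - 1) * (z ^ 2 ^ k + 1) := by
      rw [pow_succ 2 k, pow_mul]
      ring
    have h2 : (2 : ℤ) ∣ z ^ 2 ^ k + 1 := by
      have h3 : (z - 1) ∣ z ^ 2 ^ k - 1 := sub_one_dvd_pow_sub_one z _
      have h4 := (hz.trans h3)
      have : z ^ 2 ^ k + 1 = (z ^ 2 ^ k - 1) + 2 := by ring
      rw [this]
      exact dvd_add h4 (dvd_refl 2)
    rw [h1, pow_succ]
    exact mul_dvd_mul ih h2

lemma per_pow {z : ℤ} (hz : (2 : ℤ) ∣ z - 1) (X : Type*) (k : ℕ) :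
    Per k (fun n (_ : X) => z ^ n) := by
  refine ⟨k, fun n _ => ?_⟩
  have e : z ^ (n + 2 ^ k) - z ^ n = z ^ n * (z ^ 2 ^ k - 1) := by rw [pow_add]; ring
  simp only
  rw [e]
  exact dvd_mul_of_dvd_right (pow_two_pow hz k) _

end Pool.Agent.H33.Benzel
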