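import Mathlib

/-! The structural lemma: a system of directed lines of three kinds with three sources has no
split and exactly one sink. -/

open Finset

namespace Pool.Agent.H33.Benzel

/-- positions of stones of the background tiling -/
abbrev St := ℤ × ℤ

/-- A tile, recorded by the background stones of its `a`-, `b`- and `c`-cell. -/
abbrev Tr := St × St × St

/-- The tile is a sink. -/
def Sink (t : Tr) : Prop :=
  t.2.1.1 < t.1.1 ∧ t.2.2.2 < t.2.1.2 ∧ t.2.2.1 + t.2.2.2 < t.1.1 + t.1.2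

structure Config (N : ℤ) (M : Finset St) (xa xb xc : St) (T : Finset Tr) : Prop where
  ne_ab : xa ≠ xb
  ne_ac : xa ≠ xc
  ne_bc : xb ≠ xc
  mem_a : xa ∈ M
  mem_b : xb ∈ M
  mem_c : xc ∈ M
  bdd : ∀ s ∈ M, 0 ≤ s.1 ∧ 0 ≤ s.2 ∧ s.1 + s.2 ≤ N
  mono : ∀ t ∈ T, t.2.1.1 ≤ t.1.1 ∧ t.2.2.2 ≤ t.2.1.2 ∧ t.2.2.1 + t.2.2.2 ≤ t.1.1 + t.1.2
  shape : ∀ t ∈ T, (t.1 = t.2.1 ∧ t.2.1 = t.2.2) ∨ (t.1 = t.2.1 ∧ t.2.2 ≠ t.1) ∨
    (t.2.1 = t.2.2 ∧ t.1 ≠ t.2.1) ∨ (t.1 = t.2.2 ∧ t.2.1 ≠ t.1) ∨ Sink t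
  injA : ∀ t ∈ T, ∀ t' ∈ T, t.1 = t'.1 → t = t'
  injB : ∀ t ∈ T, ∀ t' ∈ T, t.2.1 = t'.2.1 → t = t'
  injC : ∀ t ∈ T, ∀ t' ∈ T, t.2.2 = t'.2.2 → t = t'
  covA : ∀ s ∈ M, s ≠ xb → s ≠ xc → ∃ t ∈ T, t.1 = s
  covB : ∀ s ∈ M, s ≠ xa → s ≠ xc → ∃ t ∈ T, t.2.1 = s
  covC : ∀ s ∈ M, s ≠ xa → s ≠ xb → ∃ t ∈ T, t.2.2 = s
  inA : ∀ t ∈ T, t.1 ∈ M ∧ t.1 ≠ xb ∧ t.1 ≠ xc
  inB : ∀ t ∈ T, t.2.1 ∈ M ∧ t.2.1 ≠ xa ∧ t.2.1 ≠ xc
  inC : ∀ t ∈ T, t.2.2 ∈ M ∧ t.2.2 ≠ xa ∧ t.2.2 ≠ xb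

/-- The three cells of the stone `s` lie in three different tiles. -/
def Split (M : Finset St) (xa xb xc : St) (T : Finset Tr) (s : St) : Prop :=
  s ∈ M ∧ s ≠ xa ∧ s ≠ xb ∧ s ≠ xc ∧
    ∀ t ∈ T, ¬ (t.1 = s ∧ t.2.1 = s) ∧ ¬ (t.2.1 = s ∧ t.2.2 = s) ∧ ¬ (t.1 = s ∧ t.2.2 = s)

/-- one `c`-step -/
def SuccC (T : Finset Tr) (s o : St) : Prop := (o, o, s) ∈ T ∧ o ≠ s

namespace Config

variable {N : ℤ} {M : Finset St} {xa xb xc : St} {T : Finset Tr}

/-- Following an `a`-line forward, one arrives at a sink. -/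
lemma fwdA (h : Config N M xa xb xc T) : ∀ (n : ℕ) (s : St) (t : Tr), s ∈ M →
    2 * s.1 + s.2 ≤ n → t ∈ T → t.1 = s → t.2.1 ≠ s → t.2.2 ≠ s →
    ∃ K ∈ T, Sink K ∧ K.1.1 ≤ s.1 ∧ K.1.1 + K.1.2 ≤ s.1 + s.2 := by
  intro n
  induction n with
  | zero =>
    intro s t hs hn ht hta htb htc
    rcases h.shape t ht with h1 | h1 | h1 | h1 | h1
    · exact absurd (h1.1.symm.trans hta) htb
    · exact absurd (h1.1.symm.trans hta) htb
    · exfalso
      have h2 := h.mono t ht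
      have h3 := h.bdd t.2.1 (h.inB t ht).1
      have h4 := h.bdd s hs
      apply htb
      rw [hta, ← h1.1] at h2
      apply Prod.ext <;> push_cast at hn <;> omega
    · exact absurd (h1.1.symm.trans hta) htc
    · exact ⟨t, ht, h1, by rw [hta], by rw [hta]⟩
  | succ n ih =>
    intro s t hs hn ht hta htb htc
    rcases h.shape t ht with h1 | h1 | h1 | h1 | h1
    · exact absurd (h1.1.symm.trans hta) htb
    · exact absurd (h1.1.symm.trans hta) htb
    · -- an a-step to o := t.2.1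
      have h2 := h.mono t ht
      have hB := h.inB t ht
      have hC := h.inC t ht
      rw [← h1.1] at hC
      obtain ⟨t', ht', hta'⟩ := h.covA t.2.1 hB.1 hC.2.2 hB.2.2
      have hne : t' ≠ t := by
        intro he
        rw [he] at hta'
        exact h1.2 hta'
      have hb' : t'.2.1 ≠ t.2.1 := fun he => hne (h.injB t' ht' t ht he)
      have hc' : t'.2.2 ≠ t.2.1 := fun he => hne (h.injC t' ht' t ht (he.trans h1.1))
      rw [hta, ← h1.1] at h2
      have hlt : 2 * t.2.1.1 + t.2.1.2 ≤ n := by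
        by_contra hcon
        apply htb
        apply Prod.ext <;> push_cast at hn <;> omega
      obtain ⟨K, hK, hKs, hK1, hK2⟩ := ih t.2.1 t' hB.1 hlt ht' hta' hb' hc'
      exact ⟨K, hK, hKs, by omega, by omega⟩
    · exact absurd (h1.1.symm.trans hta) htc
    · exact ⟨t, ht, h1, by rw [hta], by rw [hta]⟩

/-- Following a `b`-line forward, one arrives at a sink. -/
lemma fwdB (h : Config N M xa xb xc T) : ∀ (n : ℕ) (s : St) (t : Tr), s ∈ M →
    s.2 - s.1 + N ≤ n → t ∈ T → t.2.1 = s → t.1 ≠ s → t.2.2 ≠ s →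
    ∃ K ∈ T, Sink K ∧ K.2.1.2 ≤ s.2 ∧ s.1 ≤ K.2.1.1 := by
  intro n
  induction n with
  | zero =>
    intro s t hs hn ht htb hta htc
    rcases h.shape t ht with h1 | h1 | h1 | h1 | h1
    · exact absurd (h1.1.trans htb) hta
    · exact absurd (h1.1.trans htb) hta
    · exact absurd (h1.1.symm.trans htb) htc
    · exfalso
      have h2 := h.mono t ht
      have h3 := h.bdd t.1 (h.inA t ht).1
      have h4 := h.bdd s hs
      apply hta
      rw [htb, ← h1.1] at h2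
      apply Prod.ext <;> push_cast at hn <;> omega
    · exact ⟨t, ht, h1, by rw [htb], by rw [htb]⟩
  | succ n ih =>
    intro s t hs hn ht htb hta htc
    rcases h.shape t ht with h1 | h1 | h1 | h1 | h1
    · exact absurd (h1.1.trans htb) hta
    · exact absurd (h1.1.trans htb) hta
    · exact absurd (h1.1.symm.trans htb) htc
    · -- a b-step to o := t.1
      have h2 := h.mono t ht
      have hA := h.inA t ht
      have hC := h.inC t ht
      rw [← h1.1] at hC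
      obtain ⟨t', ht', htb'⟩ := h.covB t.1 hA.1 hC.2.1 hA.2.2
      have hne : t' ≠ t := by
        intro he
        rw [he] at htb'
        exact h1.2 htb'
      have ha' : t'.1 ≠ t.1 := fun he => hne (h.injA t' ht' t ht he)
      have hc' : t'.2.2 ≠ t.1 := fun he => hne (h.injC t' ht' t ht (he.trans h1.1))
      rw [htb, ← h1.1] at h2
      have hlt : t.1.2 - t.1.1 + N ≤ n := by
        by_contra hcon
        apply hta
        apply Prod.ext <;> push_cast at hn <;> omega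
      obtain ⟨K, hK, hKs, hK1, hK2⟩ := ih t.1 t' hA.1 hlt ht' htb' ha' hc'
      exact ⟨K, hK, hKs, by omega, by omega⟩
    · exact ⟨t, ht, h1, by rw [htb], by rw [htb]⟩

/-- Following a `c`-line backward, one arrives at a source: `xc` or a split. -/
lemma backC (h : Config N M xa xb xc T) : ∀ (n : ℕ) (g : St) (t : Tr), g ∈ M →
    g.1 + 2 * g.2 ≤ n → t ∈ T → t.2.2 = g → t.1 ≠ g → t.2.1 ≠ g →
    ∃ Y, (Y = xc ∨ Split M xa xb xc T Y) ∧ Y.1 + Y.2 ≤ g.1 + g.2 ∧ Y.2 ≤ g.2 ∧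
      Relation.ReflTransGen (SuccC T) Y g := by
  intro n
  induction n with
  | zero =>
    intro g t hg hn ht htc hta htb
    have hC := h.inC t ht
    rw [htc] at hC
    by_cases hgc : g = xc
    · exact ⟨g, Or.inl hgc, le_rfl, le_rfl, Relation.ReflTransGen.refl⟩
    obtain ⟨u, hu, hua⟩ := h.covA g hg hC.2.2 hgc
    have hneut : u ≠ t := fun he => hta (he ▸ hua)
    by_cases hub : u.2.1 = g
    · exfalso
      have huc : u.2.2 ≠ g := fun he => hneut (h.injC u hu t ht (he.trans htc.symm))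
      have h2 := h.mono u hu
      have h3 := h.bdd u.2.2 (h.inC u hu).1
      have h4 := h.bdd g hg
      rw [hua, hub] at h2
      apply huc
      apply Prod.ext <;> push_cast at hn <;> omega
    · refine ⟨g, Or.inr ⟨hg, hC.2.1, hC.2.2, hgc, ?_⟩, le_rfl, le_rfl, Relation.ReflTransGen.refl⟩
      intro v hv
      refine ⟨?_, ?_, ?_⟩
      · rintro ⟨h5, h6⟩
        have := h.injA v hv u hu (h5.trans hua.symm)
        exact hub (this ▸ h6)
      · rintro ⟨h5, h6⟩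
        have := h.injC v hv t ht (h6.trans htc.symm)
        exact htb (this ▸ h5)
      · rintro ⟨h5, h6⟩
        have := h.injC v hv t ht (h6.trans htc.symm)
        exact hta (this ▸ h5)
  | succ n ih =>
    intro g t hg hn ht htc hta htb
    have hC := h.inC t ht
    rw [htc] at hC
    by_cases hgc : g = xc
    · exact ⟨g, Or.inl hgc, le_rfl, le_rfl, Relation.ReflTransGen.refl⟩
    obtain ⟨u, hu, hua⟩ := h.covA g hg hC.2.2 hgc
    have hneut : u ≠ t := fun he => hta (he ▸ hua)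
    by_cases hub : u.2.1 = g
    · have huc : u.2.2 ≠ g := fun he => hneut (h.injC u hu t ht (he.trans htc.symm))
      have h2 := h.mono u hu
      rw [hua, hub] at h2
      have hlt : u.2.2.1 + 2 * u.2.2.2 ≤ n := by
        by_contra hcon
        apply huc
        apply Prod.ext <;> push_cast at hn <;> omega
      obtain ⟨Y, hY, hY1, hY2, hY3⟩ := ih u.2.2 u (h.inC u hu).1 hlt hu rfl
        (fun he => huc (he.symm.trans hua)) (fun he => huc (he.symm.trans hub))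
      refine ⟨Y, hY, by omega, by omega, hY3.tail ⟨?_, huc.symm⟩⟩
      have : u = (g, g, u.2.2) := Prod.ext hua (Prod.ext hub rfl)
      rw [← this]
      exact hu
    · refine ⟨g, Or.inr ⟨hg, hC.2.1, hC.2.2, hgc, ?_⟩, le_rfl, le_rfl, Relation.ReflTransGen.refl⟩
      intro v hv
      refine ⟨?_, ?_, ?_⟩
      · rintro ⟨h5, h6⟩
        have := h.injA v hv u hu (h5.trans hua.symm)
        exact hub (this ▸ h6)
      · rintro ⟨h5, h6⟩
        have := h.injC v hv t ht (h6.trans htc.symm)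
        exact htb (this ▸ h5)
      · rintro ⟨h5, h6⟩
        have := h.injC v hv t ht (h6.trans htc.symm)
        exact hta (this ▸ h5)

lemma succC_unique (h : Config N M xa xb xc T) : Relator.RightUnique (SuccC T) := by
  intro a b c hb hc
  have := h.injC _ hb.1 _ hc.1 rfl
  simpa using this

lemma sink_ne (t : Tr) (ht : Sink t) : t.1 ≠ t.2.1 ∧ t.2.1 ≠ t.2.2 ∧ t.1 ≠ t.2.2 := by
  obtain ⟨h1, h2, h3⟩ := ht
  refine ⟨fun h => ?_, fun h => ?_, fun h => ?_⟩
  · rw [h] at h1; omega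
  · rw [h] at h2; omega
  · rw [h] at h3; omega

/-- Two sinks whose `c`-cells are reached from `xc` are equal. -/
lemma sink_unique_of_reach (h : Config N M xa xb xc T) {K L : Tr} (hK : K ∈ T) (hL : L ∈ T)
    (hKs : Sink K) (hLs : Sink L) (h1 : Relation.ReflTransGen (SuccC T) xc K.2.2)
    (h2 : Relation.ReflTransGen (SuccC T) xc L.2.2) : K = L := by
  have term : ∀ K ∈ T, Sink K → ∀ z, ¬ SuccC T K.2.2 z := by
    intro K hK hKs z hz
    have := h.injC _ hz.1 _ hK rfl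
    have h3 := (sink_ne K hKs).1
    rw [← this] at h3
    exact h3 rfl
  have key : ∀ K ∈ T, Sink K → ∀ z, Relation.ReflTransGen (SuccC T) K.2.2 z → z = K.2.2 := by
    intro K hK hKs z hz
    rcases Relation.ReflTransGen.cases_head hz with h3 | ⟨y, hy, _⟩
    · exact h3.symm
    · exact absurd hy (term K hK hKs y)
  rcases Relation.ReflTransGen.total_of_right_unique h.succC_unique h1 h2 with h3 | h3
  · exact h.injC K hK L hL (key K hK hKs _ h3).symm
  · exact h.injC K hK L hL (key L hL hLs _ h3)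

lemma reach_of_sink (h : Config N M xa xb xc T) {K : Tr} (hK : K ∈ T) (hKs : Sink K) :
    ∃ Y, (Y = xc ∨ Split M xa xb xc T Y) ∧ Y.1 + Y.2 ≤ K.2.2.1 + K.2.2.2 ∧ Y.2 ≤ K.2.2.2 ∧
      Relation.ReflTransGen (SuccC T) Y K.2.2 := by
  have h3 := sink_ne K hKs
  exact h.backC (K.2.2.1 + 2 * K.2.2.2).toNat K.2.2 K (h.inC K hK).1 (Int.self_le_toNat _) hK rfl
    h3.2.2 h3.2.1

/-- There are no splits. -/
theorem noSplit (h : Config N M xa xb xc T) (s : St) : ¬ Split M xa xb xc T s := by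
  classical
  intro hs
  set D := M.filter (fun s => Split M xa xb xc T s) with hD
  have hne : D.Nonempty := ⟨s, by rw [hD, mem_filter]; exact ⟨hs.1, hs⟩⟩
  obtain ⟨X, hX, hXmin⟩ := exists_min_image D (fun s => s.1 + s.2) hne
  obtain ⟨X', hX', hXmin'⟩ := exists_min_image D (fun s => s.2) hne
  have hXs : Split M xa xb xc T X := (mem_filter.mp hX).2
  have hXs' : Split M xa xb xc T X' := (mem_filter.mp hX').2
  -- the a-line from X
  obtain ⟨K, hK, hKs, hK1, hK2, hKr⟩ : ∃ K ∈ T, Sink K ∧ K.1.1 ≤ X.1 ∧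
      K.1.1 + K.1.2 ≤ X.1 + X.2 ∧ Relation.ReflTransGen (SuccC T) xc K.2.2 := by
    obtain ⟨t, ht, hta⟩ := h.covA X hXs.1 hXs.2.2.1 hXs.2.2.2.1
    have hsp := hXs.2.2.2.2 t ht
    obtain ⟨K, hK, hKs, hK1, hK2⟩ := h.fwdA (2 * X.1 + X.2).toNat X t hXs.1 (Int.self_le_toNat _)
      ht hta (fun he => hsp.1 ⟨hta, he⟩) (fun he => hsp.2.2 ⟨hta, he⟩)
    refine ⟨K, hK, hKs, hK1, hK2, ?_⟩
    obtain ⟨Y, hY, hY1, hY2, hY3⟩ := h.reach_of_sink hK hKs
    rcases hY with rfl | hY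
    · exact hY3
    · exfalso
      have := hXmin Y (by rw [hD, mem_filter]; exact ⟨hY.1, hY⟩)
      have h5 := hKs.2.2
      omega
  -- the b-line from X'
  obtain ⟨L, hL, hLs, hL1, hL2, hLr⟩ : ∃ K ∈ T, Sink K ∧ K.2.1.2 ≤ X'.2 ∧
      X'.1 ≤ K.2.1.1 ∧ Relation.ReflTransGen (SuccC T) xc K.2.2 := by
    obtain ⟨t, ht, htb⟩ := h.covB X' hXs'.1 hXs'.2.1 hXs'.2.2.2.1
    have hsp := hXs'.2.2.2.2 t ht
    obtain ⟨K, hK, hKs, hK1, hK2⟩ := h.fwdB (X'.2 - X'.1 + N).toNat X' t hXs'.1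
      (Int.self_le_toNat _) ht htb (fun he => hsp.1 ⟨he, htb⟩) (fun he => hsp.2.1 ⟨htb, he⟩)
    refine ⟨K, hK, hKs, hK1, hK2, ?_⟩
    obtain ⟨Y, hY, hY1, hY2, hY3⟩ := h.reach_of_sink hK hKs
    rcases hY with rfl | hY
    · exact hY3
    · exfalso
      have := hXmin' Y (by rw [hD, mem_filter]; exact ⟨hY.1, hY⟩)
      have h5 := hKs.2.1
      omega
  have hKL := h.sink_unique_of_reach hK hL hKs hLs hKr hLr
  subst hKL
  have e1 := hXmin X' hX'
  have e2 := hXmin' X hX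
  have e3 := hKs.1
  omega

/-- Two of the three cells of a stone lie in one tile. -/
theorem exists_pair (h : Config N M xa xb xc T) {s : St} (hs : s ∈ M) (ha : s ≠ xa)
    (hb : s ≠ xb) (hc : s ≠ xc) :
    ∃ t ∈ T, (t.1 = s ∧ t.2.1 = s) ∨ (t.2.1 = s ∧ t.2.2 = s) ∨ (t.1 = s ∧ t.2.2 = s) := by
  by_contra hcon
  push Not at hcon
  refine h.noSplit s ⟨hs, ha, hb, hc, fun t ht => ?_⟩
  obtain ⟨h1, h2, h3⟩ := hcon t ht
  exact ⟨fun h4 => h1 h4.1 h4.2, fun h4 => h2 h4.1 h4.2, fun h4 => h3 h4.1 h4.2⟩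

/-- There is at most one sink. -/
theorem sink_unique (h : Config N M xa xb xc T) {K L : Tr} (hK : K ∈ T) (hL : L ∈ T)
    (hKs : Sink K) (hLs : Sink L) : K = L := by
  have key : ∀ K ∈ T, Sink K → Relation.ReflTransGen (SuccC T) xc K.2.2 := by
    intro K hK hKs
    obtain ⟨Y, hY, _, _, hY3⟩ := h.reach_of_sink hK hKs
    rcases hY with rfl | hY
    · exact hY3
    · exact absurd hY (h.noSplit Y)
  exact h.sink_unique_of_reach hK hL hKs hLs (key K hK hKs) (key L hL hLs)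

/-- There is a sink. -/
theorem exists_sink (h : Config N M xa xb xc T) : ∃ K ∈ T, Sink K := by
  obtain ⟨t, ht, hta⟩ := h.covA xa h.mem_a h.ne_ab h.ne_ac
  obtain ⟨K, hK, hKs, _⟩ := h.fwdA (2 * xa.1 + xa.2).toNat xa t h.mem_a (Int.self_le_toNat _)
    ht hta (h.inB t ht).2.1 (h.inC t ht).2.1
  exact ⟨K, hK, hKs⟩

end Config

end Pool.Agent.H33.Benzel
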