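import Mathlib

/-!
Definitions for problem MP_6d1bd2_co: benzels, the five prototiles, tilings and the weighted
enumeration `T_113(a,b;w)`.
-/

open Finset

namespace Pool.Agent.H33.Benzel

/-- A cell is a triple of integers (barycentric coordinates); the cells of the hexagonal tiling are
the triples with `i + j + k = 1`. -/
abbrev Cell := ℤ × ℤ × ℤ

/-- The `(a,b)`-benzel: the triples `(i,j,k)` with `i+j+k = 1` and
`-(a-1) ≤ j-i, k-j, i-k ≤ b-1`.  (All such triples lie in the box `[-(a+b), a+b]^3`, which is only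
used to get a finite set; see `mem_benzel`.) -/
noncomputable def benzel (a b : ℤ) : Finset Cell :=
  (Icc (-(a + b)) (a + b) ×ˢ Icc (-(a + b)) (a + b) ×ˢ Icc (-(a + b)) (a + b)).filter
    (fun c => c.1 + c.2.1 + c.2.2 = 1 ∧
      (-(a - 1) ≤ c.2.1 - c.1 ∧ c.2.1 - c.1 ≤ b - 1) ∧
      (-(a - 1) ≤ c.2.2 - c.2.1 ∧ c.2.2 - c.2.1 ≤ b - 1) ∧
      (-(a - 1) ≤ c.1 - c.2.2 ∧ c.1 - c.2.2 ≤ b - 1))

/-- A right stone: `{(x+1,y,z),(x,y+1,z),(x,y,z+1)}` with `x+y+z = 0`. -/
def IsRightStone (P : Finset Cell) : Prop :=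
  ∃ x y z : ℤ, x + y + z = 0 ∧ P = {(x + 1, y, z), (x, y + 1, z), (x, y, z + 1)}

/-- A left stone: `{(x-1,y,z),(x,y-1,z),(x,y,z-1)}` with `x+y+z = 2`. -/
def IsLeftStone (P : Finset Cell) : Prop :=
  ∃ x y z : ℤ, x + y + z = 2 ∧ P = {(x - 1, y, z), (x, y - 1, z), (x, y, z - 1)}

/-- A stone is a right stone or a left stone. -/
def IsStone (P : Finset Cell) : Prop := IsRightStone P ∨ IsLeftStone P

/-- A bone: `{c, c+d, c+2d}` with `c` a cell of the hexagonal tiling and
`d ∈ {(1,-1,0),(0,1,-1),(-1,0,1)}`. -/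
def IsBone (P : Finset Cell) : Prop :=
  ∃ i j k : ℤ, i + j + k = 1 ∧
    (P = {(i, j, k), (i + 1, j - 1, k), (i + 2, j - 2, k)} ∨
     P = {(i, j, k), (i, j + 1, k - 1), (i, j + 2, k - 2)} ∨
     P = {(i, j, k), (i - 1, j, k + 1), (i - 2, j, k + 2)})

/-- `τ` is a tiling of the region `R`: a partition of `R` into stones and bones. -/
def IsTiling (R : Finset Cell) (τ : Finset (Finset Cell)) : Prop :=
  (∀ P ∈ τ, IsStone P ∨ IsBone P) ∧
  (∀ P ∈ τ, ∀ Q ∈ τ, P ≠ Q → Disjoint P Q) ∧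
  (∀ c : Cell, c ∈ R ↔ ∃ P ∈ τ, c ∈ P)

open scoped Classical in
/-- The finite set of all tilings of `R`. -/
noncomputable def tilings (R : Finset Cell) : Finset (Finset (Finset Cell)) :=
  R.powerset.powerset.filter (fun τ => IsTiling R τ)

open scoped Classical in
/-- The number of stones (of both kinds) used by `τ`. -/
noncomputable def numStones (τ : Finset (Finset Cell)) : ℕ := (τ.filter (fun P => IsStone P)).card

/-- The weighted enumeration of the tilings of a region, with weight `w` for each stone. -/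
noncomputable def weightedCount (R : Finset Cell) (w : ℕ) : ℕ :=
  ∑ τ ∈ tilings R, w ^ numStones τ

/-- `T_113(a,b;w)`. -/
noncomputable def T113 (a b : ℤ) (w : ℕ) : ℕ := weightedCount (benzel a b) w

/-- The box used in the definition of `benzel` loses nothing. -/
theorem mem_benzel {a b i j k : ℤ} :
    (i, j, k) ∈ benzel a b ↔ i + j + k = 1 ∧
      (-(a - 1) ≤ j - i ∧ j - i ≤ b - 1) ∧
      (-(a - 1) ≤ k - j ∧ k - j ≤ b - 1) ∧
      (-(a - 1) ≤ i - k ∧ i - k ≤ b - 1) := by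
  unfold benzel
  simp only [mem_filter, mem_product, mem_Icc]
  constructor
  · rintro ⟨_, h⟩
    exact h
  · rintro ⟨h1, ⟨h2, h3⟩, ⟨h4, h5⟩, h6, h7⟩
    refine ⟨⟨⟨?_, ?_⟩, ⟨?_, ?_⟩, ?_, ?_⟩, h1, ⟨h2, h3⟩, ⟨h4, h5⟩, h6, h7⟩ <;> omega

/-- The tilings are exactly the families of sets of cells satisfying `IsTiling`. -/
theorem mem_tilings {R : Finset Cell} {τ : Finset (Finset Cell)} :
    τ ∈ tilings R ↔ IsTiling R τ := by
  classical
  unfold tilings
  rw [mem_filter]
  constructor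
  · exact fun h => h.2
  · intro h
    refine ⟨?_, h⟩
    rw [mem_powerset]
    intro P hP
    rw [mem_powerset]
    intro c hc
    exact (h.2.2 c).mpr ⟨P, hP, hc⟩

end Pool.Agent.H33.Benzel
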