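import Pool.Agent.H33.Benzel.Defs

/-! Expansion of the weighted count along a family of mutually exclusive tiles. -/

open Finset

namespace Pool.Agent.H33.Benzel

open scoped Classical in
/-- The weight of a tile. -/
noncomputable def wt (w : ℕ) (P : Finset Cell) : ℕ := if IsStone P then w else 1

lemma tile_nonempty {P : Finset Cell} (hP : IsStone P ∨ IsBone P) : P.Nonempty := by
  rcases hP with (⟨x, y, z, _, rfl⟩ | ⟨x, y, z, _, rfl⟩) | ⟨i, j, k, _, rfl | rfl | rfl⟩ <;>
    exact insert_nonempty _ _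

lemma isTiling_erase {R : Finset Cell} {τ : Finset (Finset Cell)} {P : Finset Cell}
    (h : IsTiling R τ) (hP : P ∈ τ) : IsTiling (R \ P) (τ.erase P) := by
  obtain ⟨h1, h2, h3⟩ := h
  refine ⟨fun Q hQ => h1 Q (mem_of_mem_erase hQ),
    fun Q hQ Q' hQ' hne => h2 Q (mem_of_mem_erase hQ) Q' (mem_of_mem_erase hQ') hne, ?_⟩
  intro c
  rw [mem_sdiff, h3]
  constructor
  · rintro ⟨⟨Q, hQ, hc⟩, hcP⟩
    refine ⟨Q, mem_erase.mpr ⟨?_, hQ⟩, hc⟩
    rintro rfl
    exact hcP hc
  · rintro ⟨Q, hQ, hc⟩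
    rw [mem_erase] at hQ
    refine ⟨⟨Q, hQ.2, hc⟩, fun hcP => ?_⟩
    exact disjoint_left.mp (h2 Q hQ.2 P hP hQ.1) hc hcP

lemma isTiling_insert {R : Finset Cell} {τ : Finset (Finset Cell)} {P : Finset Cell}
    (h : IsTiling (R \ P) τ) (hP : IsStone P ∨ IsBone P) (hPR : P ⊆ R) :
    IsTiling R (insert P τ) := by
  obtain ⟨h1, h2, h3⟩ := h
  have hd : ∀ Q ∈ τ, Disjoint Q P := by
    intro Q hQ
    rw [disjoint_left]
    intro c hc hcP
    have := (h3 c).mpr ⟨Q, hQ, hc⟩
    rw [mem_sdiff] at this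
    exact this.2 hcP
  refine ⟨?_, ?_, ?_⟩
  · intro Q hQ
    rw [mem_insert] at hQ
    rcases hQ with rfl | hQ
    · exact hP
    · exact h1 Q hQ
  · intro Q hQ Q' hQ' hne
    rw [mem_insert] at hQ hQ'
    rcases hQ with rfl | hQ <;> rcases hQ' with rfl | hQ'
    · exact absurd rfl hne
    · exact (hd Q' hQ').symm
    · exact hd Q hQ
    · exact h2 Q hQ Q' hQ' hne
  · intro c
    constructor
    · intro hc
      by_cases hcP : c ∈ P
      · exact ⟨P, mem_insert_self P τ, hcP⟩
      · obtain ⟨Q, hQ, hcQ⟩ := (h3 c).mp (mem_sdiff.mpr ⟨hc, hcP⟩)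
        exact ⟨Q, mem_insert_of_mem hQ, hcQ⟩
    · rintro ⟨Q, hQ, hc⟩
      rw [mem_insert] at hQ
      rcases hQ with rfl | hQ
      · exact hPR hc
      · exact (mem_sdiff.mp ((h3 c).mpr ⟨Q, hQ, hc⟩)).1

lemma notMem_of_isTiling_sdiff {R : Finset Cell} {τ : Finset (Finset Cell)} {P : Finset Cell}
    (h : IsTiling (R \ P) τ) (hP : IsStone P ∨ IsBone P) : P ∉ τ := by
  intro hPτ
  obtain ⟨c, hc⟩ := tile_nonempty hP
  have := (h.2.2 c).mpr ⟨P, hPτ, hc⟩
  rw [mem_sdiff] at this
  exact this.2 hc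

open scoped Classical in
lemma numStones_insert {τ : Finset (Finset Cell)} {P : Finset Cell} (hP : P ∉ τ) :
    numStones (insert P τ) = numStones τ + if IsStone P then 1 else 0 := by
  unfold numStones
  rw [filter_insert]
  split_ifs with h
  · rw [card_insert_of_notMem]
    intro h'
    exact hP (mem_filter.mp h').1
  · rfl

lemma pow_numStones_insert {τ : Finset (Finset Cell)} {P : Finset Cell} (w : ℕ) (hP : P ∉ τ) :
    w ^ numStones (insert P τ) = wt w P * w ^ numStones τ := by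
  classical
  rw [numStones_insert hP]
  unfold wt
  split_ifs with h
  · rw [pow_succ, mul_comm]
  · simp

open scoped Classical in
lemma sum_tilings_containing {R : Finset Cell} {P : Finset Cell} (w : ℕ)
    (hP : IsStone P ∨ IsBone P) (hPR : P ⊆ R) :
    ∑ τ ∈ (tilings R).filter (fun τ => P ∈ τ), w ^ numStones τ =
      wt w P * weightedCount (R \ P) w := by
  unfold weightedCount
  rw [mul_sum]
  refine sum_bij' (fun τ _ => τ.erase P) (fun τ _ => insert P τ) ?_ ?_ ?_ ?_ ?_
  · intro τ hτ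
    rw [mem_filter, mem_tilings] at hτ
    exact mem_tilings.mpr (isTiling_erase hτ.1 hτ.2)
  · intro τ hτ
    rw [mem_tilings] at hτ
    rw [mem_filter, mem_tilings]
    exact ⟨isTiling_insert hτ hP hPR, mem_insert_self P τ⟩
  · intro τ hτ
    rw [mem_filter] at hτ
    exact insert_erase hτ.2
  · intro τ hτ
    rw [mem_tilings] at hτ
    exact erase_insert (notMem_of_isTiling_sdiff hτ hP)
  · intro τ hτ
    rw [mem_filter, mem_tilings] at hτ
    have h1 : P ∉ τ.erase P := notMem_erase P τ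
    rw [← pow_numStones_insert w h1, insert_erase hτ.2]

theorem weightedCount_expand (R : Finset Cell) (w : ℕ) (fam : Finset (Finset Cell))
    (hfam : ∀ P ∈ fam, (IsStone P ∨ IsBone P) ∧ P ⊆ R)
    (hex : ∀ τ, IsTiling R τ → ∃ P, (P ∈ fam ∧ P ∈ τ) ∧ ∀ Q, Q ∈ fam → Q ∈ τ → Q = P) :
    weightedCount R w = ∑ P ∈ fam, wt w P * weightedCount (R \ P) w := by
  classical
  have h1 : ∀ τ ∈ tilings R, w ^ numStones τ = ∑ P ∈ fam.filter (fun P => P ∈ τ), w ^ numStones τ := by
    intro τ hτ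
    obtain ⟨P, ⟨hP1, hP2⟩, hP3⟩ := hex τ (mem_tilings.mp hτ)
    have : fam.filter (fun P => P ∈ τ) = {P} := by
      ext Q
      rw [mem_filter, mem_singleton]
      constructor
      · rintro ⟨hQ1, hQ2⟩
        exact hP3 Q hQ1 hQ2
      · rintro rfl
        exact ⟨hP1, hP2⟩
    rw [this, sum_singleton]
  have h2 : weightedCount R w =
      ∑ τ ∈ tilings R, ∑ P ∈ fam.filter (fun P => P ∈ τ), w ^ numStones τ := by
    unfold weightedCount
    exact sum_congr rfl h1
  rw [h2, sum_comm' (s' := fun P => (tilings R).filter (fun τ => P ∈ τ)) (t' := fam)]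
  · apply sum_congr rfl
    intro P hP
    exact sum_tilings_containing w (hfam P hP).1 (hfam P hP).2
  · intro τ P
    simp only [mem_filter]
    tauto

lemma weightedCount_empty (w : ℕ) : weightedCount ∅ w = 1 := by
  have h : tilings ∅ = {∅} := by
    ext τ
    rw [mem_tilings, mem_singleton]
    constructor
    · rintro ⟨h1, _, h3⟩
      rw [eq_empty_iff_forall_notMem]
      intro P hP
      obtain ⟨c, hc⟩ := tile_nonempty (h1 P hP)
      exact absurd ((h3 c).mpr ⟨P, hP, hc⟩) (notMem_empty c)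
    · rintro rfl
      refine ⟨by simp, by simp, by simp⟩
  unfold weightedCount
  rw [h, sum_singleton]
  simp [numStones]

end Pool.Agent.H33.Benzel
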