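import Pool.Agent.H33.Benzel.Assembly

/-! The sums over the position of the sink are triple sums, and the final periodicity theorem. -/

open Finset

namespace Pool.Agent.H33.Benzel

lemma sum_sink (x m du dv a1 a3 : ℕ) (h1 : a1 ≤ du + dv) (h3 : a3 ≤ du + dv) :
    (∑ t ∈ sinkFam ((m : ℤ) + du + dv) (-(du : ℤ), (du : ℤ) - a3, (a1 : ℤ) - du, -(dv : ℤ)),
      (bbb x ((m : ℤ) + du + dv) t : ℤ)) =
    T3 (fun u v => (Bn x v (u + a1) : ℤ)) (fun v t => (Bn x t (v + dv) : ℤ))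
      (fun t u => (Bn x u (t + a3) : ℤ)) m := by
  symm
  unfold T3
  rw [sum_sigma']
  apply sum_bij (fun p _ => ((((p.2 : ℤ) + du, ((p.1 - p.2 : ℕ) : ℤ) + dv),
    ((p.2 : ℤ), ((p.1 - p.2 : ℕ) : ℤ) + dv + du - a3),
    ((p.2 : ℤ) + a1, ((p.1 - p.2 : ℕ) : ℤ))) : Tr))
  · rintro ⟨s, u⟩ hp
    rw [mem_sigma, mem_range, mem_range] at hp
    simp only at hp
    rw [mem_sinkFam, mem_Tri, mem_Tri, mem_Tri]
    unfold offs
    simp only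
    omega
  · rintro ⟨s, u⟩ hp ⟨s', u'⟩ hp' he
    rw [mem_sigma, mem_range, mem_range] at hp hp'
    simp only at hp hp'
    simp only [Prod.mk.injEq] at he
    obtain ⟨⟨e1, e2⟩, -⟩ := he
    have hu : u = u' := by omega
    have hs : s = s' := by omega
    subst hu hs
    rfl
  · rintro ⟨⟨p, q⟩, ⟨b1, b2⟩, ⟨c1, c2⟩⟩ ht
    rw [mem_sinkFam, mem_Tri, mem_Tri, mem_Tri] at ht
    unfold offs at ht
    simp only at ht
    refine ⟨⟨(b1 + c2).toNat, b1.toNat⟩, ?_, ?_⟩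
    · rw [mem_sigma, mem_range, mem_range]
      simp only
      omega
    · simp only [Prod.mk.injEq]
      omega
  · rintro ⟨s, u⟩ hp
    rw [mem_sigma, mem_range, mem_range] at hp
    simp only at hp
    unfold bbb
    simp only
    have e1 : ((u : ℤ) + a1) = ((u + a1 : ℕ) : ℤ) := by push_cast; ring
    have e2 : (((s - u : ℕ) : ℤ) + dv) = ((s - u + dv : ℕ) : ℤ) := by push_cast; ring
    have e3 : (m : ℤ) + du + dv - ((u : ℤ) + du) - ((s - u + dv : ℕ) : ℤ) = ((m - s : ℕ) : ℤ) := by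
      omega
    have e4 : (m : ℤ) + du + dv - (u : ℤ) - (((s - u + dv : ℕ) : ℤ) + du - a3) =
      ((m - s + a3 : ℕ) : ℤ) := by omega
    rw [e1, e2, e3, e4, Bz_nat, Bz_nat, Bz_nat]
    push_cast
    ring

/-- the sum of the five triple sums -/
theorem per_top {x : ℕ} (hx : (2 : ℤ) ∣ 1 + x) (k : ℕ) :
    Per k (fun ν (_ : Unit) => ((∑ o ∈ sinkOffs, ∑ t ∈ sinkFam ((ν : ℤ) + 3) o,
      bbb x ((ν : ℤ) + 3) t : ℕ) : ℤ)) := by
  have g1 := per_G hx k 1 0 1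
  have g2 := per_G hx k 0 1 1
  have g3 := per_G hx k 1 1 0
  have g4 := per_G hx k 1 1 1
  have g5 := (per_G hx k 0 0 0).comp (fun _ : Unit => 1) (fun _ => ())
  obtain ⟨j, hj⟩ := (((g1.add g2).add g3).add g4).add g5
  have hval : ∀ ν : ℕ, ((∑ o ∈ sinkOffs, ∑ t ∈ sinkFam ((ν : ℤ) + 3) o,
      bbb x ((ν : ℤ) + 3) t : ℕ) : ℤ) =
      T3 (fun u v => (Bn x v (u + 1) : ℤ)) (fun u v => (Bn x v (u + 0) : ℤ))
        (fun u v => (Bn x v (u + 1) : ℤ)) (ν + 1) +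
      T3 (fun u v => (Bn x v (u + 0) : ℤ)) (fun u v => (Bn x v (u + 1) : ℤ))
        (fun u v => (Bn x v (u + 1) : ℤ)) (ν + 1) +
      T3 (fun u v => (Bn x v (u + 1) : ℤ)) (fun u v => (Bn x v (u + 1) : ℤ))
        (fun u v => (Bn x v (u + 0) : ℤ)) (ν + 1) +
      T3 (fun u v => (Bn x v (u + 1) : ℤ)) (fun u v => (Bn x v (u + 1) : ℤ))
        (fun u v => (Bn x v (u + 1) : ℤ)) (ν + 1) +
      T3 (fun u v => (Bn x v (u + 0) : ℤ)) (fun u v => (Bn x v (u + 0) : ℤ))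
        (fun u v => (Bn x v (u + 0) : ℤ)) (ν + 1 + 1) := by
    intro ν
    have s1 := sum_sink x (ν + 1) 2 0 1 1 (by norm_num) (by norm_num)
    have s2 := sum_sink x (ν + 1) 1 1 0 1 (by norm_num) (by norm_num)
    have s3 := sum_sink x (ν + 1) 1 1 1 0 (by norm_num) (by norm_num)
    have s4 := sum_sink x (ν + 1) 1 1 1 1 (by norm_num) (by norm_num)
    have s5 := sum_sink x (ν + 1 + 1) 1 0 0 0 (by norm_num) (by norm_num)
    have n1 : ((ν + 1 : ℕ) : ℤ) + ((2 : ℕ) : ℤ) + ((0 : ℕ) : ℤ) = (ν : ℤ) + 3 := by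
      push_cast; ring
    have n2 : ((ν + 1 : ℕ) : ℤ) + ((1 : ℕ) : ℤ) + ((1 : ℕ) : ℤ) = (ν : ℤ) + 3 := by
      push_cast; ring
    have n5 : ((ν + 1 + 1 : ℕ) : ℤ) + ((1 : ℕ) : ℤ) + ((0 : ℕ) : ℤ) = (ν : ℤ) + 3 := by
      push_cast; ring
    rw [n1] at s1
    rw [n2] at s2 s3 s4
    rw [n5] at s5
    have o1 : ((-((2 : ℕ) : ℤ), ((2 : ℕ) : ℤ) - ((1 : ℕ) : ℤ), ((1 : ℕ) : ℤ) - ((2 : ℕ) : ℤ),
      -((0 : ℕ) : ℤ)) : ℤ × ℤ × ℤ × ℤ) = (-2, 1, -1, 0) := by norm_num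
    have o2 : ((-((1 : ℕ) : ℤ), ((1 : ℕ) : ℤ) - ((1 : ℕ) : ℤ), ((0 : ℕ) : ℤ) - ((1 : ℕ) : ℤ),
      -((1 : ℕ) : ℤ)) : ℤ × ℤ × ℤ × ℤ) = (-1, 0, -1, -1) := by norm_num
    have o3 : ((-((1 : ℕ) : ℤ), ((1 : ℕ) : ℤ) - ((0 : ℕ) : ℤ), ((1 : ℕ) : ℤ) - ((1 : ℕ) : ℤ),
      -((1 : ℕ) : ℤ)) : ℤ × ℤ × ℤ × ℤ) = (-1, 1, 0, -1) := by norm_num
    have o4 : ((-((1 : ℕ) : ℤ), ((1 : ℕ) : ℤ) - ((1 : ℕ) : ℤ), ((1 : ℕ) : ℤ) - ((1 : ℕ) : ℤ),
      -((1 : ℕ) : ℤ)) : ℤ × ℤ × ℤ × ℤ) = (-1, 0, 0, -1) := by norm_num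
    have o5 : ((-((1 : ℕ) : ℤ), ((1 : ℕ) : ℤ) - ((0 : ℕ) : ℤ), ((0 : ℕ) : ℤ) - ((1 : ℕ) : ℤ),
      -((0 : ℕ) : ℤ)) : ℤ × ℤ × ℤ × ℤ) = (-1, 1, -1, 0) := by norm_num
    rw [o1] at s1
    rw [o2] at s2
    rw [o3] at s3
    rw [o4] at s4
    rw [o5] at s5
    rw [← s1, ← s2, ← s3, ← s4, ← s5]
    push_cast
    unfold sinkOffs
    rw [sum_insert (by decide), sum_insert (by decide), sum_insert (by decide),
      sum_insert (by decide), sum_singleton]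
    ring
  refine ⟨j, fun n y => ?_⟩
  have h := hj n y
  simp only at h ⊢
  rw [hval, hval]
  exact h

/-- the number of stones of the triangle -/
lemma card_Tri (N : ℕ) : (Tri (N : ℤ)).card = ∑ s ∈ range (N + 1), (s + 1) := by
  have h : (Tri (N : ℤ)).card = ((range (N + 1)).sigma (fun s => range (s + 1))).card := by
    symm
    apply card_bij (fun p _ => (((p.2 : ℤ), ((p.1 - p.2 : ℕ) : ℤ)) : St))
    · rintro ⟨s, u⟩ hp
      rw [mem_sigma, mem_range, mem_range] at hp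
      rw [mem_Tri]
      simp only at hp ⊢
      omega
    · rintro ⟨s, u⟩ hp ⟨s', u'⟩ hp' he
      rw [mem_sigma, mem_range, mem_range] at hp hp'
      simp only at hp hp'
      simp only [Prod.mk.injEq] at he
      obtain ⟨e1, e2⟩ := he
      have hu : u = u' := by omega
      have hs : s = s' := by omega
      subst hu hs
      rfl
    · rintro ⟨p, q⟩ ht
      rw [mem_Tri] at ht
      simp only at ht
      refine ⟨⟨(p + q).toNat, p.toNat⟩, ?_, ?_⟩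
      · rw [mem_sigma, mem_range, mem_range]
        simp only
        omega
      · simp only [Prod.mk.injEq]
        omega
  rw [h, card_sigma]
  simp

lemma odd_pow_sub {w : ℤ} (hw : (2 : ℤ) ∣ w - 1) {k a b : ℕ} (hab : a ≤ b)
    (h : 2 ^ k ∣ b - a) : (2 ^ k : ℤ) ∣ w ^ b - w ^ a := by
  obtain ⟨c, hc⟩ := h
  have e : b = a + 2 ^ k * c := by rw [← hc]; omega
  rw [e, pow_add, pow_mul]
  have h1 : w ^ a * (w ^ 2 ^ k) ^ c - w ^ a = w ^ a * ((w ^ 2 ^ k) ^ c - 1) := by ring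
  rw [h1]
  apply dvd_mul_of_dvd_right
  exact (pow_two_pow hw k).trans (sub_one_dvd_pow_sub_one _ _)

/-- If the exponents are periodic then so are the powers of an odd number. -/
lemma per_pow_comp {w : ℤ} (hw : (2 : ℤ) ∣ w - 1) {k : ℕ} {e : ℕ → ℕ} (hmono : Monotone e)
    (he : Per k (fun n (_ : Unit) => (e n : ℤ))) : Per k (fun n (_ : Unit) => w ^ e n) := by
  obtain ⟨j, hj⟩ := he
  refine ⟨j, fun n x => ?_⟩
  have hle : e n ≤ e (n + 2 ^ j) := hmono (Nat.le_add_right _ _)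
  apply odd_pow_sub hw hle
  have h := hj n x
  simp only at h
  have h2 : ((2 ^ k : ℕ) : ℤ) ∣ ((e (n + 2 ^ j) - e n : ℕ) : ℤ) := by
    push_cast [hle]
    exact h
  exact Int.natCast_dvd_natCast.mp h2

lemma per_card (k : ℕ) : Per k (fun ν (_ : Unit) => ((Tri ((ν : ℤ) + 3)).card : ℤ)) := by
  have h1 : Per k (fun s (_ : Unit) => ((s + 1 : ℕ) : ℤ)) := by
    have := (per_choose Unit k 1).comp (fun _ : Unit => 1) (fun _ => ())
    simpa only [Nat.choose_one_right] using this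
  have h2 := h1.partialSum.comp (fun _ : Unit => 4) (fun _ => ())
  obtain ⟨j, hj⟩ := h2
  have e : ∀ ν : ℕ, ((Tri ((ν : ℤ) + 3)).card : ℤ) = ∑ s ∈ range (ν + 4), ((s + 1 : ℕ) : ℤ) := by
    intro ν
    have h := card_Tri (ν + 3)
    have h' : (((ν + 3 : ℕ) : ℤ)) = (ν : ℤ) + 3 := by push_cast; ring
    rw [h'] at h
    rw [h]
    push_cast
    rfl
  refine ⟨j, fun n x => ?_⟩
  have h := hj n x
  simp only at h ⊢
  rw [e, e]
  exact h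

lemma mono_card : Monotone (fun ν : ℕ => (Tri ((ν : ℤ) + 3)).card) := by
  intro a b hab
  apply card_le_card
  intro s hs
  rw [mem_Tri] at hs ⊢
  omega

/-- The numbers `T_113(n, 2n-4; w)`, `n ≥ 5`, `w` odd, modulo powers of two. -/
theorem per_T113 {w : ℕ} (hw : w % 2 = 1) (k : ℕ) :
    Per k (fun ν (_ : Unit) => (T113 ((ν : ℤ) + 5) (2 * ((ν : ℤ) + 5) - 4) w : ℤ)) := by
  have hw1 : (2 : ℤ) ∣ (w : ℤ) - 1 := by omega
  have hx : (2 : ℤ) ∣ 1 + ((w ^ 2 : ℕ) : ℤ) := by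
    have h1 : (2 : ℤ) ∣ ((w : ℤ) - 1) * ((w : ℤ) + 1) := dvd_mul_of_dvd_left hw1 _
    have h2 : 1 + ((w ^ 2 : ℕ) : ℤ) = ((w : ℤ) - 1) * ((w : ℤ) + 1) + 2 := by push_cast; ring
    rw [h2]
    exact dvd_add h1 (dvd_refl 2)
  have hR := (per_pow_comp hw1 mono_card (per_card k)).mul (per_top hx k)
  -- the exponent on the left side
  have hE : Per k (fun ν (_ : Unit) => (w : ℤ) ^ (3 * ν + 8)) := by
    apply per_pow_comp hw1 (e := fun ν => 3 * ν + 8)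
    · intro a b hab
      simp only
      omega
    · refine ⟨k, fun n _ => ?_⟩
      refine ⟨3, ?_⟩
      push_cast
      ring
  have key : ∀ ν : ℕ, (w : ℤ) ^ (3 * ν + 8) *
      (T113 ((ν : ℤ) + 5) (2 * ((ν : ℤ) + 5) - 4) w : ℤ) =
      (w : ℤ) ^ (Tri ((ν : ℤ) + 3)).card * ((∑ o ∈ sinkOffs, ∑ t ∈ sinkFam ((ν : ℤ) + 3) o,
      bbb (w ^ 2) ((ν : ℤ) + 3) t : ℕ) : ℤ) := by
    intro ν
    have h1 := benzel_eq (n := (ν : ℤ) + 5) (by omega)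
    have h2 : (ν : ℤ) + 5 - 2 = (ν : ℤ) + 3 := by ring
    rw [h2] at h1
    have h3 := top_formula (N := (ν : ℤ) + 3) (by omega) w
    have h4 : (3 * ((ν : ℤ) + 3) - 1).toNat = 3 * ν + 8 := by omega
    rw [h4] at h3
    unfold T113
    rw [h1]
    exact_mod_cast h3
  -- cancel the odd factor
  obtain ⟨j1, hj1⟩ := hR
  obtain ⟨j2, hj2⟩ := hE
  refine ⟨max j1 j2, fun n x => ?_⟩
  have g1 := Per.exists_of_le (f := fun (ν : ℕ) (_ : Unit) => (w : ℤ) ^ (Tri ((ν : ℤ) + 3)).card *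
    ((∑ o ∈ sinkOffs, ∑ t ∈ sinkFam ((ν : ℤ) + 3) o, bbb (w ^ 2) ((ν : ℤ) + 3) t : ℕ) : ℤ))
    (le_max_left j1 j2) hj1 n x
  have g2 := Per.exists_of_le (f := fun (ν : ℕ) (_ : Unit) => (w : ℤ) ^ (3 * ν + 8))
    (le_max_right j1 j2) hj2 n x
  simp only at g1 g2 ⊢
  rw [← key, ← key] at g1
  have hcop : IsCoprime ((2 : ℤ) ^ k) ((w : ℤ) ^ (3 * n + 8)) := by
    apply IsCoprime.pow
    rw [Int.isCoprime_iff_gcd_eq_one]
    have : Nat.Coprime 2 w := by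
      rw [Nat.coprime_two_left]
      exact Nat.odd_iff.mpr hw
    exact_mod_cast this
  apply hcop.dvd_of_dvd_mul_left
  have e : (w : ℤ) ^ (3 * n + 8) *
      ((T113 (((n + 2 ^ max j1 j2 : ℕ) : ℤ) + 5) (2 * (((n + 2 ^ max j1 j2 : ℕ) : ℤ) + 5) - 4) w : ℤ) -
        (T113 ((n : ℤ) + 5) (2 * ((n : ℤ) + 5) - 4) w : ℤ)) =
      ((w : ℤ) ^ (3 * (n + 2 ^ max j1 j2) + 8) *
        (T113 (((n + 2 ^ max j1 j2 : ℕ) : ℤ) + 5)
          (2 * (((n + 2 ^ max j1 j2 : ℕ) : ℤ) + 5) - 4) w : ℤ) -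
        (w : ℤ) ^ (3 * n + 8) * (T113 ((n : ℤ) + 5) (2 * ((n : ℤ) + 5) - 4) w : ℤ)) -
      ((w : ℤ) ^ (3 * (n + 2 ^ max j1 j2) + 8) - (w : ℤ) ^ (3 * n + 8)) *
        (T113 (((n + 2 ^ max j1 j2 : ℕ) : ℤ) + 5)
          (2 * (((n + 2 ^ max j1 j2 : ℕ) : ℤ) + 5) - 4) w : ℤ) := by ring
  rw [e]
  exact dvd_sub g1 (dvd_mul_of_dvd_left g2 _)

/-- Periodicity in terms of congruences. -/
theorem T113_modEq {w : ℕ} (hw : w % 2 = 1) (k : ℕ) :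
    ∃ j : ℕ, ∀ m n : ℤ, 5 ≤ m → 5 ≤ n → m ≡ n [ZMOD 2 ^ j] →
      (T113 m (2 * m - 4) w : ℤ) ≡ (T113 n (2 * n - 4) w : ℤ) [ZMOD 2 ^ k] := by
  obtain ⟨j, hj⟩ := per_T113 hw k
  refine ⟨j, ?_⟩
  have main : ∀ m n : ℤ, 5 ≤ m → m ≤ n → m ≡ n [ZMOD 2 ^ j] →
      (T113 m (2 * m - 4) w : ℤ) ≡ (T113 n (2 * n - 4) w : ℤ) [ZMOD 2 ^ k] := by
    intro m n hm hmn h
    have h1 := Int.ModEq.dvd h
    obtain ⟨c, hc⟩ := h1
    have hpos : (0 : ℤ) < 2 ^ j := by positivity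
    have hc0 : 0 ≤ c := by
      by_contra hneg
      push Not at hneg
      have : (2 : ℤ) ^ j * c < 0 := mul_neg_of_pos_of_neg hpos hneg
      omega
    obtain ⟨c', rfl⟩ := Int.eq_ofNat_of_zero_le hc0
    obtain ⟨ν, hν⟩ : ∃ ν : ℕ, (ν : ℤ) = m - 5 := ⟨(m - 5).toNat, by omega⟩
    have h2 := Per.mul_period (f := fun (ν : ℕ) (_ : Unit) =>
      (T113 ((ν : ℤ) + 5) (2 * ((ν : ℤ) + 5) - 4) w : ℤ)) hj c' ν ()
    have e1 : (ν : ℤ) + 5 = m := by omega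
    have e2 : ((ν + c' * 2 ^ j : ℕ) : ℤ) + 5 = n := by
      push_cast
      linarith
    rw [e1, e2] at h2
    exact (Int.modEq_iff_dvd.mpr h2)
  intro m n hm hn h
  rcases le_total m n with hmn | hmn
  · exact main m n hm hmn h
  · exact (main n m hn hmn h.symm).symm

end Pool.Agent.H33.Benzel
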