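import Pool.Agent.H33.Benzel.Expand
import Pool.Agent.H33.Benzel.Config

/-! The stone/letter model of the cells and of the tiles. -/

open Finset

set_option linter.unreachableTactic false
set_option linter.unusedTactic false

namespace Pool.Agent.H33.Benzel

/-- the `a`-cell of the stone `s` -/
def cA (N : ℤ) (s : St) : Cell := (N - 2 * s.1 - s.2 + 1, s.1 - s.2, s.1 + 2 * s.2 - N)
/-- the `b`-cell of the stone `s` -/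
def cB (N : ℤ) (s : St) : Cell := (N - 2 * s.1 - s.2, s.1 - s.2 + 1, s.1 + 2 * s.2 - N)
/-- the `c`-cell of the stone `s` -/
def cC (N : ℤ) (s : St) : Cell := (N - 2 * s.1 - s.2, s.1 - s.2, s.1 + 2 * s.2 - N + 1)

/-- the tile with `a`-cell in stone `t.1`, `b`-cell in stone `t.2.1`, `c`-cell in stone `t.2.2` -/
def tri (N : ℤ) (t : Tr) : Finset Cell := {cA N t.1, cB N t.2.1, cC N t.2.2}

/-- the region with given `a`-, `b`- and `c`-cells -/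
def Reg (N : ℤ) (A B C : Finset St) : Finset Cell :=
  A.image (cA N) ∪ B.image (cB N) ∪ C.image (cC N)

lemma cA_inj {N : ℤ} {s s' : St} (h : cA N s = cA N s') : s = s' := by
  simp only [cA, Prod.mk.injEq] at h
  apply Prod.ext <;> omega

lemma cB_inj {N : ℤ} {s s' : St} (h : cB N s = cB N s') : s = s' := by
  simp only [cB, Prod.mk.injEq] at h
  apply Prod.ext <;> omega

lemma cC_inj {N : ℤ} {s s' : St} (h : cC N s = cC N s') : s = s' := by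
  simp only [cC, Prod.mk.injEq] at h
  apply Prod.ext <;> omega

lemma cA_ne_cB {N : ℤ} {s s' : St} : cA N s ≠ cB N s' := by
  intro h
  simp only [cA, cB, Prod.mk.injEq] at h
  omega

lemma cA_ne_cC {N : ℤ} {s s' : St} : cA N s ≠ cC N s' := by
  intro h
  simp only [cA, cC, Prod.mk.injEq] at h
  omega

lemma cB_ne_cC {N : ℤ} {s s' : St} : cB N s ≠ cC N s' := by
  intro h
  simp only [cB, cC, Prod.mk.injEq] at h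
  omega

lemma mem_Reg_A {N : ℤ} {A B C : Finset St} {s : St} : cA N s ∈ Reg N A B C ↔ s ∈ A := by
  unfold Reg
  simp only [mem_union, mem_image]
  constructor
  · rintro ((⟨x, hx, h⟩ | ⟨x, hx, h⟩) | ⟨x, hx, h⟩)
    · rwa [← cA_inj h]
    · exact absurd h.symm cA_ne_cB
    · exact absurd h.symm cA_ne_cC
  · intro h
    exact Or.inl (Or.inl ⟨s, h, rfl⟩)

lemma mem_Reg_B {N : ℤ} {A B C : Finset St} {s : St} : cB N s ∈ Reg N A B C ↔ s ∈ B := by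
  unfold Reg
  simp only [mem_union, mem_image]
  constructor
  · rintro ((⟨x, hx, h⟩ | ⟨x, hx, h⟩) | ⟨x, hx, h⟩)
    · exact absurd h cA_ne_cB
    · rwa [← cB_inj h]
    · exact absurd h.symm cB_ne_cC
  · intro h
    exact Or.inl (Or.inr ⟨s, h, rfl⟩)

lemma mem_Reg_C {N : ℤ} {A B C : Finset St} {s : St} : cC N s ∈ Reg N A B C ↔ s ∈ C := by
  unfold Reg
  simp only [mem_union, mem_image]
  constructor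
  · rintro ((⟨x, hx, h⟩ | ⟨x, hx, h⟩) | ⟨x, hx, h⟩)
    · exact absurd h cA_ne_cC
    · exact absurd h cB_ne_cC
    · rwa [← cC_inj h]
  · intro h
    exact Or.inr ⟨s, h, rfl⟩

lemma tri_subset_Reg {N : ℤ} {A B C : Finset St} {t : Tr} :
    tri N t ⊆ Reg N A B C ↔ t.1 ∈ A ∧ t.2.1 ∈ B ∧ t.2.2 ∈ C := by
  unfold tri
  rw [insert_subset_iff, insert_subset_iff, singleton_subset_iff, mem_Reg_A, mem_Reg_B, mem_Reg_C]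

lemma mem_tri_A {N : ℤ} {t : Tr} {s : St} : cA N s ∈ tri N t ↔ t.1 = s := by
  unfold tri
  simp only [mem_insert, mem_singleton]
  constructor
  · rintro (h | h | h)
    · exact (cA_inj h).symm
    · exact absurd h cA_ne_cB
    · exact absurd h cA_ne_cC
  · rintro rfl
    exact Or.inl rfl

lemma mem_tri_B {N : ℤ} {t : Tr} {s : St} : cB N s ∈ tri N t ↔ t.2.1 = s := by
  unfold tri
  simp only [mem_insert, mem_singleton]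
  constructor
  · rintro (h | h | h)
    · exact absurd h.symm cA_ne_cB
    · exact (cB_inj h).symm
    · exact absurd h cB_ne_cC
  · rintro rfl
    exact Or.inr (Or.inl rfl)

lemma mem_tri_C {N : ℤ} {t : Tr} {s : St} : cC N s ∈ tri N t ↔ t.2.2 = s := by
  unfold tri
  simp only [mem_insert, mem_singleton]
  constructor
  · rintro (h | h | h)
    · exact absurd h.symm cA_ne_cC
    · exact absurd h.symm cB_ne_cC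
    · exact (cC_inj h).symm
  · rintro rfl
    exact Or.inr (Or.inr rfl)

lemma tri_inj {N : ℤ} {t t' : Tr} (h : tri N t = tri N t') : t = t' := by
  have h1 : t'.1 = t.1 := mem_tri_A.mp (h ▸ mem_tri_A.mpr rfl)
  have h2 : t'.2.1 = t.2.1 := mem_tri_B.mp (h ▸ mem_tri_B.mpr rfl)
  have h3 : t'.2.2 = t.2.2 := mem_tri_C.mp (h ▸ mem_tri_C.mpr rfl)
  exact (Prod.ext h1 (Prod.ext h2 h3)).symm

lemma Reg_sdiff_tri {N : ℤ} {A B C : Finset St} {t : Tr} :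
    Reg N A B C \ tri N t = Reg N (A.erase t.1) (B.erase t.2.1) (C.erase t.2.2) := by
  ext c
  rw [mem_sdiff]
  constructor
  · rintro ⟨h1, h2⟩
    unfold Reg at h1
    simp only [mem_union, mem_image] at h1
    rcases h1 with (⟨x, hx, rfl⟩ | ⟨x, hx, rfl⟩) | ⟨x, hx, rfl⟩
    · rw [mem_tri_A] at h2
      rw [mem_Reg_A, mem_erase]
      exact ⟨fun h => h2 h.symm, hx⟩
    · rw [mem_tri_B] at h2
      rw [mem_Reg_B, mem_erase]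
      exact ⟨fun h => h2 h.symm, hx⟩
    · rw [mem_tri_C] at h2
      rw [mem_Reg_C, mem_erase]
      exact ⟨fun h => h2 h.symm, hx⟩
  · intro h1
    unfold Reg at h1
    simp only [mem_union, mem_image] at h1
    rcases h1 with (⟨x, hx, rfl⟩ | ⟨x, hx, rfl⟩) | ⟨x, hx, rfl⟩
    · rw [mem_erase] at hx
      rw [mem_tri_A, mem_Reg_A]
      exact ⟨hx.2, fun h => hx.1 h.symm⟩
    · rw [mem_erase] at hx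
      rw [mem_tri_B, mem_Reg_B]
      exact ⟨hx.2, fun h => hx.1 h.symm⟩
    · rw [mem_erase] at hx
      rw [mem_tri_C, mem_Reg_C]
      exact ⟨hx.2, fun h => hx.1 h.symm⟩

/-- `β = α + (a,b)`, `γ = α + (c,d)` -/
def offs (t : Tr) (a b c d : ℤ) : Prop :=
  t.2.1.1 = t.1.1 + a ∧ t.2.1.2 = t.1.2 + b ∧ t.2.2.1 = t.1.1 + c ∧ t.2.2.2 = t.1.2 + d

/-- the triples which are stones -/
def AdmS (t : Tr) : Prop :=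
  offs t 0 0 0 0 ∨ offs t (-1) 0 (-1) 0 ∨ offs t (-1) 1 0 0 ∨ offs t 0 0 0 (-1) ∨
    offs t (-1) 0 0 (-1) ∨ offs t (-1) 1 (-1) 0

/-- the triples which are bones -/
def AdmB (t : Tr) : Prop :=
  offs t (-2) 1 (-1) 0 ∨ offs t (-1) 0 (-1) (-1) ∨ offs t (-1) 0 0 0 ∨ offs t (-1) 1 (-1) 1 ∨
    offs t (-1) 1 0 (-1) ∨ offs t 0 (-1) 0 (-1) ∨ offs t 0 0 (-1) 0 ∨ offs t 0 0 1 (-1) ∨
    offs t 0 1 0 0

/-- equality of three-element sets, coordinatewise -/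
lemma tri_eq1 {a b c a' b' c' : Cell} (h : (a.1 = a'.1 ∧ a.2.1 = a'.2.1 ∧ a.2.2 = a'.2.2) ∧
    (b.1 = b'.1 ∧ b.2.1 = b'.2.1 ∧ b.2.2 = b'.2.2) ∧
    (c.1 = c'.1 ∧ c.2.1 = c'.2.1 ∧ c.2.2 = c'.2.2)) : ({a, b, c} : Finset Cell) = {a', b', c'} := by
  have e1 : a = a' := Prod.ext h.1.1 (Prod.ext h.1.2.1 h.1.2.2)
  have e2 : b = b' := Prod.ext h.2.1.1 (Prod.ext h.2.1.2.1 h.2.1.2.2)
  have e3 : c = c' := Prod.ext h.2.2.1 (Prod.ext h.2.2.2.1 h.2.2.2.2)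
  rw [e1, e2, e3]

lemma tri_eq2 {a b c a' b' c' : Cell} (h : (a.1 = a'.1 ∧ a.2.1 = a'.2.1 ∧ a.2.2 = a'.2.2) ∧
    (b.1 = c'.1 ∧ b.2.1 = c'.2.1 ∧ b.2.2 = c'.2.2) ∧
    (c.1 = b'.1 ∧ c.2.1 = b'.2.1 ∧ c.2.2 = b'.2.2)) : ({a, b, c} : Finset Cell) = {a', b', c'} := by
  rw [tri_eq1 h, Finset.pair_comm]

lemma tri_eq3 {a b c a' b' c' : Cell} (h : (a.1 = b'.1 ∧ a.2.1 = b'.2.1 ∧ a.2.2 = b'.2.2) ∧
    (b.1 = a'.1 ∧ b.2.1 = a'.2.1 ∧ b.2.2 = a'.2.2) ∧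
    (c.1 = c'.1 ∧ c.2.1 = c'.2.1 ∧ c.2.2 = c'.2.2)) : ({a, b, c} : Finset Cell) = {a', b', c'} := by
  rw [tri_eq1 h, Finset.insert_comm]

lemma tri_eq4 {a b c a' b' c' : Cell} (h : (a.1 = b'.1 ∧ a.2.1 = b'.2.1 ∧ a.2.2 = b'.2.2) ∧
    (b.1 = c'.1 ∧ b.2.1 = c'.2.1 ∧ b.2.2 = c'.2.2) ∧
    (c.1 = a'.1 ∧ c.2.1 = a'.2.1 ∧ c.2.2 = a'.2.2)) : ({a, b, c} : Finset Cell) = {a', b', c'} := by
  rw [tri_eq1 h, Finset.pair_comm, Finset.insert_comm]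

lemma tri_eq5 {a b c a' b' c' : Cell} (h : (a.1 = c'.1 ∧ a.2.1 = c'.2.1 ∧ a.2.2 = c'.2.2) ∧
    (b.1 = a'.1 ∧ b.2.1 = a'.2.1 ∧ b.2.2 = a'.2.2) ∧
    (c.1 = b'.1 ∧ c.2.1 = b'.2.1 ∧ c.2.2 = b'.2.2)) : ({a, b, c} : Finset Cell) = {a', b', c'} := by
  rw [tri_eq1 h, Finset.insert_comm, Finset.pair_comm]

lemma tri_eq6 {a b c a' b' c' : Cell} (h : (a.1 = c'.1 ∧ a.2.1 = c'.2.1 ∧ a.2.2 = c'.2.2) ∧
    (b.1 = b'.1 ∧ b.2.1 = b'.2.1 ∧ b.2.2 = b'.2.2) ∧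
    (c.1 = a'.1 ∧ c.2.1 = a'.2.1 ∧ c.2.2 = a'.2.2)) : ({a, b, c} : Finset Cell) = {a', b', c'} := by
  rw [tri_eq1 h, Finset.insert_comm, Finset.pair_comm, Finset.insert_comm]

lemma admB0 {t : Tr} (h : offs t (-2) 1 (-1) 0) : AdmB t := Or.inl h
lemma admB1 {t : Tr} (h : offs t (-1) 0 (-1) (-1)) : AdmB t := Or.inr (Or.inl h)
lemma admB2 {t : Tr} (h : offs t (-1) 0 0 0) : AdmB t := Or.inr (Or.inr (Or.inl h))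
lemma admB3 {t : Tr} (h : offs t (-1) 1 (-1) 1) : AdmB t := Or.inr (Or.inr (Or.inr (Or.inl h)))
lemma admB4 {t : Tr} (h : offs t (-1) 1 0 (-1)) : AdmB t :=
  Or.inr (Or.inr (Or.inr (Or.inr (Or.inl h))))
lemma admB5 {t : Tr} (h : offs t 0 (-1) 0 (-1)) : AdmB t :=
  Or.inr (Or.inr (Or.inr (Or.inr (Or.inr (Or.inl h)))))
lemma admB6 {t : Tr} (h : offs t 0 0 (-1) 0) : AdmB t :=
  Or.inr (Or.inr (Or.inr (Or.inr (Or.inr (Or.inr (Or.inl h))))))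
lemma admB7 {t : Tr} (h : offs t 0 0 1 (-1)) : AdmB t :=
  Or.inr (Or.inr (Or.inr (Or.inr (Or.inr (Or.inr (Or.inr (Or.inl h)))))))
lemma admB8 {t : Tr} (h : offs t 0 1 0 0) : AdmB t :=
  Or.inr (Or.inr (Or.inr (Or.inr (Or.inr (Or.inr (Or.inr (Or.inr h)))))))
lemma admS0 {t : Tr} (h : offs t 0 0 0 0) : AdmS t := Or.inl h
lemma admS1 {t : Tr} (h : offs t (-1) 0 (-1) 0) : AdmS t := Or.inr (Or.inl h)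
lemma admS2 {t : Tr} (h : offs t (-1) 1 0 0) : AdmS t := Or.inr (Or.inr (Or.inl h))
lemma admS3 {t : Tr} (h : offs t 0 0 0 (-1)) : AdmS t := Or.inr (Or.inr (Or.inr (Or.inl h)))
lemma admS4 {t : Tr} (h : offs t (-1) 0 0 (-1)) : AdmS t :=
  Or.inr (Or.inr (Or.inr (Or.inr (Or.inl h))))
lemma admS5 {t : Tr} (h : offs t (-1) 1 (-1) 0) : AdmS t :=
  Or.inr (Or.inr (Or.inr (Or.inr (Or.inr h))))

lemma isStone_classify (N : ℤ) {P : Finset Cell} (hP : IsStone P) :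
    ∃ t, AdmS t ∧ P = tri N t := by
  rcases hP with ⟨x, y, z, hs, rfl⟩ | ⟨x, y, z, hs, rfl⟩
  · obtain ⟨q, hq⟩ : ∃ q, z + N - y = 3 * q ∨ z + N - y = 3 * q + 1 ∨ z + N - y = 3 * q + 2 :=
      ⟨(z + N - y) / 3, by omega⟩
    rcases hq with hq | hq | hq
    · refine ⟨((y + q, q), (y + q, q), (y + q, q)), ?_, ?_⟩
      · exact admS0 (by unfold offs; dsimp only; omega)
      · unfold tri cA cB cC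
        first
          | (apply tri_eq1; refine ⟨⟨?_, ?_, ?_⟩, ⟨?_, ?_, ?_⟩, ?_, ?_, ?_⟩ <;> dsimp only <;> omega)
          | (apply tri_eq2; refine ⟨⟨?_, ?_, ?_⟩, ⟨?_, ?_, ?_⟩, ?_, ?_, ?_⟩ <;> dsimp only <;> omega)
          | (apply tri_eq3; refine ⟨⟨?_, ?_, ?_⟩, ⟨?_, ?_, ?_⟩, ?_, ?_, ?_⟩ <;> dsimp only <;> omega)
          | (apply tri_eq4; refine ⟨⟨?_, ?_, ?_⟩, ⟨?_, ?_, ?_⟩, ?_, ?_, ?_⟩ <;> dsimp only <;> omega)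
          | (apply tri_eq5; refine ⟨⟨?_, ?_, ?_⟩, ⟨?_, ?_, ?_⟩, ?_, ?_, ?_⟩ <;> dsimp only <;> omega)
          | (apply tri_eq6; refine ⟨⟨?_, ?_, ?_⟩, ⟨?_, ?_, ?_⟩, ?_, ?_, ?_⟩ <;> dsimp only <;> omega)
    · refine ⟨((y + 1 + q, q), (y + q, q + 1), (y + q, q)), ?_, ?_⟩
      · exact admS5 (by unfold offs; dsimp only; omega)
      · unfold tri cA cB cC
        first
          | (apply tri_eq1; refine ⟨⟨?_, ?_, ?_⟩, ⟨?_, ?_, ?_⟩, ?_, ?_, ?_⟩ <;> dsimp only <;> omega)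
          | (apply tri_eq2; refine ⟨⟨?_, ?_, ?_⟩, ⟨?_, ?_, ?_⟩, ?_, ?_, ?_⟩ <;> dsimp only <;> omega)
          | (apply tri_eq3; refine ⟨⟨?_, ?_, ?_⟩, ⟨?_, ?_, ?_⟩, ?_, ?_, ?_⟩ <;> dsimp only <;> omega)
          | (apply tri_eq4; refine ⟨⟨?_, ?_, ?_⟩, ⟨?_, ?_, ?_⟩, ?_, ?_, ?_⟩ <;> dsimp only <;> omega)
          | (apply tri_eq5; refine ⟨⟨?_, ?_, ?_⟩, ⟨?_, ?_, ?_⟩, ?_, ?_, ?_⟩ <;> dsimp only <;> omega)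
          | (apply tri_eq6; refine ⟨⟨?_, ?_, ?_⟩, ⟨?_, ?_, ?_⟩, ?_, ?_, ?_⟩ <;> dsimp only <;> omega)
    · refine ⟨((y + q + 1, q + 1), (y + q, q + 1), (y + 1 + q, q)), ?_, ?_⟩
      · exact admS4 (by unfold offs; dsimp only; omega)
      · unfold tri cA cB cC
        first
          | (apply tri_eq1; refine ⟨⟨?_, ?_, ?_⟩, ⟨?_, ?_, ?_⟩, ?_, ?_, ?_⟩ <;> dsimp only <;> omega)
          | (apply tri_eq2; refine ⟨⟨?_, ?_, ?_⟩, ⟨?_, ?_, ?_⟩, ?_, ?_, ?_⟩ <;> dsimp only <;> omega)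
          | (apply tri_eq3; refine ⟨⟨?_, ?_, ?_⟩, ⟨?_, ?_, ?_⟩, ?_, ?_, ?_⟩ <;> dsimp only <;> omega)
          | (apply tri_eq4; refine ⟨⟨?_, ?_, ?_⟩, ⟨?_, ?_, ?_⟩, ?_, ?_, ?_⟩ <;> dsimp only <;> omega)
          | (apply tri_eq5; refine ⟨⟨?_, ?_, ?_⟩, ⟨?_, ?_, ?_⟩, ?_, ?_, ?_⟩ <;> dsimp only <;> omega)
          | (apply tri_eq6; refine ⟨⟨?_, ?_, ?_⟩, ⟨?_, ?_, ?_⟩, ?_, ?_, ?_⟩ <;> dsimp only <;> omega)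
  · obtain ⟨q, hq⟩ : ∃ q, z + N - y = 3 * q ∨ z + N - y = 3 * q + 1 ∨ z + N - y = 3 * q + 2 :=
      ⟨(z + N - y) / 3, by omega⟩
    rcases hq with hq | hq | hq
    · refine ⟨((y + q, q), (y - 1 + q, q), (y - 1 + q, q)), ?_, ?_⟩
      · exact admS1 (by unfold offs; dsimp only; omega)
      · unfold tri cA cB cC
        first
          | (apply tri_eq1; refine ⟨⟨?_, ?_, ?_⟩, ⟨?_, ?_, ?_⟩, ?_, ?_, ?_⟩ <;> dsimp only <;> omega)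
          | (apply tri_eq2; refine ⟨⟨?_, ?_, ?_⟩, ⟨?_, ?_, ?_⟩, ?_, ?_, ?_⟩ <;> dsimp only <;> omega)
          | (apply tri_eq3; refine ⟨⟨?_, ?_, ?_⟩, ⟨?_, ?_, ?_⟩, ?_, ?_, ?_⟩ <;> dsimp only <;> omega)
          | (apply tri_eq4; refine ⟨⟨?_, ?_, ?_⟩, ⟨?_, ?_, ?_⟩, ?_, ?_, ?_⟩ <;> dsimp only <;> omega)
          | (apply tri_eq5; refine ⟨⟨?_, ?_, ?_⟩, ⟨?_, ?_, ?_⟩, ?_, ?_, ?_⟩ <;> dsimp only <;> omega)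
          | (apply tri_eq6; refine ⟨⟨?_, ?_, ?_⟩, ⟨?_, ?_, ?_⟩, ?_, ?_, ?_⟩ <;> dsimp only <;> omega)
    · refine ⟨((y + q, q), (y - 1 + q, q + 1), (y + q, q)), ?_, ?_⟩
      · exact admS2 (by unfold offs; dsimp only; omega)
      · unfold tri cA cB cC
        first
          | (apply tri_eq1; refine ⟨⟨?_, ?_, ?_⟩, ⟨?_, ?_, ?_⟩, ?_, ?_, ?_⟩ <;> dsimp only <;> omega)
          | (apply tri_eq2; refine ⟨⟨?_, ?_, ?_⟩, ⟨?_, ?_, ?_⟩, ?_, ?_, ?_⟩ <;> dsimp only <;> omega)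
          | (apply tri_eq3; refine ⟨⟨?_, ?_, ?_⟩, ⟨?_, ?_, ?_⟩, ?_, ?_, ?_⟩ <;> dsimp only <;> omega)
          | (apply tri_eq4; refine ⟨⟨?_, ?_, ?_⟩, ⟨?_, ?_, ?_⟩, ?_, ?_, ?_⟩ <;> dsimp only <;> omega)
          | (apply tri_eq5; refine ⟨⟨?_, ?_, ?_⟩, ⟨?_, ?_, ?_⟩, ?_, ?_, ?_⟩ <;> dsimp only <;> omega)
          | (apply tri_eq6; refine ⟨⟨?_, ?_, ?_⟩, ⟨?_, ?_, ?_⟩, ?_, ?_, ?_⟩ <;> dsimp only <;> omega)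
    · refine ⟨((y + q, q + 1), (y + q, q + 1), (y + q, q)), ?_, ?_⟩
      · exact admS3 (by unfold offs; dsimp only; omega)
      · unfold tri cA cB cC
        first
          | (apply tri_eq1; refine ⟨⟨?_, ?_, ?_⟩, ⟨?_, ?_, ?_⟩, ?_, ?_, ?_⟩ <;> dsimp only <;> omega)
          | (apply tri_eq2; refine ⟨⟨?_, ?_, ?_⟩, ⟨?_, ?_, ?_⟩, ?_, ?_, ?_⟩ <;> dsimp only <;> omega)
          | (apply tri_eq3; refine ⟨⟨?_, ?_, ?_⟩, ⟨?_, ?_, ?_⟩, ?_, ?_, ?_⟩ <;> dsimp only <;> omega)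
          | (apply tri_eq4; refine ⟨⟨?_, ?_, ?_⟩, ⟨?_, ?_, ?_⟩, ?_, ?_, ?_⟩ <;> dsimp only <;> omega)
          | (apply tri_eq5; refine ⟨⟨?_, ?_, ?_⟩, ⟨?_, ?_, ?_⟩, ?_, ?_, ?_⟩ <;> dsimp only <;> omega)
          | (apply tri_eq6; refine ⟨⟨?_, ?_, ?_⟩, ⟨?_, ?_, ?_⟩, ?_, ?_, ?_⟩ <;> dsimp only <;> omega)

lemma isBone_classify (N : ℤ) {P : Finset Cell} (hP : IsBone P) :
    ∃ t, AdmB t ∧ P = tri N t := by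
  obtain ⟨i, j, k, hs, hP⟩ := hP
  obtain ⟨q, hq⟩ : ∃ q, k + N - j = 3 * q ∨ k + N - j = 3 * q + 1 ∨ k + N - j = 3 * q + 2 :=
    ⟨(k + N - j) / 3, by omega⟩
  rcases hP with rfl | rfl | rfl
  · rcases hq with hq | hq | hq
    · refine ⟨((j + q, q), (j + q - 2, q + 1), (j + q - 1, q)), ?_, ?_⟩
      · exact admB0 (by unfold offs; dsimp only; omega)
      · unfold tri cA cB cC
        first
          | (apply tri_eq1; refine ⟨⟨?_, ?_, ?_⟩, ⟨?_, ?_, ?_⟩, ?_, ?_, ?_⟩ <;> dsimp only <;> omega)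
          | (apply tri_eq2; refine ⟨⟨?_, ?_, ?_⟩, ⟨?_, ?_, ?_⟩, ?_, ?_, ?_⟩ <;> dsimp only <;> omega)
          | (apply tri_eq3; refine ⟨⟨?_, ?_, ?_⟩, ⟨?_, ?_, ?_⟩, ?_, ?_, ?_⟩ <;> dsimp only <;> omega)
          | (apply tri_eq4; refine ⟨⟨?_, ?_, ?_⟩, ⟨?_, ?_, ?_⟩, ?_, ?_, ?_⟩ <;> dsimp only <;> omega)
          | (apply tri_eq5; refine ⟨⟨?_, ?_, ?_⟩, ⟨?_, ?_, ?_⟩, ?_, ?_, ?_⟩ <;> dsimp only <;> omega)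
          | (apply tri_eq6; refine ⟨⟨?_, ?_, ?_⟩, ⟨?_, ?_, ?_⟩, ?_, ?_, ?_⟩ <;> dsimp only <;> omega)
    · refine ⟨((j + q - 1, q + 1), (j + q - 1, q + 1), (j + q, q)), ?_, ?_⟩
      · exact admB7 (by unfold offs; dsimp only; omega)
      · unfold tri cA cB cC
        first
          | (apply tri_eq1; refine ⟨⟨?_, ?_, ?_⟩, ⟨?_, ?_, ?_⟩, ?_, ?_, ?_⟩ <;> dsimp only <;> omega)
          | (apply tri_eq2; refine ⟨⟨?_, ?_, ?_⟩, ⟨?_, ?_, ?_⟩, ?_, ?_, ?_⟩ <;> dsimp only <;> omega)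
          | (apply tri_eq3; refine ⟨⟨?_, ?_, ?_⟩, ⟨?_, ?_, ?_⟩, ?_, ?_, ?_⟩ <;> dsimp only <;> omega)
          | (apply tri_eq4; refine ⟨⟨?_, ?_, ?_⟩, ⟨?_, ?_, ?_⟩, ?_, ?_, ?_⟩ <;> dsimp only <;> omega)
          | (apply tri_eq5; refine ⟨⟨?_, ?_, ?_⟩, ⟨?_, ?_, ?_⟩, ?_, ?_, ?_⟩ <;> dsimp only <;> omega)
          | (apply tri_eq6; refine ⟨⟨?_, ?_, ?_⟩, ⟨?_, ?_, ?_⟩, ?_, ?_, ?_⟩ <;> dsimp only <;> omega)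
    · refine ⟨((j + q, q + 1), (j + q, q + 1), (j + q - 1, q + 1)), ?_, ?_⟩
      · exact admB6 (by unfold offs; dsimp only; omega)
      · unfold tri cA cB cC
        first
          | (apply tri_eq1; refine ⟨⟨?_, ?_, ?_⟩, ⟨?_, ?_, ?_⟩, ?_, ?_, ?_⟩ <;> dsimp only <;> omega)
          | (apply tri_eq2; refine ⟨⟨?_, ?_, ?_⟩, ⟨?_, ?_, ?_⟩, ?_, ?_, ?_⟩ <;> dsimp only <;> omega)
          | (apply tri_eq3; refine ⟨⟨?_, ?_, ?_⟩, ⟨?_, ?_, ?_⟩, ?_, ?_, ?_⟩ <;> dsimp only <;> omega)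
          | (apply tri_eq4; refine ⟨⟨?_, ?_, ?_⟩, ⟨?_, ?_, ?_⟩, ?_, ?_, ?_⟩ <;> dsimp only <;> omega)
          | (apply tri_eq5; refine ⟨⟨?_, ?_, ?_⟩, ⟨?_, ?_, ?_⟩, ?_, ?_, ?_⟩ <;> dsimp only <;> omega)
          | (apply tri_eq6; refine ⟨⟨?_, ?_, ?_⟩, ⟨?_, ?_, ?_⟩, ?_, ?_, ?_⟩ <;> dsimp only <;> omega)
  · rcases hq with hq | hq | hq
    · refine ⟨((j + q, q), (j + q, q - 1), (j + q, q - 1)), ?_, ?_⟩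
      · exact admB5 (by unfold offs; dsimp only; omega)
      · unfold tri cA cB cC
        first
          | (apply tri_eq1; refine ⟨⟨?_, ?_, ?_⟩, ⟨?_, ?_, ?_⟩, ?_, ?_, ?_⟩ <;> dsimp only <;> omega)
          | (apply tri_eq2; refine ⟨⟨?_, ?_, ?_⟩, ⟨?_, ?_, ?_⟩, ?_, ?_, ?_⟩ <;> dsimp only <;> omega)
          | (apply tri_eq3; refine ⟨⟨?_, ?_, ?_⟩, ⟨?_, ?_, ?_⟩, ?_, ?_, ?_⟩ <;> dsimp only <;> omega)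
          | (apply tri_eq4; refine ⟨⟨?_, ?_, ?_⟩, ⟨?_, ?_, ?_⟩, ?_, ?_, ?_⟩ <;> dsimp only <;> omega)
          | (apply tri_eq5; refine ⟨⟨?_, ?_, ?_⟩, ⟨?_, ?_, ?_⟩, ?_, ?_, ?_⟩ <;> dsimp only <;> omega)
          | (apply tri_eq6; refine ⟨⟨?_, ?_, ?_⟩, ⟨?_, ?_, ?_⟩, ?_, ?_, ?_⟩ <;> dsimp only <;> omega)
    · refine ⟨((j + q + 1, q - 1), (j + q, q), (j + q, q)), ?_, ?_⟩
      · exact admB3 (by unfold offs; dsimp only; omega)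
      · unfold tri cA cB cC
        first
          | (apply tri_eq1; refine ⟨⟨?_, ?_, ?_⟩, ⟨?_, ?_, ?_⟩, ?_, ?_, ?_⟩ <;> dsimp only <;> omega)
          | (apply tri_eq2; refine ⟨⟨?_, ?_, ?_⟩, ⟨?_, ?_, ?_⟩, ?_, ?_, ?_⟩ <;> dsimp only <;> omega)
          | (apply tri_eq3; refine ⟨⟨?_, ?_, ?_⟩, ⟨?_, ?_, ?_⟩, ?_, ?_, ?_⟩ <;> dsimp only <;> omega)
          | (apply tri_eq4; refine ⟨⟨?_, ?_, ?_⟩, ⟨?_, ?_, ?_⟩, ?_, ?_, ?_⟩ <;> dsimp only <;> omega)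
          | (apply tri_eq5; refine ⟨⟨?_, ?_, ?_⟩, ⟨?_, ?_, ?_⟩, ?_, ?_, ?_⟩ <;> dsimp only <;> omega)
          | (apply tri_eq6; refine ⟨⟨?_, ?_, ?_⟩, ⟨?_, ?_, ?_⟩, ?_, ?_, ?_⟩ <;> dsimp only <;> omega)
    · refine ⟨((j + q + 1, q), (j + q, q + 1), (j + q + 1, q - 1)), ?_, ?_⟩
      · exact admB4 (by unfold offs; dsimp only; omega)
      · unfold tri cA cB cC
        first
          | (apply tri_eq1; refine ⟨⟨?_, ?_, ?_⟩, ⟨?_, ?_, ?_⟩, ?_, ?_, ?_⟩ <;> dsimp only <;> omega)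
          | (apply tri_eq2; refine ⟨⟨?_, ?_, ?_⟩, ⟨?_, ?_, ?_⟩, ?_, ?_, ?_⟩ <;> dsimp only <;> omega)
          | (apply tri_eq3; refine ⟨⟨?_, ?_, ?_⟩, ⟨?_, ?_, ?_⟩, ?_, ?_, ?_⟩ <;> dsimp only <;> omega)
          | (apply tri_eq4; refine ⟨⟨?_, ?_, ?_⟩, ⟨?_, ?_, ?_⟩, ?_, ?_, ?_⟩ <;> dsimp only <;> omega)
          | (apply tri_eq5; refine ⟨⟨?_, ?_, ?_⟩, ⟨?_, ?_, ?_⟩, ?_, ?_, ?_⟩ <;> dsimp only <;> omega)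
          | (apply tri_eq6; refine ⟨⟨?_, ?_, ?_⟩, ⟨?_, ?_, ?_⟩, ?_, ?_, ?_⟩ <;> dsimp only <;> omega)
  · rcases hq with hq | hq | hq
    · refine ⟨((j + q, q), (j + q, q + 1), (j + q, q)), ?_, ?_⟩
      · exact admB8 (by unfold offs; dsimp only; omega)
      · unfold tri cA cB cC
        first
          | (apply tri_eq1; refine ⟨⟨?_, ?_, ?_⟩, ⟨?_, ?_, ?_⟩, ?_, ?_, ?_⟩ <;> dsimp only <;> omega)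
          | (apply tri_eq2; refine ⟨⟨?_, ?_, ?_⟩, ⟨?_, ?_, ?_⟩, ?_, ?_, ?_⟩ <;> dsimp only <;> omega)
          | (apply tri_eq3; refine ⟨⟨?_, ?_, ?_⟩, ⟨?_, ?_, ?_⟩, ?_, ?_, ?_⟩ <;> dsimp only <;> omega)
          | (apply tri_eq4; refine ⟨⟨?_, ?_, ?_⟩, ⟨?_, ?_, ?_⟩, ?_, ?_, ?_⟩ <;> dsimp only <;> omega)
          | (apply tri_eq5; refine ⟨⟨?_, ?_, ?_⟩, ⟨?_, ?_, ?_⟩, ?_, ?_, ?_⟩ <;> dsimp only <;> omega)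
          | (apply tri_eq6; refine ⟨⟨?_, ?_, ?_⟩, ⟨?_, ?_, ?_⟩, ?_, ?_, ?_⟩ <;> dsimp only <;> omega)
    · refine ⟨((j + q + 1, q + 1), (j + q, q + 1), (j + q, q)), ?_, ?_⟩
      · exact admB1 (by unfold offs; dsimp only; omega)
      · unfold tri cA cB cC
        first
          | (apply tri_eq1; refine ⟨⟨?_, ?_, ?_⟩, ⟨?_, ?_, ?_⟩, ?_, ?_, ?_⟩ <;> dsimp only <;> omega)
          | (apply tri_eq2; refine ⟨⟨?_, ?_, ?_⟩, ⟨?_, ?_, ?_⟩, ?_, ?_, ?_⟩ <;> dsimp only <;> omega)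
          | (apply tri_eq3; refine ⟨⟨?_, ?_, ?_⟩, ⟨?_, ?_, ?_⟩, ?_, ?_, ?_⟩ <;> dsimp only <;> omega)
          | (apply tri_eq4; refine ⟨⟨?_, ?_, ?_⟩, ⟨?_, ?_, ?_⟩, ?_, ?_, ?_⟩ <;> dsimp only <;> omega)
          | (apply tri_eq5; refine ⟨⟨?_, ?_, ?_⟩, ⟨?_, ?_, ?_⟩, ?_, ?_, ?_⟩ <;> dsimp only <;> omega)
          | (apply tri_eq6; refine ⟨⟨?_, ?_, ?_⟩, ⟨?_, ?_, ?_⟩, ?_, ?_, ?_⟩ <;> dsimp only <;> omega)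
    · refine ⟨((j + q + 1, q + 1), (j + q, q + 1), (j + q + 1, q + 1)), ?_, ?_⟩
      · exact admB2 (by unfold offs; dsimp only; omega)
      · unfold tri cA cB cC
        first
          | (apply tri_eq1; refine ⟨⟨?_, ?_, ?_⟩, ⟨?_, ?_, ?_⟩, ?_, ?_, ?_⟩ <;> dsimp only <;> omega)
          | (apply tri_eq2; refine ⟨⟨?_, ?_, ?_⟩, ⟨?_, ?_, ?_⟩, ?_, ?_, ?_⟩ <;> dsimp only <;> omega)
          | (apply tri_eq3; refine ⟨⟨?_, ?_, ?_⟩, ⟨?_, ?_, ?_⟩, ?_, ?_, ?_⟩ <;> dsimp only <;> omega)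
          | (apply tri_eq4; refine ⟨⟨?_, ?_, ?_⟩, ⟨?_, ?_, ?_⟩, ?_, ?_, ?_⟩ <;> dsimp only <;> omega)
          | (apply tri_eq5; refine ⟨⟨?_, ?_, ?_⟩, ⟨?_, ?_, ?_⟩, ?_, ?_, ?_⟩ <;> dsimp only <;> omega)
          | (apply tri_eq6; refine ⟨⟨?_, ?_, ?_⟩, ⟨?_, ?_, ?_⟩, ?_, ?_, ?_⟩ <;> dsimp only <;> omega)

lemma isStone_tri {N : ℤ} {t : Tr} (h : AdmS t) : IsStone (tri N t) := by
  obtain ⟨⟨p, q⟩, ⟨b1, b2⟩, ⟨c1, c2⟩⟩ := t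
  unfold AdmS offs at h
  dsimp only at h
  rcases h with h | h | h | h | h | h
  · refine Or.inl ⟨N - 2 * p - q, p - q, p + 2 * q - N, by omega, ?_⟩
    unfold tri cA cB cC
    first
      | (apply tri_eq1; refine ⟨⟨?_, ?_, ?_⟩, ⟨?_, ?_, ?_⟩, ?_, ?_, ?_⟩ <;> dsimp only <;> omega)
      | (apply tri_eq2; refine ⟨⟨?_, ?_, ?_⟩, ⟨?_, ?_, ?_⟩, ?_, ?_, ?_⟩ <;> dsimp only <;> omega)
      | (apply tri_eq3; refine ⟨⟨?_, ?_, ?_⟩, ⟨?_, ?_, ?_⟩, ?_, ?_, ?_⟩ <;> dsimp only <;> omega)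
      | (apply tri_eq4; refine ⟨⟨?_, ?_, ?_⟩, ⟨?_, ?_, ?_⟩, ?_, ?_, ?_⟩ <;> dsimp only <;> omega)
      | (apply tri_eq5; refine ⟨⟨?_, ?_, ?_⟩, ⟨?_, ?_, ?_⟩, ?_, ?_, ?_⟩ <;> dsimp only <;> omega)
      | (apply tri_eq6; refine ⟨⟨?_, ?_, ?_⟩, ⟨?_, ?_, ?_⟩, ?_, ?_, ?_⟩ <;> dsimp only <;> omega)
  · refine Or.inr ⟨N - 2 * p - q + 2, p - q, p + 2 * q - N, by omega, ?_⟩
    unfold tri cA cB cC
    first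
      | (apply tri_eq1; refine ⟨⟨?_, ?_, ?_⟩, ⟨?_, ?_, ?_⟩, ?_, ?_, ?_⟩ <;> dsimp only <;> omega)
      | (apply tri_eq2; refine ⟨⟨?_, ?_, ?_⟩, ⟨?_, ?_, ?_⟩, ?_, ?_, ?_⟩ <;> dsimp only <;> omega)
      | (apply tri_eq3; refine ⟨⟨?_, ?_, ?_⟩, ⟨?_, ?_, ?_⟩, ?_, ?_, ?_⟩ <;> dsimp only <;> omega)
      | (apply tri_eq4; refine ⟨⟨?_, ?_, ?_⟩, ⟨?_, ?_, ?_⟩, ?_, ?_, ?_⟩ <;> dsimp only <;> omega)
      | (apply tri_eq5; refine ⟨⟨?_, ?_, ?_⟩, ⟨?_, ?_, ?_⟩, ?_, ?_, ?_⟩ <;> dsimp only <;> omega)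
      | (apply tri_eq6; refine ⟨⟨?_, ?_, ?_⟩, ⟨?_, ?_, ?_⟩, ?_, ?_, ?_⟩ <;> dsimp only <;> omega)
  · refine Or.inr ⟨N - 2 * p - q + 1, p - q, p + 2 * q - N + 1, by omega, ?_⟩
    unfold tri cA cB cC
    first
      | (apply tri_eq1; refine ⟨⟨?_, ?_, ?_⟩, ⟨?_, ?_, ?_⟩, ?_, ?_, ?_⟩ <;> dsimp only <;> omega)
      | (apply tri_eq2; refine ⟨⟨?_, ?_, ?_⟩, ⟨?_, ?_, ?_⟩, ?_, ?_, ?_⟩ <;> dsimp only <;> omega)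
      | (apply tri_eq3; refine ⟨⟨?_, ?_, ?_⟩, ⟨?_, ?_, ?_⟩, ?_, ?_, ?_⟩ <;> dsimp only <;> omega)
      | (apply tri_eq4; refine ⟨⟨?_, ?_, ?_⟩, ⟨?_, ?_, ?_⟩, ?_, ?_, ?_⟩ <;> dsimp only <;> omega)
      | (apply tri_eq5; refine ⟨⟨?_, ?_, ?_⟩, ⟨?_, ?_, ?_⟩, ?_, ?_, ?_⟩ <;> dsimp only <;> omega)
      | (apply tri_eq6; refine ⟨⟨?_, ?_, ?_⟩, ⟨?_, ?_, ?_⟩, ?_, ?_, ?_⟩ <;> dsimp only <;> omega)
  · refine Or.inr ⟨N - 2 * p - q + 1, p - q + 1, p + 2 * q - N, by omega, ?_⟩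
    unfold tri cA cB cC
    first
      | (apply tri_eq1; refine ⟨⟨?_, ?_, ?_⟩, ⟨?_, ?_, ?_⟩, ?_, ?_, ?_⟩ <;> dsimp only <;> omega)
      | (apply tri_eq2; refine ⟨⟨?_, ?_, ?_⟩, ⟨?_, ?_, ?_⟩, ?_, ?_, ?_⟩ <;> dsimp only <;> omega)
      | (apply tri_eq3; refine ⟨⟨?_, ?_, ?_⟩, ⟨?_, ?_, ?_⟩, ?_, ?_, ?_⟩ <;> dsimp only <;> omega)
      | (apply tri_eq4; refine ⟨⟨?_, ?_, ?_⟩, ⟨?_, ?_, ?_⟩, ?_, ?_, ?_⟩ <;> dsimp only <;> omega)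
      | (apply tri_eq5; refine ⟨⟨?_, ?_, ?_⟩, ⟨?_, ?_, ?_⟩, ?_, ?_, ?_⟩ <;> dsimp only <;> omega)
      | (apply tri_eq6; refine ⟨⟨?_, ?_, ?_⟩, ⟨?_, ?_, ?_⟩, ?_, ?_, ?_⟩ <;> dsimp only <;> omega)
  · refine Or.inl ⟨N - 2 * p - q + 1, p - q, p + 2 * q - N - 1, by omega, ?_⟩
    unfold tri cA cB cC
    first
      | (apply tri_eq1; refine ⟨⟨?_, ?_, ?_⟩, ⟨?_, ?_, ?_⟩, ?_, ?_, ?_⟩ <;> dsimp only <;> omega)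
      | (apply tri_eq2; refine ⟨⟨?_, ?_, ?_⟩, ⟨?_, ?_, ?_⟩, ?_, ?_, ?_⟩ <;> dsimp only <;> omega)
      | (apply tri_eq3; refine ⟨⟨?_, ?_, ?_⟩, ⟨?_, ?_, ?_⟩, ?_, ?_, ?_⟩ <;> dsimp only <;> omega)
      | (apply tri_eq4; refine ⟨⟨?_, ?_, ?_⟩, ⟨?_, ?_, ?_⟩, ?_, ?_, ?_⟩ <;> dsimp only <;> omega)
      | (apply tri_eq5; refine ⟨⟨?_, ?_, ?_⟩, ⟨?_, ?_, ?_⟩, ?_, ?_, ?_⟩ <;> dsimp only <;> omega)
      | (apply tri_eq6; refine ⟨⟨?_, ?_, ?_⟩, ⟨?_, ?_, ?_⟩, ?_, ?_, ?_⟩ <;> dsimp only <;> omega)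
  · refine Or.inl ⟨N - 2 * p - q + 1, p - q - 1, p + 2 * q - N, by omega, ?_⟩
    unfold tri cA cB cC
    first
      | (apply tri_eq1; refine ⟨⟨?_, ?_, ?_⟩, ⟨?_, ?_, ?_⟩, ?_, ?_, ?_⟩ <;> dsimp only <;> omega)
      | (apply tri_eq2; refine ⟨⟨?_, ?_, ?_⟩, ⟨?_, ?_, ?_⟩, ?_, ?_, ?_⟩ <;> dsimp only <;> omega)
      | (apply tri_eq3; refine ⟨⟨?_, ?_, ?_⟩, ⟨?_, ?_, ?_⟩, ?_, ?_, ?_⟩ <;> dsimp only <;> omega)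
      | (apply tri_eq4; refine ⟨⟨?_, ?_, ?_⟩, ⟨?_, ?_, ?_⟩, ?_, ?_, ?_⟩ <;> dsimp only <;> omega)
      | (apply tri_eq5; refine ⟨⟨?_, ?_, ?_⟩, ⟨?_, ?_, ?_⟩, ?_, ?_, ?_⟩ <;> dsimp only <;> omega)
      | (apply tri_eq6; refine ⟨⟨?_, ?_, ?_⟩, ⟨?_, ?_, ?_⟩, ?_, ?_, ?_⟩ <;> dsimp only <;> omega)

lemma isBone_tri {N : ℤ} {t : Tr} (h : AdmB t) : IsBone (tri N t) := by
  obtain ⟨⟨p, q⟩, ⟨b1, b2⟩, ⟨c1, c2⟩⟩ := t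
  unfold AdmB offs at h
  dsimp only at h
  rcases h with h | h | h | h | h | h | h | h | h
  · refine ⟨N - 2 * p - q + 1, p - q, p + 2 * q - N, by omega, Or.inl ?_⟩
    unfold tri cA cB cC
    first
      | (apply tri_eq1; refine ⟨⟨?_, ?_, ?_⟩, ⟨?_, ?_, ?_⟩, ?_, ?_, ?_⟩ <;> dsimp only <;> omega)
      | (apply tri_eq2; refine ⟨⟨?_, ?_, ?_⟩, ⟨?_, ?_, ?_⟩, ?_, ?_, ?_⟩ <;> dsimp only <;> omega)
      | (apply tri_eq3; refine ⟨⟨?_, ?_, ?_⟩, ⟨?_, ?_, ?_⟩, ?_, ?_, ?_⟩ <;> dsimp only <;> omega)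
      | (apply tri_eq4; refine ⟨⟨?_, ?_, ?_⟩, ⟨?_, ?_, ?_⟩, ?_, ?_, ?_⟩ <;> dsimp only <;> omega)
      | (apply tri_eq5; refine ⟨⟨?_, ?_, ?_⟩, ⟨?_, ?_, ?_⟩, ?_, ?_, ?_⟩ <;> dsimp only <;> omega)
      | (apply tri_eq6; refine ⟨⟨?_, ?_, ?_⟩, ⟨?_, ?_, ?_⟩, ?_, ?_, ?_⟩ <;> dsimp only <;> omega)
  · refine ⟨N - 2 * c1 - c2, c1 - c2, c1 + 2 * c2 - N + 1, by omega, Or.inr (Or.inr ?_)⟩
    unfold tri cA cB cC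
    first
      | (apply tri_eq1; refine ⟨⟨?_, ?_, ?_⟩, ⟨?_, ?_, ?_⟩, ?_, ?_, ?_⟩ <;> dsimp only <;> omega)
      | (apply tri_eq2; refine ⟨⟨?_, ?_, ?_⟩, ⟨?_, ?_, ?_⟩, ?_, ?_, ?_⟩ <;> dsimp only <;> omega)
      | (apply tri_eq3; refine ⟨⟨?_, ?_, ?_⟩, ⟨?_, ?_, ?_⟩, ?_, ?_, ?_⟩ <;> dsimp only <;> omega)
      | (apply tri_eq4; refine ⟨⟨?_, ?_, ?_⟩, ⟨?_, ?_, ?_⟩, ?_, ?_, ?_⟩ <;> dsimp only <;> omega)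
      | (apply tri_eq5; refine ⟨⟨?_, ?_, ?_⟩, ⟨?_, ?_, ?_⟩, ?_, ?_, ?_⟩ <;> dsimp only <;> omega)
      | (apply tri_eq6; refine ⟨⟨?_, ?_, ?_⟩, ⟨?_, ?_, ?_⟩, ?_, ?_, ?_⟩ <;> dsimp only <;> omega)
  · refine ⟨N - 2 * b1 - b2, b1 - b2 + 1, b1 + 2 * b2 - N, by omega, Or.inr (Or.inr ?_)⟩
    unfold tri cA cB cC
    first
      | (apply tri_eq1; refine ⟨⟨?_, ?_, ?_⟩, ⟨?_, ?_, ?_⟩, ?_, ?_, ?_⟩ <;> dsimp only <;> omega)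
      | (apply tri_eq2; refine ⟨⟨?_, ?_, ?_⟩, ⟨?_, ?_, ?_⟩, ?_, ?_, ?_⟩ <;> dsimp only <;> omega)
      | (apply tri_eq3; refine ⟨⟨?_, ?_, ?_⟩, ⟨?_, ?_, ?_⟩, ?_, ?_, ?_⟩ <;> dsimp only <;> omega)
      | (apply tri_eq4; refine ⟨⟨?_, ?_, ?_⟩, ⟨?_, ?_, ?_⟩, ?_, ?_, ?_⟩ <;> dsimp only <;> omega)
      | (apply tri_eq5; refine ⟨⟨?_, ?_, ?_⟩, ⟨?_, ?_, ?_⟩, ?_, ?_, ?_⟩ <;> dsimp only <;> omega)
      | (apply tri_eq6; refine ⟨⟨?_, ?_, ?_⟩, ⟨?_, ?_, ?_⟩, ?_, ?_, ?_⟩ <;> dsimp only <;> omega)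
  · refine ⟨N - 2 * c1 - c2, c1 - c2, c1 + 2 * c2 - N + 1, by omega, Or.inr (Or.inl ?_)⟩
    unfold tri cA cB cC
    first
      | (apply tri_eq1; refine ⟨⟨?_, ?_, ?_⟩, ⟨?_, ?_, ?_⟩, ?_, ?_, ?_⟩ <;> dsimp only <;> omega)
      | (apply tri_eq2; refine ⟨⟨?_, ?_, ?_⟩, ⟨?_, ?_, ?_⟩, ?_, ?_, ?_⟩ <;> dsimp only <;> omega)
      | (apply tri_eq3; refine ⟨⟨?_, ?_, ?_⟩, ⟨?_, ?_, ?_⟩, ?_, ?_, ?_⟩ <;> dsimp only <;> omega)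
      | (apply tri_eq4; refine ⟨⟨?_, ?_, ?_⟩, ⟨?_, ?_, ?_⟩, ?_, ?_, ?_⟩ <;> dsimp only <;> omega)
      | (apply tri_eq5; refine ⟨⟨?_, ?_, ?_⟩, ⟨?_, ?_, ?_⟩, ?_, ?_, ?_⟩ <;> dsimp only <;> omega)
      | (apply tri_eq6; refine ⟨⟨?_, ?_, ?_⟩, ⟨?_, ?_, ?_⟩, ?_, ?_, ?_⟩ <;> dsimp only <;> omega)
  · refine ⟨N - 2 * b1 - b2, b1 - b2 + 1, b1 + 2 * b2 - N, by omega, Or.inr (Or.inl ?_)⟩
    unfold tri cA cB cC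
    first
      | (apply tri_eq1; refine ⟨⟨?_, ?_, ?_⟩, ⟨?_, ?_, ?_⟩, ?_, ?_, ?_⟩ <;> dsimp only <;> omega)
      | (apply tri_eq2; refine ⟨⟨?_, ?_, ?_⟩, ⟨?_, ?_, ?_⟩, ?_, ?_, ?_⟩ <;> dsimp only <;> omega)
      | (apply tri_eq3; refine ⟨⟨?_, ?_, ?_⟩, ⟨?_, ?_, ?_⟩, ?_, ?_, ?_⟩ <;> dsimp only <;> omega)
      | (apply tri_eq4; refine ⟨⟨?_, ?_, ?_⟩, ⟨?_, ?_, ?_⟩, ?_, ?_, ?_⟩ <;> dsimp only <;> omega)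
      | (apply tri_eq5; refine ⟨⟨?_, ?_, ?_⟩, ⟨?_, ?_, ?_⟩, ?_, ?_, ?_⟩ <;> dsimp only <;> omega)
      | (apply tri_eq6; refine ⟨⟨?_, ?_, ?_⟩, ⟨?_, ?_, ?_⟩, ?_, ?_, ?_⟩ <;> dsimp only <;> omega)
  · refine ⟨N - 2 * p - q + 1, p - q, p + 2 * q - N, by omega, Or.inr (Or.inl ?_)⟩
    unfold tri cA cB cC
    first
      | (apply tri_eq1; refine ⟨⟨?_, ?_, ?_⟩, ⟨?_, ?_, ?_⟩, ?_, ?_, ?_⟩ <;> dsimp only <;> omega)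
      | (apply tri_eq2; refine ⟨⟨?_, ?_, ?_⟩, ⟨?_, ?_, ?_⟩, ?_, ?_, ?_⟩ <;> dsimp only <;> omega)
      | (apply tri_eq3; refine ⟨⟨?_, ?_, ?_⟩, ⟨?_, ?_, ?_⟩, ?_, ?_, ?_⟩ <;> dsimp only <;> omega)
      | (apply tri_eq4; refine ⟨⟨?_, ?_, ?_⟩, ⟨?_, ?_, ?_⟩, ?_, ?_, ?_⟩ <;> dsimp only <;> omega)
      | (apply tri_eq5; refine ⟨⟨?_, ?_, ?_⟩, ⟨?_, ?_, ?_⟩, ?_, ?_, ?_⟩ <;> dsimp only <;> omega)
      | (apply tri_eq6; refine ⟨⟨?_, ?_, ?_⟩, ⟨?_, ?_, ?_⟩, ?_, ?_, ?_⟩ <;> dsimp only <;> omega)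
  · refine ⟨N - 2 * b1 - b2, b1 - b2 + 1, b1 + 2 * b2 - N, by omega, Or.inl ?_⟩
    unfold tri cA cB cC
    first
      | (apply tri_eq1; refine ⟨⟨?_, ?_, ?_⟩, ⟨?_, ?_, ?_⟩, ?_, ?_, ?_⟩ <;> dsimp only <;> omega)
      | (apply tri_eq2; refine ⟨⟨?_, ?_, ?_⟩, ⟨?_, ?_, ?_⟩, ?_, ?_, ?_⟩ <;> dsimp only <;> omega)
      | (apply tri_eq3; refine ⟨⟨?_, ?_, ?_⟩, ⟨?_, ?_, ?_⟩, ?_, ?_, ?_⟩ <;> dsimp only <;> omega)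
      | (apply tri_eq4; refine ⟨⟨?_, ?_, ?_⟩, ⟨?_, ?_, ?_⟩, ?_, ?_, ?_⟩ <;> dsimp only <;> omega)
      | (apply tri_eq5; refine ⟨⟨?_, ?_, ?_⟩, ⟨?_, ?_, ?_⟩, ?_, ?_, ?_⟩ <;> dsimp only <;> omega)
      | (apply tri_eq6; refine ⟨⟨?_, ?_, ?_⟩, ⟨?_, ?_, ?_⟩, ?_, ?_, ?_⟩ <;> dsimp only <;> omega)
  · refine ⟨N - 2 * c1 - c2, c1 - c2, c1 + 2 * c2 - N + 1, by omega, Or.inl ?_⟩
    unfold tri cA cB cC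
    first
      | (apply tri_eq1; refine ⟨⟨?_, ?_, ?_⟩, ⟨?_, ?_, ?_⟩, ?_, ?_, ?_⟩ <;> dsimp only <;> omega)
      | (apply tri_eq2; refine ⟨⟨?_, ?_, ?_⟩, ⟨?_, ?_, ?_⟩, ?_, ?_, ?_⟩ <;> dsimp only <;> omega)
      | (apply tri_eq3; refine ⟨⟨?_, ?_, ?_⟩, ⟨?_, ?_, ?_⟩, ?_, ?_, ?_⟩ <;> dsimp only <;> omega)
      | (apply tri_eq4; refine ⟨⟨?_, ?_, ?_⟩, ⟨?_, ?_, ?_⟩, ?_, ?_, ?_⟩ <;> dsimp only <;> omega)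
      | (apply tri_eq5; refine ⟨⟨?_, ?_, ?_⟩, ⟨?_, ?_, ?_⟩, ?_, ?_, ?_⟩ <;> dsimp only <;> omega)
      | (apply tri_eq6; refine ⟨⟨?_, ?_, ?_⟩, ⟨?_, ?_, ?_⟩, ?_, ?_, ?_⟩ <;> dsimp only <;> omega)
  · refine ⟨N - 2 * p - q + 1, p - q, p + 2 * q - N, by omega, Or.inr (Or.inr ?_)⟩
    unfold tri cA cB cC
    first
      | (apply tri_eq1; refine ⟨⟨?_, ?_, ?_⟩, ⟨?_, ?_, ?_⟩, ?_, ?_, ?_⟩ <;> dsimp only <;> omega)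
      | (apply tri_eq2; refine ⟨⟨?_, ?_, ?_⟩, ⟨?_, ?_, ?_⟩, ?_, ?_, ?_⟩ <;> dsimp only <;> omega)
      | (apply tri_eq3; refine ⟨⟨?_, ?_, ?_⟩, ⟨?_, ?_, ?_⟩, ?_, ?_, ?_⟩ <;> dsimp only <;> omega)
      | (apply tri_eq4; refine ⟨⟨?_, ?_, ?_⟩, ⟨?_, ?_, ?_⟩, ?_, ?_, ?_⟩ <;> dsimp only <;> omega)
      | (apply tri_eq5; refine ⟨⟨?_, ?_, ?_⟩, ⟨?_, ?_, ?_⟩, ?_, ?_, ?_⟩ <;> dsimp only <;> omega)
      | (apply tri_eq6; refine ⟨⟨?_, ?_, ?_⟩, ⟨?_, ?_, ?_⟩, ?_, ?_, ?_⟩ <;> dsimp only <;> omega)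


end Pool.Agent.H33.Benzel
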