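import Mathlib

/-! Functions which are periodic modulo `2^k` with period a power of two, uniformly in a parameter. -/

open Finset

namespace Pool.Agent.H33.Benzel

/-- `f` is periodic modulo `2^k` in its first argument with period a power of two, uniformly in
the second argument. -/
def Per {X : Type*} (k : ℕ) (f : ℕ → X → ℤ) : Prop :=
  ∃ j : ℕ, ∀ n x, (2 ^ k : ℤ) ∣ f (n + 2 ^ j) x - f n x

namespace Per

variable {X Y : Type*} {k : ℕ} {f g : ℕ → X → ℤ}

lemma mul_period {f : ℕ → X → ℤ} {j : ℕ} (h : ∀ n x, (2 ^ k : ℤ) ∣ f (n + 2 ^ j) x - f n x)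
    (i : ℕ) : ∀ n x, (2 ^ k : ℤ) ∣ f (n + i * 2 ^ j) x - f n x := by
  induction i with
  | zero => intro n x; simp
  | succ i ih =>
    intro n x
    have h1 := h (n + i * 2 ^ j) x
    have h2 := ih n x
    have h3 : n + (i + 1) * 2 ^ j = n + i * 2 ^ j + 2 ^ j := by ring
    rw [h3]
    have := dvd_add h1 h2
    rwa [sub_add_sub_cancel] at this

lemma exists_of_le {f : ℕ → X → ℤ} {j j' : ℕ} (hj : j ≤ j')
    (h : ∀ n x, (2 ^ k : ℤ) ∣ f (n + 2 ^ j) x - f n x) :
    ∀ n x, (2 ^ k : ℤ) ∣ f (n + 2 ^ j') x - f n x := by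
  intro n x
  have := mul_period h (2 ^ (j' - j)) n x
  rwa [← pow_add, Nat.sub_add_cancel hj] at this

lemma add (hf : Per k f) (hg : Per k g) : Per k (fun n x => f n x + g n x) := by
  obtain ⟨j, hj⟩ := hf
  obtain ⟨j', hj'⟩ := hg
  refine ⟨max j j', fun n x => ?_⟩
  have h1 := exists_of_le (le_max_left j j') hj n x
  have h2 := exists_of_le (le_max_right j j') hj' n x
  have e : (f (n + 2 ^ max j j') x + g (n + 2 ^ max j j') x) - (f n x + g n x) =
    (f (n + 2 ^ max j j') x - f n x) + (g (n + 2 ^ max j j') x - g n x) := by ring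
  exact e ▸ dvd_add h1 h2

lemma mul (hf : Per k f) (hg : Per k g) : Per k (fun n x => f n x * g n x) := by
  obtain ⟨j, hj⟩ := hf
  obtain ⟨j', hj'⟩ := hg
  refine ⟨max j j', fun n x => ?_⟩
  have h1 := exists_of_le (le_max_left j j') hj n x
  have h2 := exists_of_le (le_max_right j j') hj' n x
  have e : (f (n + 2 ^ max j j') x * g (n + 2 ^ max j j') x) - (f n x * g n x) =
    (f (n + 2 ^ max j j') x - f n x) * g (n + 2 ^ max j j') x +
      f n x * (g (n + 2 ^ max j j') x - g n x) := by ring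
  exact e ▸ dvd_add (dvd_mul_of_dvd_left h1 _) (dvd_mul_of_dvd_right h2 _)

lemma neg (hf : Per k f) : Per k (fun n x => - f n x) := by
  obtain ⟨j, hj⟩ := hf
  refine ⟨j, fun n x => ?_⟩
  have e : -f (n + 2 ^ j) x - -f n x = -(f (n + 2 ^ j) x - f n x) := by ring
  exact e ▸ (dvd_neg.mpr (hj n x))

lemma sub (hf : Per k f) (hg : Per k g) : Per k (fun n x => f n x - g n x) := by
  have := hf.add hg.neg
  simpa only [sub_eq_add_neg] using this

lemma const (c : X → ℤ) : Per k (fun _ x => c x) := ⟨0, fun n x => by simp⟩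

lemma comp (hf : Per k f) (c : Y → ℕ) (φ : Y → X) :
    Per k (fun n y => f (n + c y) (φ y)) := by
  obtain ⟨j, hj⟩ := hf
  refine ⟨j, fun n y => ?_⟩
  have := hj (n + c y) (φ y)
  have h3 : n + c y + 2 ^ j = n + 2 ^ j + c y := by ring
  rwa [h3] at this

lemma sum {ι : Type*} (s : Finset ι) {F : ι → ℕ → X → ℤ} (h : ∀ i ∈ s, Per k (F i)) :
    Per k (fun n x => ∑ i ∈ s, F i n x) := by
  classical
  induction s using Finset.induction_on with
  | empty => exact ⟨0, fun n x => by simp⟩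
  | insert i s hi ih =>
    have h1 : Per k (F i) := h i (mem_insert_self i s)
    have h2 := ih (fun i' hi' => h i' (mem_insert_of_mem hi'))
    have := h1.add h2
    simp only [sum_insert hi]
    exact this

end Per

/-- The sum over many periods vanishes. -/
lemma block_sum {k Q : ℕ} (h : ℕ → ℤ) (hper : ∀ i, i + Q < 2 ^ k * Q → (2 ^ k : ℤ) ∣ h (i + Q) - h i) :
    (2 ^ k : ℤ) ∣ ∑ i ∈ range (2 ^ k * Q), h i := by
  have h1 : ∀ b, b ≤ 2 ^ k → ∀ a, a < Q → b < 2 ^ k → (2 ^ k : ℤ) ∣ h (b * Q + a) - h a := by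
    intro b
    induction b with
    | zero => intro _ a _ _; simp
    | succ b ih =>
      intro hb a ha hb'
      have h2 := ih (by omega) a ha (by omega)
      have h3 : b * Q + a + Q < 2 ^ k * Q := by
        have : (b + 2) * Q ≤ 2 ^ k * Q := Nat.mul_le_mul_right Q (by omega)
        nlinarith
      have h4 := hper (b * Q + a) h3
      have h5 : (b + 1) * Q + a = b * Q + a + Q := by ring
      rw [h5]
      have := dvd_add h4 h2
      rwa [sub_add_sub_cancel] at this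
  have h2 : ∀ b, b ≤ 2 ^ k → (2 ^ k : ℤ) ∣ ∑ i ∈ range (b * Q), h i - b * ∑ a ∈ range Q, h a := by
    intro b
    induction b with
    | zero => intro _; simp
    | succ b ih =>
      intro hb
      have h3 := ih (by omega)
      have h4 : (b + 1) * Q = b * Q + Q := by ring
      rw [h4, sum_range_add]
      have h5 : (2 ^ k : ℤ) ∣ ∑ a ∈ range Q, h (b * Q + a) - ∑ a ∈ range Q, h a := by
        rw [← sum_sub_distrib]
        apply dvd_sum
        intro a ha
        exact h1 b (by omega) a (mem_range.mp ha) (by omega)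
      have e : (∑ i ∈ range (b * Q), h i + ∑ x ∈ range Q, h (b * Q + x)) -
          ((b + 1 : ℕ) : ℤ) * ∑ a ∈ range Q, h a =
          (∑ i ∈ range (b * Q), h i - b * ∑ a ∈ range Q, h a) +
            (∑ a ∈ range Q, h (b * Q + a) - ∑ a ∈ range Q, h a) := by push_cast; ring
      rw [e]
      exact dvd_add h3 h5
  have h3 := h2 (2 ^ k) le_rfl
  have h4 : (2 ^ k : ℤ) ∣ ((2 ^ k : ℕ) : ℤ) * ∑ a ∈ range Q, h a := by
    push_cast
    exact dvd_mul_right _ _
  have := dvd_add h3 h4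
  rwa [sub_add_cancel] at this

/-- Sums over `s + t = m` of periodic functions are periodic. -/
lemma Per.simplex {X : Type*} {k : ℕ} {F : ℕ → ℕ → X → ℤ}
    (h1 : Per k (fun s (p : ℕ × X) => F s p.1 p.2)) (h2 : Per k (fun t (p : ℕ × X) => F p.1 t p.2)) :
    Per k (fun m x => ∑ s ∈ range (m + 1), F s (m - s) x) := by
  obtain ⟨j1, hj1⟩ := h1
  obtain ⟨j2, hj2⟩ := h2
  set j := max j1 j2 with hj
  have h1 : ∀ s t x, (2 ^ k : ℤ) ∣ F (s + 2 ^ j) t x - F s t x := fun s t x =>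
    Per.exists_of_le (f := fun s (p : ℕ × X) => F s p.1 p.2) (le_max_left j1 j2) hj1 s (t, x)
  have h2 : ∀ s t x, (2 ^ k : ℤ) ∣ F s (t + 2 ^ j) x - F s t x := fun s t x =>
    Per.exists_of_le (f := fun t (p : ℕ × X) => F p.1 t p.2) (le_max_right j1 j2) hj2 t (s, x)
  refine ⟨k + j, fun m x => ?_⟩
  have hR : (2 : ℕ) ^ (k + j) = 2 ^ k * 2 ^ j := pow_add 2 k j
  have e1 : m + 2 ^ (k + j) + 1 = (m + 1) + 2 ^ (k + j) := by ring
  simp only
  rw [e1, sum_range_add]
  have d1 : (2 ^ k : ℤ) ∣ ∑ s ∈ range (m + 1), F s (m + 2 ^ (k + j) - s) x -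
      ∑ s ∈ range (m + 1), F s (m - s) x := by
    rw [← sum_sub_distrib]
    apply dvd_sum
    intro s hs
    rw [mem_range] at hs
    have e2 : m + 2 ^ (k + j) - s = (m - s) + 2 ^ k * 2 ^ j := by rw [hR]; omega
    rw [e2]
    exact Per.mul_period (f := fun t (p : ℕ × X) => F p.1 t p.2)
      (fun n p => h2 p.1 n p.2) (2 ^ k) (m - s) (s, x)
  have d2 : (2 ^ k : ℤ) ∣ ∑ i ∈ range (2 ^ (k + j)), F (m + 1 + i) (m + 2 ^ (k + j) - (m + 1 + i)) x := by
    rw [hR]
    apply block_sum (fun i => F (m + 1 + i) (m + 2 ^ k * 2 ^ j - (m + 1 + i)) x)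
    intro i hi
    have a1 := h1 (m + 1 + i) (m + 2 ^ k * 2 ^ j - (m + 1 + (i + 2 ^ j))) x
    have a2 := h2 (m + 1 + i) (m + 2 ^ k * 2 ^ j - (m + 1 + (i + 2 ^ j))) x
    have e3 : m + 2 ^ k * 2 ^ j - (m + 1 + (i + 2 ^ j)) + 2 ^ j =
        m + 2 ^ k * 2 ^ j - (m + 1 + i) := by
      generalize 2 ^ k * 2 ^ j = R at hi ⊢
      generalize 2 ^ j = Q at hi ⊢
      omega
    rw [e3] at a2
    have e4 : m + 1 + i + 2 ^ j = m + 1 + (i + 2 ^ j) := by ring
    rw [e4] at a1
    have e : F (m + 1 + (i + 2 ^ j)) (m + 2 ^ k * 2 ^ j - (m + 1 + (i + 2 ^ j))) x -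
        F (m + 1 + i) (m + 2 ^ k * 2 ^ j - (m + 1 + i)) x =
        (F (m + 1 + (i + 2 ^ j)) (m + 2 ^ k * 2 ^ j - (m + 1 + (i + 2 ^ j))) x -
          F (m + 1 + i) (m + 2 ^ k * 2 ^ j - (m + 1 + (i + 2 ^ j))) x) -
        (F (m + 1 + i) (m + 2 ^ k * 2 ^ j - (m + 1 + i)) x -
          F (m + 1 + i) (m + 2 ^ k * 2 ^ j - (m + 1 + (i + 2 ^ j))) x) := by ring
    rw [e]
    exact dvd_sub a1 a2
  have e : (∑ s ∈ range (m + 1), F s (m + 2 ^ (k + j) - s) x +
      ∑ i ∈ range (2 ^ (k + j)), F (m + 1 + i) (m + 2 ^ (k + j) - (m + 1 + i)) x) -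
      ∑ s ∈ range (m + 1), F s (m - s) x =
      (∑ s ∈ range (m + 1), F s (m + 2 ^ (k + j) - s) x -
      ∑ s ∈ range (m + 1), F s (m - s) x) +
      ∑ i ∈ range (2 ^ (k + j)), F (m + 1 + i) (m + 2 ^ (k + j) - (m + 1 + i)) x := by ring
  rw [e]
  exact dvd_add d1 d2

/-- Partial sums of periodic functions are periodic. -/
lemma Per.partialSum {X : Type*} {k : ℕ} {f : ℕ → X → ℤ} (h : Per k f) :
    Per k (fun n x => ∑ s ∈ range n, f s x) := by
  obtain ⟨j, hj⟩ := h
  refine ⟨k + j, fun n x => ?_⟩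
  have hR : (2 : ℕ) ^ (k + j) = 2 ^ k * 2 ^ j := pow_add 2 k j
  simp only
  rw [sum_range_add, add_sub_cancel_left, hR]
  apply block_sum (fun i => f (n + i) x)
  intro i _
  have := hj (n + i) x
  simpa only [add_assoc] using this

end Pool.Agent.H33.Benzel
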