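import Pool.Agent.H33.Benzel.Tiling

/-! The recursion for the weighted counts of regions with three defects. -/

open Finset

namespace Pool.Agent.H33.Benzel

/-- the triangle of stones -/
noncomputable def Tri (N : ℤ) : Finset St :=
  (Icc 0 N ×ˢ Icc 0 N).filter (fun s => s.1 + s.2 ≤ N)

lemma mem_Tri {N : ℤ} {s : St} : s ∈ Tri N ↔ 0 ≤ s.1 ∧ 0 ≤ s.2 ∧ s.1 + s.2 ≤ N := by
  unfold Tri
  rw [mem_filter, mem_product, mem_Icc, mem_Icc]
  omega

/-- the region `M` with sources `xa = (N,0)`, `xb = (0,N)`, `xc = (0,0)` and targets `α, β, γ` -/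
def RegT (N : ℤ) (M : Finset St) (α β γ : St) : Finset Cell :=
  Reg N (M \ {(0, N), (0, 0), α}) (M \ {(N, 0), (0, 0), β}) (M \ {(N, 0), (0, N), γ})

/-- the region `M` with sources only -/
def RegS (N : ℤ) (M : Finset St) : Finset Cell :=
  Reg N (M \ {(0, N), (0, 0)}) (M \ {(N, 0), (0, 0)}) (M \ {(N, 0), (0, N)})

/-- The hypotheses under which the recursion is run. -/
structure Inv (N : ℤ) (M : Finset St) (α β γ : St) : Prop where
  pos : 1 ≤ N
  sub : M ⊆ Tri N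
  mem_a : ((N, 0) : St) ∈ M
  mem_b : ((0, N) : St) ∈ M
  mem_c : ((0, 0) : St) ∈ M
  mem_α : α ∈ M
  mem_β : β ∈ M
  mem_γ : γ ∈ M
  sink : Sink (α, β, γ)
  zoneA : ∀ o ∈ Tri N, α.1 ≤ o.1 → α.1 + α.2 ≤ o.1 + o.2 → o ∈ M
  zoneB : ∀ o ∈ Tri N, β.2 ≤ o.2 → o.1 ≤ β.1 → o ∈ M
  zoneC : ∀ o ∈ Tri N, o.2 ≤ γ.2 → o.1 + o.2 ≤ γ.1 + γ.2 → o ∈ M

noncomputable def trs (N : ℤ) (A B C : Finset St) (τ : Finset (Finset Cell)) : Finset Tr :=
  (A ×ˢ B ×ˢ C).filter (fun t => tri N t ∈ τ)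

lemma mem_trs {N : ℤ} {A B C : Finset St} {τ : Finset (Finset Cell)}
    (hτ : IsTiling (Reg N A B C) τ) {t : Tr} : t ∈ trs N A B C τ ↔ tri N t ∈ τ := by
  unfold trs
  rw [mem_filter, mem_product, mem_product]
  constructor
  · exact fun h => h.2
  · intro h
    have := mem_of_tri_mem hτ h
    exact ⟨this, h⟩

lemma config_top {N : ℤ} {M : Finset St} (hN : 1 ≤ N) (hM : M ⊆ Tri N)
    (ha : ((N, 0) : St) ∈ M) (hb : ((0, N) : St) ∈ M) (hc : ((0, 0) : St) ∈ M)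
    {τ : Finset (Finset Cell)} (hτ : IsTiling (RegS N M) τ) :
    Config N M (N, 0) (0, N) (0, 0)
      (trs N (M \ {(0, N), (0, 0)}) (M \ {(N, 0), (0, 0)}) (M \ {(N, 0), (0, N)}) τ) := by
  unfold RegS at hτ
  constructor
  · simp only [ne_eq, Prod.mk.injEq]; omega
  · simp only [ne_eq, Prod.mk.injEq]; omega
  · simp only [ne_eq, Prod.mk.injEq]; omega
  · exact ha
  · exact hb
  · exact hc
  · intro s hs
    exact mem_Tri.mp (hM hs)
  · intro t ht
    exact adm_mono (adm_of_mem hτ ((mem_trs hτ).mp ht))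
  · intro t ht
    exact adm_shape (adm_of_mem hτ ((mem_trs hτ).mp ht))
  · intro t ht t' ht' h
    exact eq_of_A hτ ((mem_trs hτ).mp ht) ((mem_trs hτ).mp ht') h
  · intro t ht t' ht' h
    exact eq_of_B hτ ((mem_trs hτ).mp ht) ((mem_trs hτ).mp ht') h
  · intro t ht t' ht' h
    exact eq_of_C hτ ((mem_trs hτ).mp ht) ((mem_trs hτ).mp ht') h
  · intro s hs h1 h2
    obtain ⟨t, ht, hts⟩ := exists_of_mem_A (s := s) hτ (by simp [hs, h1, h2])
    exact ⟨t, (mem_trs hτ).mpr ht, hts⟩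
  · intro s hs h1 h2
    obtain ⟨t, ht, hts⟩ := exists_of_mem_B (s := s) hτ (by simp [hs, h1, h2])
    exact ⟨t, (mem_trs hτ).mpr ht, hts⟩
  · intro s hs h1 h2
    obtain ⟨t, ht, hts⟩ := exists_of_mem_C (s := s) hτ (by simp [hs, h1, h2])
    exact ⟨t, (mem_trs hτ).mpr ht, hts⟩
  · intro t ht
    have := (mem_of_tri_mem hτ ((mem_trs hτ).mp ht)).1
    simpa only [mem_sdiff, mem_insert, mem_singleton, not_or] using this
  · intro t ht
    have := (mem_of_tri_mem hτ ((mem_trs hτ).mp ht)).2.1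
    simpa only [mem_sdiff, mem_insert, mem_singleton, not_or] using this
  · intro t ht
    have := (mem_of_tri_mem hτ ((mem_trs hτ).mp ht)).2.2
    simpa only [mem_sdiff, mem_insert, mem_singleton, not_or] using this

/-- positions of the targets relative to the sources -/
lemma Inv.facts {N : ℤ} {M : Finset St} {α β γ : St} (h : Inv N M α β γ) :
    1 ≤ α.1 ∧ 1 ≤ β.2 ∧ γ.1 + γ.2 < N ∧ 0 ≤ α.2 ∧ α.1 + α.2 ≤ N ∧ 0 ≤ β.1 ∧ β.1 + β.2 ≤ N ∧
      0 ≤ γ.1 ∧ 0 ≤ γ.2 ∧ β.1 < α.1 ∧ γ.2 < β.2 ∧ γ.1 + γ.2 < α.1 + α.2 := by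
  have h1 := mem_Tri.mp (h.sub h.mem_α)
  have h2 := mem_Tri.mp (h.sub h.mem_β)
  have h3 := mem_Tri.mp (h.sub h.mem_γ)
  have h4 := h.sink
  unfold Sink at h4
  simp only at h4
  omega

lemma config_virt {N : ℤ} {M : Finset St} {α β γ : St} (h : Inv N M α β γ)
    {τ : Finset (Finset Cell)} (hτ : IsTiling (RegT N M α β γ) τ) :
    Config N M (N, 0) (0, N) (0, 0) (insert (α, β, γ)
      (trs N (M \ {(0, N), (0, 0), α}) (M \ {(N, 0), (0, 0), β}) (M \ {(N, 0), (0, N), γ}) τ)) := by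
  have hf := h.facts
  have hN := h.pos
  have hτ' := hτ
  unfold RegT at hτ'
  have hA : ∀ t, tri N t ∈ τ → t.1 ∈ M ∧ t.1 ≠ (0, N) ∧ t.1 ≠ (0, 0) ∧ t.1 ≠ α := by
    intro t ht
    have := (mem_of_tri_mem hτ' ht).1
    simpa only [mem_sdiff, mem_insert, mem_singleton, not_or] using this
  have hB : ∀ t, tri N t ∈ τ → t.2.1 ∈ M ∧ t.2.1 ≠ (N, 0) ∧ t.2.1 ≠ (0, 0) ∧ t.2.1 ≠ β := by
    intro t ht
    have := (mem_of_tri_mem hτ' ht).2.1
    simpa only [mem_sdiff, mem_insert, mem_singleton, not_or] using this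
  have hC : ∀ t, tri N t ∈ τ → t.2.2 ∈ M ∧ t.2.2 ≠ (N, 0) ∧ t.2.2 ≠ (0, N) ∧ t.2.2 ≠ γ := by
    intro t ht
    have := (mem_of_tri_mem hτ' ht).2.2
    simpa only [mem_sdiff, mem_insert, mem_singleton, not_or] using this
  constructor
  · simp only [ne_eq, Prod.mk.injEq]; omega
  · simp only [ne_eq, Prod.mk.injEq]; omega
  · simp only [ne_eq, Prod.mk.injEq]; omega
  · exact h.mem_a
  · exact h.mem_b
  · exact h.mem_c
  · intro s hs
    exact mem_Tri.mp (h.sub hs)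
  · intro t ht
    rw [mem_insert] at ht
    rcases ht with rfl | ht
    · simp only; omega
    · exact adm_mono (adm_of_mem hτ' ((mem_trs hτ').mp ht))
  · intro t ht
    rw [mem_insert] at ht
    rcases ht with rfl | ht
    · exact Or.inr (Or.inr (Or.inr (Or.inr h.sink)))
    · exact adm_shape (adm_of_mem hτ' ((mem_trs hτ').mp ht))
  · intro t ht t' ht' he
    rw [mem_insert] at ht ht'
    rcases ht with rfl | ht <;> rcases ht' with rfl | ht'
    · rfl
    · exact absurd he.symm (hA _ ((mem_trs hτ').mp ht')).2.2.2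
    · exact absurd he (hA _ ((mem_trs hτ').mp ht)).2.2.2
    · exact eq_of_A hτ' ((mem_trs hτ').mp ht) ((mem_trs hτ').mp ht') he
  · intro t ht t' ht' he
    rw [mem_insert] at ht ht'
    rcases ht with rfl | ht <;> rcases ht' with rfl | ht'
    · rfl
    · exact absurd he.symm (hB _ ((mem_trs hτ').mp ht')).2.2.2
    · exact absurd he (hB _ ((mem_trs hτ').mp ht)).2.2.2
    · exact eq_of_B hτ' ((mem_trs hτ').mp ht) ((mem_trs hτ').mp ht') he
  · intro t ht t' ht' he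
    rw [mem_insert] at ht ht'
    rcases ht with rfl | ht <;> rcases ht' with rfl | ht'
    · rfl
    · exact absurd he.symm (hC _ ((mem_trs hτ').mp ht')).2.2.2
    · exact absurd he (hC _ ((mem_trs hτ').mp ht)).2.2.2
    · exact eq_of_C hτ' ((mem_trs hτ').mp ht) ((mem_trs hτ').mp ht') he
  · intro s hs h1 h2
    by_cases h3 : s = α
    · exact ⟨_, mem_insert_self _ _, h3.symm⟩
    · obtain ⟨t, ht, hts⟩ := exists_of_mem_A (s := s) hτ' (by simp [hs, h1, h2, h3])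
      exact ⟨t, mem_insert_of_mem ((mem_trs hτ').mpr ht), hts⟩
  · intro s hs h1 h2
    by_cases h3 : s = β
    · exact ⟨_, mem_insert_self _ _, h3.symm⟩
    · obtain ⟨t, ht, hts⟩ := exists_of_mem_B (s := s) hτ' (by simp [hs, h1, h2, h3])
      exact ⟨t, mem_insert_of_mem ((mem_trs hτ').mpr ht), hts⟩
  · intro s hs h1 h2
    by_cases h3 : s = γ
    · exact ⟨_, mem_insert_self _ _, h3.symm⟩
    · obtain ⟨t, ht, hts⟩ := exists_of_mem_C (s := s) hτ' (by simp [hs, h1, h2, h3])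
      exact ⟨t, mem_insert_of_mem ((mem_trs hτ').mpr ht), hts⟩
  · intro t ht
    rw [mem_insert] at ht
    rcases ht with rfl | ht
    · refine ⟨h.mem_α, ?_, ?_⟩ <;> simp only [ne_eq, Prod.ext_iff] <;> omega
    · have := hA _ ((mem_trs hτ').mp ht)
      exact ⟨this.1, this.2.1, this.2.2.1⟩
  · intro t ht
    rw [mem_insert] at ht
    rcases ht with rfl | ht
    · refine ⟨h.mem_β, ?_, ?_⟩ <;> simp only [ne_eq, Prod.ext_iff] <;> omega
    · have := hB _ ((mem_trs hτ').mp ht)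
      exact ⟨this.1, this.2.1, this.2.2.1⟩
  · intro t ht
    rw [mem_insert] at ht
    rcases ht with rfl | ht
    · refine ⟨h.mem_γ, ?_, ?_⟩ <;> simp only [ne_eq, Prod.ext_iff] <;> omega
    · have := hC _ ((mem_trs hτ').mp ht)
      exact ⟨this.1, this.2.1, this.2.2.1⟩

end Pool.Agent.H33.Benzel
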