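import Pool.Agent.H33.Benzel.Steps

/-! The one-step recursion for the `a`-target. -/

open Finset

namespace Pool.Agent.H33.Benzel

lemma Inv.nextA {N : ℤ} {M : Finset St} {α β γ g : St} (h : Inv N M α β γ) (hα : α ≠ (N, 0))
    (hg : g ∈ Tri N)
    (hcase : g = (α.1 + 1, α.2 - 1) ∨ g = (α.1, α.2 + 1) ∨ g = (α.1 + 1, α.2)) :
    Inv N (M.erase α) g β γ := by
  have hf := h.facts
  have hN := h.pos
  obtain ⟨γ1, γ2⟩ := γ
  obtain ⟨g1, g2⟩ := g
  obtain ⟨α1, α2⟩ := α
  obtain ⟨β1, β2⟩ := β
  rw [mem_Tri] at hg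
  simp only [Prod.mk.injEq, ne_eq] at hcase hα hf hg
  constructor
  · exact hN
  · exact (erase_subset _ _).trans h.sub
  · rw [mem_erase]; exact ⟨by simp only [ne_eq, Prod.mk.injEq]; omega, h.mem_a⟩
  · rw [mem_erase]; exact ⟨by simp only [ne_eq, Prod.mk.injEq]; omega, h.mem_b⟩
  · rw [mem_erase]; exact ⟨by simp only [ne_eq, Prod.mk.injEq]; omega, h.mem_c⟩
  · rw [mem_erase]
    refine ⟨by simp only [ne_eq, Prod.mk.injEq]; omega, ?_⟩
    exact h.zoneA _ (mem_Tri.mpr hg) (by simp only; omega) (by simp only; omega)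
  · rw [mem_erase]; exact ⟨by simp only [ne_eq, Prod.mk.injEq]; omega, h.mem_β⟩
  · rw [mem_erase]; exact ⟨by simp only [ne_eq, Prod.mk.injEq]; omega, h.mem_γ⟩
  · have := h.sink
    unfold Sink at this ⊢
    simp only at this ⊢
    omega
  · intro o ho h1 h2
    simp only at h1 h2
    rw [mem_erase]
    refine ⟨?_, h.zoneA o ho (by simp only; omega) (by simp only; omega)⟩
    rintro rfl
    simp only at h1 h2
    omega
  · intro o ho h1 h2
    simp only at h1 h2
    rw [mem_erase]
    refine ⟨?_, h.zoneB o ho (by simp only; omega) (by simp only; omega)⟩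
    rintro rfl
    simp only at h1 h2
    omega
  · intro o ho h1 h2
    simp only at h1 h2
    rw [mem_erase]
    refine ⟨?_, h.zoneC o ho (by simp only; omega) (by simp only; omega)⟩
    rintro rfl
    simp only at h1 h2
    omega

open scoped Classical in
theorem stepA {N : ℤ} {M : Finset St} {α β γ : St} (h : Inv N M α β γ) (hα : α ≠ (N, 0))
    (w : ℕ) :
    weightedCount (RegT N M α β γ) w =
      (if (α.1 + 1, α.2 - 1) ∈ Tri N then
        weightedCount (RegT N (M.erase α) (α.1 + 1, α.2 - 1) β γ) w else 0) +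
      (if (α.1, α.2 + 1) ∈ Tri N then
        weightedCount (RegT N (M.erase α) (α.1, α.2 + 1) β γ) w else 0) +
      w * (if (α.1 + 1, α.2) ∈ Tri N then
        weightedCount (RegT N (M.erase α) (α.1 + 1, α.2) β γ) w else 0) := by
  have hf := h.facts
  have hN := h.pos
  have hαγ : α ≠ γ := fun he => by rw [he] at hf; omega
  have hγα : γ ≠ α := fun he => by rw [he] at hf; omega
  have hγβ : γ ≠ β := fun he => by rw [he] at hf; omega
  have hβγ : β ≠ γ := fun he => by rw [he] at hf; omega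
  have hαβ : α ≠ β := fun he => by rw [he] at hf; omega
  have hβα : β ≠ α := fun he => by rw [he] at hf; omega
  set cand : Finset Tr := ({((α.1 + 1, α.2 - 1), α, α), ((α.1, α.2 + 1), α, α),
    ((α.1 + 1, α.2), α, α)} : Finset Tr).filter (fun t => t.1 ∈ Tri N) with hcand
  have hmem : ∀ t, t ∈ cand ↔ ((t = ((α.1 + 1, α.2 - 1), α, α) ∨ t = ((α.1, α.2 + 1), α, α) ∨
      t = ((α.1 + 1, α.2), α, α)) ∧ t.1 ∈ Tri N) := by
    intro t
    rw [hcand, mem_filter, mem_insert, mem_insert, mem_singleton]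
  have key := step_general (N := N) (A := M \ {(0, N), (0, 0), α}) (B := M \ {(N, 0), (0, 0), β})
    (C := M \ {(N, 0), (0, N), γ}) w cand ?_ ?_
  · have hR : ∀ g, Reg N ((M \ {(0, N), (0, 0), α}).erase g)
        ((M \ {(N, 0), (0, 0), β}).erase α) ((M \ {(N, 0), (0, N), γ}).erase α) =
          RegT N (M.erase α) g β γ := by
      intro g
      unfold RegT
      rw [sdiff_erase_t, sdiff_erase_c, sdiff_erase_c]
    have h0 : RegT N M α β γ = Reg N (M \ {(0, N), (0, 0), α}) (M \ {(N, 0), (0, 0), β})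
      (M \ {(N, 0), (0, N), γ}) := rfl
    rw [h0, key, hcand, sum_filter, sum_insert, sum_insert, sum_singleton]
    · simp only [hR]
      have w1 : wtT w ((α.1 + 1, α.2 - 1), α, α) = 1 := by
        unfold wtT
        rw [if_neg]
        unfold AdmS offs
        simp only
        omega
      have w2 : wtT w ((α.1, α.2 + 1), α, α) = 1 := by
        unfold wtT
        rw [if_neg]
        unfold AdmS offs
        simp only
        omega
      have w3 : wtT w ((α.1 + 1, α.2), α, α) = w := by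
        unfold wtT
        rw [if_pos]
        unfold AdmS offs
        dsimp only
        omega
      rw [w1, w2, w3, one_mul, one_mul, mul_ite, mul_zero, add_assoc]
    · simp only [mem_singleton, Prod.mk.injEq]
      omega
    · simp only [mem_insert, mem_singleton, Prod.mk.injEq]
      omega
  · intro t ht
    rw [hmem] at ht
    obtain ⟨h1, h2⟩ := ht
    have hM : t.1 ∈ M ∧ t.1 ≠ (0, N) ∧ t.1 ≠ (0, 0) ∧ t.1 ≠ α := by
      refine ⟨h.zoneA _ h2 ?_ ?_, ?_, ?_, ?_⟩ <;>
      rcases h1 with rfl | rfl | rfl <;> simp only [ne_eq, Prod.ext_iff] <;> omega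
    have h3 : t.2.1 = α ∧ t.2.2 = α := by
      rcases h1 with rfl | rfl | rfl <;> exact ⟨rfl, rfl⟩
    refine ⟨?_, ?_, ?_, ?_⟩
    · rcases h1 with rfl | rfl | rfl
      · exact Or.inr (admB3 (by unfold offs; dsimp only; omega))
      · exact Or.inr (admB5 (by unfold offs; dsimp only; omega))
      · exact Or.inl (admS1 (by unfold offs; dsimp only; omega))
    · rw [mem_sdiff, mem_insert, mem_insert, mem_singleton]
      exact ⟨hM.1, by tauto⟩
    · rw [h3.1, mem_sdiff, mem_insert, mem_insert, mem_singleton]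
      refine ⟨h.mem_α, ?_⟩
      rintro (h4 | h4 | h4)
      · exact hα h4
      · rw [h4] at hf; omega
      · exact hαβ h4
    · rw [h3.2, mem_sdiff, mem_insert, mem_insert, mem_singleton]
      refine ⟨h.mem_α, ?_⟩
      rintro (h4 | h4 | h4)
      · exact hα h4
      · rw [h4] at hf; omega
      · exact hαγ h4
  · intro τ hτ
    have hcfg := config_virt h hτ
    have hXM : α ≠ (0, N) ∧ α ≠ (0, 0) := by
      refine ⟨?_, ?_⟩ <;> (intro h4; rw [h4] at hf; omega)
    obtain ⟨t, ht, hsp⟩ := hcfg.exists_pair h.mem_α hα hXM.1 hXM.2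
    have hX : t.1 ≠ α := by
      intro h5
      have := hcfg.injA t ht (α, β, γ) (mem_insert_self _ _) h5
      rw [this] at hsp
      simp only at hsp
      tauto
    have h12 : t.2.1 = α ∧ t.2.2 = α := by
      tauto
    have ht' : tri N t ∈ τ := by
      rw [mem_insert] at ht
      rcases ht with rfl | ht
      · exact absurd rfl hX
      · exact (mem_trs hτ).mp ht
    refine ⟨t, ⟨?_, ht'⟩, ?_⟩
    · rw [hmem]
      have hadm := adm_of_mem hτ ht'
      have hTri : t.1 ∈ Tri N := h.sub (hcfg.inA t ht).1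
      refine ⟨?_, hTri⟩
      obtain ⟨⟨a1, a2⟩, ⟨b1, b2⟩, ⟨c1, c2⟩⟩ := t
      obtain ⟨x1, x2⟩ := α
      simp only [Prod.mk.injEq, ne_eq] at h12 hX
      obtain ⟨⟨rfl, rfl⟩, rfl, rfl⟩ := h12
      rcases adm_stepA hadm hX with ⟨e1, e2⟩ | ⟨e1, e2⟩ | ⟨e1, e2⟩
      · left; rw [e1, e2]
      · right; left; rw [e1, e2]
      · right; right; rw [e1, e2]
    · intro t' ht'' ht3
      rw [hmem] at ht''
      apply eq_of_B hτ ht3 ht'
      rw [h12.1]
      rcases ht''.1 with rfl | rfl | rfl <;> rfl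

end Pool.Agent.H33.Benzel
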