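import Pool.Agent.H33.Benzel.Model

/-! Tilings of stone regions as systems of triples, and the expansion formula in these terms. -/

open Finset

namespace Pool.Agent.H33.Benzel

lemma isStone_tri_iff {N : ℤ} {t : Tr} : IsStone (tri N t) ↔ AdmS t := by
  constructor
  · intro h
    obtain ⟨t', h1, h2⟩ := isStone_classify N h
    rw [tri_inj h2]
    exact h1
  · exact isStone_tri

lemma adm_of_tile {N : ℤ} {t : Tr} (h : IsStone (tri N t) ∨ IsBone (tri N t)) :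
    AdmS t ∨ AdmB t := by
  rcases h with h | h
  · exact Or.inl (isStone_tri_iff.mp h)
  · obtain ⟨t', h1, h2⟩ := isBone_classify N h
    rw [tri_inj h2]
    exact Or.inr h1

lemma tile_of_adm {N : ℤ} {t : Tr} (h : AdmS t ∨ AdmB t) :
    IsStone (tri N t) ∨ IsBone (tri N t) := by
  rcases h with h | h
  · exact Or.inl (isStone_tri h)
  · exact Or.inr (isBone_tri h)

lemma tile_eq_tri (N : ℤ) {P : Finset Cell} (h : IsStone P ∨ IsBone P) : ∃ t, P = tri N t := by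
  rcases h with h | h
  · obtain ⟨t, _, h2⟩ := isStone_classify N h
    exact ⟨t, h2⟩
  · obtain ⟨t, _, h2⟩ := isBone_classify N h
    exact ⟨t, h2⟩

lemma adm_mono {t : Tr} (h : AdmS t ∨ AdmB t) :
    t.2.1.1 ≤ t.1.1 ∧ t.2.2.2 ≤ t.2.1.2 ∧ t.2.2.1 + t.2.2.2 ≤ t.1.1 + t.1.2 := by
  unfold AdmS AdmB offs at h
  omega

lemma adm_shape {t : Tr} (h : AdmS t ∨ AdmB t) :
    (t.1 = t.2.1 ∧ t.2.1 = t.2.2) ∨ (t.1 = t.2.1 ∧ t.2.2 ≠ t.1) ∨
    (t.2.1 = t.2.2 ∧ t.1 ≠ t.2.1) ∨ (t.1 = t.2.2 ∧ t.2.1 ≠ t.1) ∨ Sink t := by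
  obtain ⟨⟨p, q⟩, ⟨b1, b2⟩, ⟨c1, c2⟩⟩ := t
  unfold AdmS AdmB offs at h
  unfold Sink
  simp only [Prod.mk.injEq, ne_eq] at h ⊢
  rcases h with (h | h | h | h | h | h) | (h | h | h | h | h | h | h | h | h) <;> omega

/-- a tile whose `a`- and `b`-cell lie in one stone -/
lemma adm_stepC {p q c1 c2 : ℤ} (h : AdmS ((p, q), (p, q), (c1, c2)) ∨
    AdmB ((p, q), (p, q), (c1, c2))) (hC : ¬ (c1 = p ∧ c2 = q)) :
    (c1 = p - 1 ∧ c2 = q) ∨ (c1 = p + 1 ∧ c2 = q - 1) ∨ (c1 = p ∧ c2 = q - 1) := by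
  unfold AdmS AdmB offs at h
  simp only at h
  rcases h with (h | h | h | h | h | h) | (h | h | h | h | h | h | h | h | h) <;> omega

/-- a tile whose `b`- and `c`-cell lie in one stone -/
lemma adm_stepA {p q a1 a2 : ℤ} (h : AdmS ((a1, a2), (p, q), (p, q)) ∨
    AdmB ((a1, a2), (p, q), (p, q))) (hA : ¬ (a1 = p ∧ a2 = q)) :
    (a1 = p + 1 ∧ a2 = q - 1) ∨ (a1 = p ∧ a2 = q + 1) ∨ (a1 = p + 1 ∧ a2 = q) := by
  unfold AdmS AdmB offs at h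
  simp only at h
  rcases h with (h | h | h | h | h | h) | (h | h | h | h | h | h | h | h | h) <;> omega

/-- a tile whose `a`- and `c`-cell lie in one stone -/
lemma adm_stepB {p q b1 b2 : ℤ} (h : AdmS ((p, q), (b1, b2), (p, q)) ∨
    AdmB ((p, q), (b1, b2), (p, q))) (hB : ¬ (b1 = p ∧ b2 = q)) :
    (b1 = p ∧ b2 = q + 1) ∨ (b1 = p - 1 ∧ b2 = q) ∨ (b1 = p - 1 ∧ b2 = q + 1) := by
  unfold AdmS AdmB offs at h
  simp only at h
  rcases h with (h | h | h | h | h | h) | (h | h | h | h | h | h | h | h | h) <;> omega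

open scoped Classical in
/-- the weight of a tile, in terms of its triple -/
noncomputable def wtT (w : ℕ) (t : Tr) : ℕ := if AdmS t then w else 1

lemma wt_tri {N : ℤ} (w : ℕ) (t : Tr) : wt w (tri N t) = wtT w t := by
  classical
  unfold wt wtT
  simp only [isStone_tri_iff]

section Tilings

variable {N : ℤ} {A B C : Finset St} {τ : Finset (Finset Cell)}

lemma mem_of_tri_mem (hτ : IsTiling (Reg N A B C) τ) {t : Tr} (ht : tri N t ∈ τ) :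
    t.1 ∈ A ∧ t.2.1 ∈ B ∧ t.2.2 ∈ C := by
  rw [← tri_subset_Reg (N := N)]
  intro c hc
  exact (hτ.2.2 c).mpr ⟨_, ht, hc⟩

lemma adm_of_mem (hτ : IsTiling (Reg N A B C) τ) {t : Tr} (ht : tri N t ∈ τ) :
    AdmS t ∨ AdmB t := adm_of_tile (hτ.1 _ ht)

lemma exists_of_mem_A (hτ : IsTiling (Reg N A B C) τ) {s : St} (hs : s ∈ A) :
    ∃ t, tri N t ∈ τ ∧ t.1 = s := by
  obtain ⟨P, hP, hc⟩ := (hτ.2.2 (cA N s)).mp (mem_Reg_A.mpr hs)
  obtain ⟨t, rfl⟩ := tile_eq_tri N (hτ.1 P hP)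
  exact ⟨t, hP, mem_tri_A.mp hc⟩

lemma exists_of_mem_B (hτ : IsTiling (Reg N A B C) τ) {s : St} (hs : s ∈ B) :
    ∃ t, tri N t ∈ τ ∧ t.2.1 = s := by
  obtain ⟨P, hP, hc⟩ := (hτ.2.2 (cB N s)).mp (mem_Reg_B.mpr hs)
  obtain ⟨t, rfl⟩ := tile_eq_tri N (hτ.1 P hP)
  exact ⟨t, hP, mem_tri_B.mp hc⟩

lemma exists_of_mem_C (hτ : IsTiling (Reg N A B C) τ) {s : St} (hs : s ∈ C) :
    ∃ t, tri N t ∈ τ ∧ t.2.2 = s := by
  obtain ⟨P, hP, hc⟩ := (hτ.2.2 (cC N s)).mp (mem_Reg_C.mpr hs)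
  obtain ⟨t, rfl⟩ := tile_eq_tri N (hτ.1 P hP)
  exact ⟨t, hP, mem_tri_C.mp hc⟩

lemma eq_of_common {R : Finset Cell} (hτ : IsTiling R τ) {P Q : Finset Cell} (hP : P ∈ τ)
    (hQ : Q ∈ τ) {c : Cell} (h1 : c ∈ P) (h2 : c ∈ Q) : P = Q := by
  by_contra hne
  exact disjoint_left.mp (hτ.2.1 P hP Q hQ hne) h1 h2

lemma eq_of_A (hτ : IsTiling (Reg N A B C) τ) {t t' : Tr} (ht : tri N t ∈ τ) (ht' : tri N t' ∈ τ)
    (h : t.1 = t'.1) : t = t' :=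
  tri_inj (eq_of_common hτ ht ht' (mem_tri_A.mpr rfl) (mem_tri_A.mpr h.symm))

lemma eq_of_B (hτ : IsTiling (Reg N A B C) τ) {t t' : Tr} (ht : tri N t ∈ τ) (ht' : tri N t' ∈ τ)
    (h : t.2.1 = t'.2.1) : t = t' :=
  tri_inj (eq_of_common hτ ht ht' (mem_tri_B.mpr rfl) (mem_tri_B.mpr h.symm))

lemma eq_of_C (hτ : IsTiling (Reg N A B C) τ) {t t' : Tr} (ht : tri N t ∈ τ) (ht' : tri N t' ∈ τ)
    (h : t.2.2 = t'.2.2) : t = t' :=
  tri_inj (eq_of_common hτ ht ht' (mem_tri_C.mpr rfl) (mem_tri_C.mpr h.symm))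

end Tilings

/-- Expansion along a family of candidate triples. -/
theorem step_general {N : ℤ} {A B C : Finset St} (w : ℕ) (cand : Finset Tr)
    (hadm : ∀ t ∈ cand, (AdmS t ∨ AdmB t) ∧ t.1 ∈ A ∧ t.2.1 ∈ B ∧ t.2.2 ∈ C)
    (hex : ∀ τ, IsTiling (Reg N A B C) τ →
      ∃ t, (t ∈ cand ∧ tri N t ∈ τ) ∧ ∀ t', t' ∈ cand → tri N t' ∈ τ → t' = t) :
    weightedCount (Reg N A B C) w = ∑ t ∈ cand, wtT w t *
      weightedCount (Reg N (A.erase t.1) (B.erase t.2.1) (C.erase t.2.2)) w := by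
  classical
  rw [weightedCount_expand (Reg N A B C) w (cand.image (tri N))]
  · rw [sum_image (fun t _ t' _ h => tri_inj h)]
    apply sum_congr rfl
    intro t _
    rw [wt_tri, Reg_sdiff_tri]
  · intro P hP
    rw [mem_image] at hP
    obtain ⟨t, ht, rfl⟩ := hP
    exact ⟨tile_of_adm (hadm t ht).1, tri_subset_Reg.mpr (hadm t ht).2⟩
  · intro τ hτ
    obtain ⟨t, ⟨h1, h2⟩, h3⟩ := hex τ hτ
    refine ⟨tri N t, ⟨mem_image_of_mem _ h1, h2⟩, ?_⟩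
    intro Q hQ hQτ
    rw [mem_image] at hQ
    obtain ⟨t', ht', rfl⟩ := hQ
    rw [h3 t' ht' hQτ]

end Pool.Agent.H33.Benzel
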